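import Mathlib
import Pool.Agent.SI.Stmts
import Pool.Agent.EVN.Stmts3

set_option autoImplicit false

/-!
# E2P: products of two primes, the first one small, in almost all short intervals, and the
theorem for MP_4011c3_nt, Q2 (and Q1), for EVERY large `n` and EVERY `m ≥ (log n)^C`

THEOREM (`St_EF` for `Φ = EVN.Phi`).  There are `C`, `n₀` such that for all `n ≥ n₀` and all `m` with
`(log n)^C ≤ m`, `2 m + 1 < n` there is `a < n`, a prime or the product of a prime and a prime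
`≤ (log n)^C`, such that `q = ⌊(n - a)/m⌋` is prime, `q^2 - 2` has at most five prime factors and
`p_q - q + 1` has at most `8 log log n` prime factors; there are at least `n/(log n)^8` such `a` if
`12 m ≤ n`.  More generally (`St_EQ`) `q` can be taken from any set of at least
`(n/m) (log n)^{-A}` integers.

In the docstrings: `L = log X` (in `St_EC`, `St_EQ`, `St_EF`: `L = log n`), `P = Pn B₁ X`,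
`N = Nn B₁ X`, `M = 2^(siz l + l.length)`, `G(t) = DP (cof Z l) M t`, `P(t) = PS (Sn B₁ X) t`,
`ŵ = 𝓕 w`, `c₂` the constant of the third part of `SI.St_Cof`.
For a list with `IsBox N Z l`, `N ≤ X`, `X` large: `siz l ≤ log₂(3N)`, `1 + siz l ≤ 4 L`,
`M ≤ 2^8 · 2^(siz l) ≤ 768 N`, `∑ cof² ≤ c₂ 3N (4L)^c₂`, `∑ |cof| ≤ c₂ 3N (4L)^c₂`.
The theorems SI.thm_VC, thm_MV, thm_Fac, thm_Cof, thm_Box, thm_Four, thm_W, thm_Long, SI.gap,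
EVN.thm_Spa3 are on main.  General lemmas in SI/Var.lean: `var_log_pow` (C (log X)^n ≤ X^s for large
X), `var_log_large`, `var_norm_nit`, `var_DP_neg`, `var_DP_le`, `var_DP_cont`, `var_split`,
`var_supp`, `var_decomp`.
-/

namespace Pool.Agent.E2P

open Finset Filter MeasureTheory
open Pool.Agent.SI (nit DP fac cof siz IsW Wd)
open Pool.Agent.EVN (DensP BigP)
open scoped FourierTransform

/-! ## Definitions -/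

/-- `a = p₁ p₂` with a prime `p₁ ≤ B` -/
def E2 (B : ℝ) (a : ℕ) : Prop := ∃ p₁ p₂ : ℕ, p₁.Prime ∧ p₂.Prime ∧ (p₁ : ℝ) ≤ B ∧ a = p₁ * p₂

/-- `a` is a prime, or a prime times a prime `≤ B` -/
def Es (B : ℝ) (a : ℕ) : Prop := a.Prime ∨ E2 B a

/-- the `a ∈ (x, x + h]` with `E2 B a` -/
noncomputable def W2 (B : ℝ) (x : ℕ) (h : ℝ) : Finset ℕ := by
  classical exact (Ioc x (x + ⌊h⌋₊)).filter (fun a => E2 B a)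

/-- the `a` with `Es B a` in the cell `(n - m (j + 1), n - m j]`, where `(n - a) / m = j` -/
noncomputable def Cel (B : ℝ) (n m j : ℕ) : Finset ℕ := by
  classical exact (Ioc (n - m * (j + 1)) (n - m * j)).filter (fun a => Es B a)

/-- the `a < n` with `Es B a` and `(n - a) / m ∈ Q` -/
noncomputable def SolS (B : ℝ) (Q : Finset ℕ) (m n : ℕ) : Finset ℕ := by
  classical exact (range n).filter (fun a => Es B a ∧ (n - a) / m ∈ Q)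

/-- the `a < n` with `Es B a` and `q = (n - a) / m` prime with the property `Φ` -/
noncomputable def SolE (Φ : ℕ → ℕ → Prop) (B : ℝ) (m n : ℕ) : Finset ℕ := by
  classical exact (range n).filter (fun a => Es B a ∧ ((n - a) / m).Prime ∧ Φ n ((n - a) / m))

/-- the size of the small prime -/
noncomputable def Pn (B X : ℕ) : ℕ := ⌈Real.log X ^ B⌉₊

/-- the primes in `(P, 5P/4]` -/
noncomputable def Sn (B X : ℕ) : Finset ℕ := (Ioc (Pn B X) (5 * Pn B X / 4)).filter Nat.Prime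

/-- the large prime is in `[N, 3N]` -/
noncomputable def Nn (B X : ℕ) : ℕ := 4 * X / (5 * Pn B X)

/-- the polynomial over `S` -/
noncomputable def PS (S : Finset ℕ) (t : ℝ) : ℂ := ∑ p ∈ S, nit t p

/-- the convolution of `g` with the indicator function of `S` -/
noncomputable def cS (S : Finset ℕ) (g : ℕ → ℝ) (n : ℕ) : ℝ :=
  ∑ d ∈ n.divisors, if d ∈ S then g (n / d) else 0

/-- the weighted sum over the products `p b` -/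
noncomputable def DD (w : ℝ → ℝ) (B₁ X : ℕ) (d y : ℝ) : ℝ :=
  ∑ p ∈ Sn B₁ X, ∑ b ∈ Icc (Nn B₁ X) (3 * Nn B₁ X),
    ArithmeticFunction.vonMangoldt b * Wd w d (Real.log p + Real.log b - y)

/-- the lists of `SI.St_Box` for `N` -/
structure IsBox (N Z : ℕ) (l : List (ℕ × ℕ)) : Prop where
  hZ : (Z : ℝ) ≤ 4 * (N : ℝ) ^ (1 / 4 : ℝ)
  l1 : 1 ≤ l.length
  l8 : l.length ≤ 8
  kind : ∀ x ∈ l, x.1 ≤ 2
  up : 2 ^ siz l ≤ 3 * N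
  low : N ≤ 2 ^ (siz l + l.length)

/-! ## H. The mean square on a small set -/

/-- HM.  Mean square on a set of measure `V` (Halasz-Montgomery).

Proof.  `f(t) = DP c M t`, continuous; `I = ∫_U |f|²`, `D(u) = ∑_{n ≤ M} nit u n`.  We have
`I = ∑_n c_n ∫_U nit(t,n) conj f(t) dt ≤ (∑ c²)^{1/2} (∑_{n ≤ M} |∫_U nit(t,n) conj f(t) dt|²)^{1/2}`
(Cauchy), and the last sum is the double integral over `(t,t') ∈ U × U` of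
`conj f(t) f(t') D(t - t')`, so it is at most `∬ (|f(t)|² + |f(t')|²)/2 |D(t - t')|
≤ I · sup_{t ∈ U} ∫_U |D(t - t')| dt'` (Tonelli, `|D(-u)| = |D(u)|`).  So
`I ≤ (∑ c²) sup_{t ∈ U} ∫_U |D(t - t')| dt'`.  `EVN/Dua.lean` (lemmas `dua_nit_mul`, `dua_sq`,
`dua_z_int`, `dua_f_int`) has the same double integral; apply them to `h = ` the indicator of `U`
times `conj f` (integrable: `U` is bounded) after the substitution `ξ = t / 2π`, or copy them.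
Bound for `D`: `|D(u)| ≤ M`, and for `|u| ≥ 1`, by `SI.St_VC` (first bound) for the dyadic blocks
`(2^j, min(2^{j+1}, M)]`, `2^j < M`: `|D(u)| ≤ 1 + C (2M/|u| + (1 + log₂ M) |u|^{1/2})`.  Here
`|u| ≤ 2X`, so the integral over the `t' ∈ U` is at most
`2M + 4 C M log(2X) + V (1 + C (1 + log₂ M)(2X)^{1/2}) ≤ C' (1 + log X)(M + V X^{1/2})`. -/
def St_HM : Prop := ∃ C : ℝ, 0 < C ∧ ∀ (c : ℕ → ℝ) (M : ℕ) (X V : ℝ) (U : Set ℝ), 1 ≤ M →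
  (M : ℝ) ≤ X → 0 ≤ V → MeasurableSet U → (∀ t ∈ U, |t| ≤ X) → volume U ≤ ENNReal.ofReal V →
  ∫ t in U, ‖DP c M t‖ ^ 2 ≤
    C * (1 + Real.log X) * (M + V * Real.sqrt X) * ∑ n ∈ Icc 1 M, c n ^ 2

/-- H1.  A factor of medium size.

Proof.  `l' = l.erase x`, `i = x.2`, `M' = 2^(siz l' + l'.length)`, `siz l' + i = siz l`,
`l'.length + 1 = l.length`.  As in SI/Rem.lean (`SI.St_Cof`, first part, for `l` and `l'`; the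
product over `l` is a permutation of the product over `x :: l'`)
`‖DP (cof Z l) M t‖ = ‖DP (fac x.1 Z i) (2^(i+1)) t‖ ‖DP (cof Z l') M' t‖`.  `SI.St_Fac`, first
part, with `A' = A + c₂ + 2`, `δ = 1/100`: the first factor is `≤ 2^i/L^{A'}` for
`L^B ≤ |t| ≤ X` (`2^(i+1) ≤ X`).  St_HM for `c = cof Z l'`, `V = X^{1/1000}`: `M' ≤ 2^10 N ≤ X`, and
`M' ≥ N/(2 · 2^i) ≥ X^{502/1000}/2 ≥ X^{501/1000} = V X^{1/2}`, so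
`∫_U ‖DP (cof Z l') M'‖² ≤ C (1 + L) 2 M' · c₂ 2^(siz l') (1 + siz l')^c₂`, `M' ≤ 2^7 2^(siz l')`.
Since `2^(2i) 2^(2 siz l') = 2^(2 siz l) ≤ 9 N²`, the product is `≤ C' N² L^{1 + c₂ - 2A'} ≤
N²/L^A`. -/
def St_H1 : Prop := ∀ A : ℕ, ∃ B X₀ : ℕ, ∀ X ≥ X₀, ∀ (N Z : ℕ) (l : List (ℕ × ℕ)), IsBox N Z l →
  2 ^ 10 * N ≤ X → (X : ℝ) ^ (999 / 1000 : ℝ) ≤ N → ∀ x ∈ l, (X : ℝ) ^ (1 / 100 : ℝ) ≤ 2 ^ x.2 →
  (2 : ℝ) ^ x.2 ≤ (X : ℝ) ^ (497 / 1000 : ℝ) → ∀ U : Set ℝ, MeasurableSet U →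
  (∀ t ∈ U, Real.log X ^ B ≤ |t| ∧ |t| ≤ X) → volume U ≤ ENNReal.ofReal ((X : ℝ) ^ (1 / 1000 : ℝ)) →
  ∫ t in U, ‖DP (cof Z l) (2 ^ (siz l + l.length)) t‖ ^ 2 ≤ N ^ 2 / Real.log X ^ A

/-- H2.  A large factor.

Proof.  `i = x.2`, `f = 2^i`, `V = X^{1/1000}`, other letters as in H1.  If `x.1 = 2`, then
`fac 2 Z i n ≠ 0` only for `2^i ≤ n ≤ Z ≤ 4 N^{1/4}`, impossible for large `X`; so the first factor,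
and `DP (cof Z l)`, is zero.  So `x.1 ≤ 1`.  `‖DP (cof Z l') M' t‖ ≤ ∑ |cof Z l'| ≤
c₂ 2^(siz l') (1 + siz l')^c₂` (`SI.var_DP_le`, St_Cof), `f 2^(siz l') = 2^(siz l) ≤ 3N`.  It is enough to
show `∫_U ‖DP (fac x.1 Z i) (2^(i+1)) t‖² ≤ C f² (X^{-1/1000} + L^{2-B})`; then the claim holds with
`B = A + 2 c₂ + 4`.  Note `1 + i ≤ 4L`, `∫_{|t| ≥ L^B} dt/t² = 2/L^B`, `f ≥ X^{497/1000}`.
On `|t| ≤ X^{496/1000}` the first bound of `SI.St_Fac`, second part, gives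
`‖..‖² ≤ C L² (f²/t² + X^{496/1000})`, integral over `U` at most `C L² (2 f²/L^B + V X^{496/1000})`,
and `f² ≥ X^{994/1000}`.  On `X^{496/1000} < |t| ≤ X` the second bound gives
`‖..‖ ≤ C L (f^{1/2} X^{1/6} + f X^{-496/6000}) ≤ 2 C L f X^{-8/100}`, since
`f^{-1/2} ≤ X^{-497/2000}`; squared, times `V`: `≤ 4 C² L² f² X^{-16/100 + 1/1000}`. -/
def St_H2 : Prop := ∀ A : ℕ, ∃ B X₀ : ℕ, ∀ X ≥ X₀, ∀ (N Z : ℕ) (l : List (ℕ × ℕ)), IsBox N Z l →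
  2 ^ 10 * N ≤ X → (X : ℝ) ^ (999 / 1000 : ℝ) ≤ N → ∀ x ∈ l,
  (X : ℝ) ^ (497 / 1000 : ℝ) < 2 ^ x.2 → ∀ U : Set ℝ, MeasurableSet U →
  (∀ t ∈ U, Real.log X ^ B ≤ |t| ∧ |t| ≤ X) → volume U ≤ ENNReal.ofReal ((X : ℝ) ^ (1 / 1000 : ℝ)) →
  ∫ t in U, ‖DP (cof Z l) (2 ^ (siz l + l.length)) t‖ ^ 2 ≤ N ^ 2 / Real.log X ^ A

/-- EH.  The mean square on a small set.

Proof.  H1, H2 with `B` the maximum (for large `X` `L ≥ 1`).  There is `x ∈ l` with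
`8 x.2 ≥ siz l` (`l.length ≤ 8`; the sum of at most 8 numbers), so
`2^(8 x.2) ≥ 2^(siz l) ≥ N/2^8 ≥ X^{999/1000}/2^8` and `2^(x.2) ≥ X^{1/100}` for large `X`.  Now H1 or
H2 applies to `x`. -/
def St_EH : Prop := ∀ A : ℕ, ∃ B X₀ : ℕ, ∀ X ≥ X₀, ∀ (N Z : ℕ) (l : List (ℕ × ℕ)), IsBox N Z l →
  2 ^ 10 * N ≤ X → (X : ℝ) ^ (999 / 1000 : ℝ) ≤ N → ∀ U : Set ℝ, MeasurableSet U →
  (∀ t ∈ U, Real.log X ^ B ≤ |t| ∧ |t| ≤ X) → volume U ≤ ENNReal.ofReal ((X : ℝ) ^ (1 / 1000 : ℝ)) →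
  ∫ t in U, ‖DP (cof Z l) (2 ^ (siz l + l.length)) t‖ ^ 2 ≤ N ^ 2 / Real.log X ^ A

/-! ## P. Products of two polynomials -/

/-- PRD.  The convolution.

Proof.  `∑_{n ≤ KM} cS S g n Ψ(n) = ∑_n ∑_{d ∣ n, d ∈ S} g(n/d) Ψ(n)`; the pairs `(d, b)`, `d ∈ S`,
`1 ≤ b ≤ M` correspond to the pairs `(n, d)`, `n = d b ≤ K M` (if `g (n/d) ≠ 0` then `n/d ≤ M`, the
others do not contribute).  The first part is the same with `Ψ(n) = nit t n`,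
`nit t (d b) = nit t d nit t b` for `d, b ≥ 1` (compare SI/Cof.lean). -/
def St_Prd : Prop := ∀ (S : Finset ℕ) (g : ℕ → ℝ) (K M : ℕ), (∀ p ∈ S, 1 ≤ p ∧ p ≤ K) →
  (∀ n, g n ≠ 0 → 1 ≤ n ∧ n ≤ M) →
  (∀ t : ℝ, DP (cS S g) (K * M) t = PS S t * DP g M t) ∧
  ∀ Ψ : ℕ → ℝ, ∑ n ∈ Icc 1 (K * M), cS S g n * Ψ n = ∑ p ∈ S, ∑ b ∈ Icc 1 M, g b * Ψ (p * b)

/-- EU.  The range `(log X)^B₀ ≤ t ≤ X/P`.

Proof.  `EVN.St_Spa3` for `ε = 1/1000`: `η` (we may assume `η ≤ 1/2`, a smaller `η` has a smaller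
set), `C'`.  `B₀` from EH for `A + 1` (at least 1), `B₂ ≥ C' + 1` and `2 η B₂ ≥ A + c₂ + 4`.  Let
`B₁ ≥ B₂`; `X` large; so `L^{C'} ≤ L^{B₁} ≤ P ≤ 2 L^{B₁}`, `2^10 ≤ P`, `N ≤ X/P` (in fact
`P N ≤ 4X/5`), `2^10 N ≤ X`, `X^{999/1000} ≤ N`.  `T₀ = L^{B₀}`,
`U = {t ∈ (T₀, T₁] : P^{1-η} < ‖P(t)‖}`, measurable, of measure `≤ X^{1/1000}` by Spa3 with `n := X`,
`S = Sn B₁ X` (`T₁ ≤ X ≤ X²`).  On `U` `‖P(t)‖ ≤ #S ≤ P`, so by EH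
`∫_U ≤ P² N²/L^{A+1} ≤ X²/L^{A+1}`.  Outside `U`: `‖P(t)‖² ≤ P^{2-2η}`, and `SI.St_MV` on
`[-T₁, T₁]`: `∫ ‖G‖² ≤ C (T₁ + M (1 + log M)) ∑ cof² ≤ C' (X/P)(1 + L)(X/P)(4L)^{c₂}`
(`T₁ ≤ X/P`, `M ≤ 768 N ≤ 768 X/P`); together `≤ C'' X² P^{-2η} L^{c₂+1} ≤ X² L^{-A-2}` for large `X`
as `P^{2η} ≥ L^{2ηB₁}`.  (The integrand is continuous; interval integral = integral over
`Ioc T₀ T₁`.) -/
def St_EU : Prop := ∀ A : ℕ, ∃ B₀ B₂ : ℕ, 1 ≤ B₀ ∧ 1 ≤ B₂ ∧ ∀ B₁ ≥ B₂, ∃ X₀ : ℕ, ∀ X ≥ X₀,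
  ∀ (Z : ℕ) (l : List (ℕ × ℕ)), IsBox (Nn B₁ X) Z l → ∀ T₁ : ℝ, Real.log X ^ B₀ ≤ T₁ →
  T₁ * Pn B₁ X ≤ X →
  ∫ t in (Real.log X ^ B₀)..T₁, (‖PS (Sn B₁ X) t‖ *
    ‖DP (cof Z l) (2 ^ (siz l + l.length)) t‖) ^ 2 ≤ X ^ 2 / Real.log X ^ A

/-- ER.  The tail.

Proof.  `P`, `N`, `M`, `G` as above, `X` large (so `P ≤ 2L^{B₁}`, `P N ≤ X`, `T₁ ≤ X`).
`C₁ = A + c₂ + 2`.  On `[2^j T₁, 2^{j+1} T₁]`: `(1 + δt)^{-4} ≤ (2^j L^{C₁})^{-4}`, and by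
`SI.St_MV` on `[-2^{j+1}T₁, 2^{j+1}T₁]` and `‖P(t)‖ ≤ P` the integral of `(‖P(t)‖ ‖G(t)‖)²` is
`≤ P² C (2^{j+1} T₁ + M (1 + log M)) ∑ cof² ≤ C' 2^{j+1} X² L^{c₂+1}` (`T₁ ≤ X/P`, `M ≤ 768 X/P`).  The
sum over `j ≤ J`, `2^J T₁ ≥ X²`, is `≤ 3 C' X² L^{c₂ + 1 - 4C₁} ≤ X²/(2 L^A)`.  For `t ≥ X²`:
`(1 + δt)^{-4} ≤ (8X/t)^4`, `‖P(t)‖ ‖G(t)‖ ≤ P ∑ |cof| ≤ C' X L^{c₂}`, so the rest is
`≤ C' L^{2c₂}` (`∫_{X²}^∞ t^{-4} dt = X^{-6}/3`).  Integrability: continuous and `≤ C_X (1 + δt)^{-4}`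
on `(T₁, ∞)`. -/
def St_ER : Prop := ∀ A : ℕ, ∃ C₁ : ℕ, 1 ≤ C₁ ∧ ∀ B₁ ≥ 1, ∃ X₀ : ℕ, ∀ X ≥ X₀,
  ∀ (Z : ℕ) (l : List (ℕ × ℕ)), IsBox (Nn B₁ X) Z l → ∀ δ T₁ : ℝ, 1 / (8 * X) ≤ δ → δ ≤ 1 →
  Real.log X ^ C₁ ≤ δ * T₁ → T₁ * Pn B₁ X ≤ X →
  IntegrableOn (fun t : ℝ => (1 / (1 + δ * t) ^ 4) * (‖PS (Sn B₁ X) t‖ *
    ‖DP (cof Z l) (2 ^ (siz l + l.length)) t‖) ^ 2) (Set.Ioi T₁) ∧
  ∫ t in Set.Ioi T₁, (1 / (1 + δ * t) ^ 4) * (‖PS (Sn B₁ X) t‖ *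
    ‖DP (cof Z l) (2 ^ (siz l + l.length)) t‖) ^ 2 ≤ X ^ 2 / Real.log X ^ A

/-- EP.  The mean square of one product.

Proof.  EU for `A + 2`: `B₀`, `B₂`; ER for `A + 2`: `C₁`.  `B = 3 B₀ + 2 c₂ + A + 3`.  Let `B₁ ≥ B₂`
and `C = B₁ + C₁ + 2`.  `δ = h/(8X)`, `δ' = 1/(log N)^B`; `δ ≤ δ' ≤ 1` (`h ≤ X^{1/3}`),
`δ' ≤ 2^B/L^B` (`log N ≥ L/2`).  `T₀ = L^{B₀}`, `T₁ = 8 X L^{C₁}/h`; `δ T₁ = L^{C₁}`, `T₁ P ≤ X` by the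
choice of `C` (`P ≤ 2 L^{B₁}`), `T₁ ≥ X^{1/2} ≥ T₀`.  PRD with `S = Sn B₁ X`, `K = 2P`, `g = cof Z l` and
`M` (SI.St_Cof, second part): `DP (cS S g) (2PM) t = P(t) G(t)`.  By `SI.St_Four` (Plancherel) the
integral is `∫ |ŵ(δξ) - ŵ(δ'ξ)|² (‖P(2πξ)‖ ‖G(2πξ)‖)² dξ`.  The integrand is even (`w` is real), or
bound the two half lines separately; `‖P(-t)‖ = ‖P(t)‖`, `SI.var_DP_neg`.
(1) `2π|ξ| ≤ T₀`: `|ŵ(δξ) - ŵ(δ'ξ)| ≤ C_L δ' |ξ| ≤ C_L δ' T₀`, `‖P‖ ‖G‖ ≤ P ∑ |cof| ≤ C' X L^{c₂}`: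
`≤ 2 T₀ (C_L δ' T₀)² C'² X² L^{2c₂} ≤ C'' X² L^{3B₀ + 2c₂ - 2B} ≤ X²/(4 L^A)`.
(2) `T₀ ≤ 2π|ξ| ≤ T₁`: `|ŵ(δξ) - ŵ(δ'ξ)| ≤ 2 C₀` (St_Four, `K = 0`), EU.
(3) `2π|ξ| ≥ T₁`: `|ŵ(δξ) - ŵ(δ'ξ)|² ≤ 4 C_2²/(1 + δ|ξ|)^4 ≤ 4 C_2² (2π)^4/(1 + δt)^4`,
`t = 2π|ξ|` (St_Four, `K = 2`; `δ ≤ δ'`), ER.
Pattern: `SI.var_one` and `SI.var_split` in SI/Var.lean. -/
def St_EP : Prop := ∀ w : ℝ → ℝ, IsW w → ∀ A : ℕ, ∃ B B₂ : ℕ, 1 ≤ B ∧ 1 ≤ B₂ ∧ ∀ B₁ ≥ B₂,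
  ∃ C X₀ : ℕ, ∀ X ≥ X₀, ∀ h : ℝ, Real.log X ^ C ≤ h → h ≤ (X : ℝ) ^ (1 / 3 : ℝ) →
  ∀ (Z : ℕ) (l : List (ℕ × ℕ)), IsBox (Nn B₁ X) Z l →
  ∫ y : ℝ, (∑ n ∈ Icc 1 (2 * Pn B₁ X * 2 ^ (siz l + l.length)), cS (Sn B₁ X) (cof Z l) n *
    (Wd w (h / (8 * X)) (Real.log n - y) -
      Wd w (1 / Real.log (Nn B₁ X) ^ B) (Real.log n - y))) ^ 2 ≤ X ^ 2 / Real.log X ^ A

/-! ## E. Short averages against long averages -/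

/-- EV.  The variance.

Proof.  As `SI.thm_Var` (SI/Var.lean).  EP for `A + 17`: `B`, `B₁ := B₂`, `C`; `SI.St_Box` for
`N = Nn B₁ X` gives `Z`, `Lst`, `a` (`IsBox N Z l` for `l ∈ Lst`).  `δ = h/(8X) ≤ 1/3`,
`δ' = 1/(log N)^B ≤ 1/3`.  Let `log X ≤ y ≤ log(3X/2)` and `p ∈ Sn B₁ X`, `P < p ≤ 5P/4`,
`y' = y - log p`: `log N ≤ y' ≤ log(2N)` (`N ≤ 4X/(5P)`, and
`3X/(2P) ≤ 2(4X/(5P) - 1) ≤ 2N` if `X/P ≥ 20`).  So by `SI.var_supp` (for `N`) and `SI.var_decomp` (for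
`N`, `K(b) = Wd w δ (log b - y') - Wd w δ' (log b - y')`)
`∑_{b ∈ [N,3N]} Λ(b) K(b) = ∑_l a_l ∑_{b ≤ M_l} cof Z l b K(b)`; sum over `p` and PRD with
`Ψ(n) = Wd w δ (log n - y) - Wd w δ' (log n - y)` (`log(pb) = log p + log b` for `b ≥ 1`):
`DD(δ) - DD(δ') = ∑_l a_l ∑_{n ≤ 2 P M_l} cS S (cof Z l) n Ψ(n)`.  Cauchy over `l`
(`#Lst ≤ C(1 + log N)^8`, `|a_l| ≤ C`), and EP. -/
def St_EV : Prop := ∀ w : ℝ → ℝ, IsW w → ∀ A : ℕ, ∃ B B₁ C X₀ : ℕ, 1 ≤ B ∧ 1 ≤ B₁ ∧ ∀ X ≥ X₀,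
  ∀ h : ℝ, Real.log X ^ C ≤ h → h ≤ (X : ℝ) ^ (1 / 3 : ℝ) →
  ∫ y in (Real.log X)..(Real.log (3 * X / 2)), (DD w B₁ X (h / (8 * X)) y -
    DD w B₁ X (1 / Real.log (Nn B₁ X) ^ B) y) ^ 2 ≤ X ^ 2 / Real.log X ^ A

/-- EL.  The long averages.

Proof.  For `p ∈ Sn B₁ X` and `y' = y - log p` we have `log N ≤ y' ≤ log(2N)` (see EV), so
`SI.St_Long` for `N` and `B` gives `∑_b Λ(b) Wd w δ' (log b - y') ≥ e^{y'}/2 = e^y/(2p) ≥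
X/(2 · 5P/4)`.  So `DD ≥ (2X/5) #Sn/P`.  Lower bound for `#Sn`: `SI.St_Long` for `P` (as a natural
number), `B = 1`, `y = log P`: `P/2 ≤ ∑_{n ∈ [P,3P]} Λ(n) Wd w (1/log P) (log n - log P)`; the terms
that do not vanish have `P < n < P e^{1/log P} ≤ 5P/4` (`log P ≥ 5`) and are
`≤ log(2P) sup w log P` (`SI.gap_bdd`, `SI.gap_Wd_le`, `SI.gap_Wd_supp`), and `n` is a prime
power; at most `√(2P) log₂(2P)` of them are not prime.  So `#Sn ≥ c P/(log P)²` for large `X`, and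
`log P ≤ 2 B₁ log L`, so `(2/5) c/(log P)² ≥ 1/L` for large `X`. -/
def St_EL : Prop := ∀ w : ℝ → ℝ, IsW w → ∀ B₁ B : ℕ, 1 ≤ B₁ → 1 ≤ B → ∃ X₀ : ℕ, ∀ X ≥ X₀,
  ∀ y : ℝ, Real.log X ≤ y → y ≤ Real.log (3 * X / 2) →
  X / Real.log X ≤ DD w B₁ X (1 / Real.log (Nn B₁ X) ^ B) y

/-- EG.  Almost all short intervals contain many `p₁ p₂`.

Proof.  As `SI.thm_Gap` (SI/Gap.lean).  `w` from `SI.St_W`, `W ≥ w` a bound.  EV for `A + 5`: `B`,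
`B₁`, `C₀`; `C = max(C₀, B₁ + 2)`; `X` large.  `δ = h/(8X)`, `f(y) = (DD(δ) - DD(δ'))²`, continuous.
Let `F'` be the set of the `x ∈ F` with `2(x+1) ≤ 3X` (all but one) for which no `a ∈ (x, x+h]` is of
the form `p b` with `p ∈ Sn B₁ X` and a prime power `b ≤ 3N`, not prime.  There are
`≤ P √(3N) log₂(3N)` such products `pb`, and each excludes at most `h + 1` of the `x`, in total
`≤ X^{1/2} L^{B₁+3} (X^{1/3} + 1) ≤ X/(3 L^A)`.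
Let `x ∈ F'`, `log x ≤ y ≤ log(x+1)`.  If the term of `(p,b)` in `DD(δ)` is not zero, then
`x ≤ e^y < pb < e^{y+δ} ≤ (x+1)(1+2δ) ≤ x + 1 + 3h/8 ≤ x + h`, so `b` is prime,
`a = pb ∈ W2 (L^C) x h` (`p ≤ 5P/4 ≤ L^C`), and `a` determines `(p,b)` (`p < N ≤ b`); the term is
`≤ log(3N) W/δ ≤ 2L · 8WX/h`.  So `DD(δ) ≤ (16 W L X/h) (h/L³) ≤ X/(2L)`.  EL: `DD(δ') ≥ X/L`.  So
`f(y) ≥ X²/(4L²)` on the disjoint intervals `[log x, log(x+1))` of length `≥ 1/(2X)`, and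
`#F' · X/(8L²) ≤ X²/L^{A+5}` (pattern: `SI.gap_int`). -/
def St_EG : Prop := ∀ A : ℕ, ∃ C X₀ : ℕ, ∀ X ≥ X₀, ∀ h : ℝ, Real.log X ^ C ≤ h →
  h ≤ (X : ℝ) ^ (1 / 3 : ℝ) → ∀ F : Finset ℕ, (∀ x ∈ F, X ≤ x ∧ 2 * x ≤ 3 * X ∧
    ((W2 (Real.log X ^ C) x h).card : ℝ) < h / Real.log X ^ 3) →
  (F.card : ℝ) ≤ X / Real.log X ^ A

/-! ## F. Cells, and the theorem -/

/-- EC.  Almost all cells are good.

Proof.  `C₁` from EG for `A + 2`, `C = C₁ + 1`, `L = log n`, `n` large.  Let `j` be bad.  As `4m ≤ n`,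
`4mj ≤ 3n`, the cell `(n - m(j+1), n - mj]` is in `[0, n]`.
`J_j = Ioc (n - m (j+1)) (n - m j - (m/4 + 1))` has `≥ 3m/4 - 1 ≥ m/2` elements; the `J_j` are
disjoint.
(1) `m ≤ n^{1/3}`: the elements of `J_j` are `≥ n/4 - m ≥ n/5`.  `h = m/4`, `X_k = k n/20` (integer
part) for `k = 4, 5, 7, 10, 14`: every `x ∈ J_j` satisfies `X_k ≤ x`, `2x ≤ 3X_k` for some `k`.
`W2 (log X_k^{C₁}) x h` is a subset of `Cel (L^C) n m j`, so it has fewer than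
`m/L^4 ≤ h/(log X_k)^3` elements (`L ≥ 4`), and `x ∈ F_k`, the set of all `x` with the condition of EG
for `X_k` and `C₁` (`(log X_k)^{C₁} ≤ L^{C₁} ≤ m/4`, `m/4 ≤ X_k^{1/3}`).  So
`#bad · m/2 ≤ ∑_k #F_k ≤ 5 n/(log (n/6))^{A+2}`.
(2) `m > n^{1/3}`: `SI.St_Gap` for `ε = 1/24` (`Y^{1/4+ε} ≤ n^{7/24} ≤ m/4`) and `A + 2`: `c`.
`Y_k = 2^k (n/32)`, `k ≤ 5`; the `[Y_k, 2Y_k]` cover `[n/32, n]`.  `J'_j` = the `x ∈ J_j` with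
`n ≤ 32 x`; it has `≥ m/4` elements (the last element of `J_j` is `≥ 3n/16 - 1`).  The cell has at
most `m/L^4 ≤ c₁ m/L` primes, `c₁ = c/100`; by `SI.t4_range` at most `m/100` of the `x ∈ J'_j` in
`[Y_k, 2Y_k]` are not in `SI.GapSet (1/24) c Y_k`; so at least `m/4 - 6m/100 ≥ m/8` of the `x ∈ J'_j`
are in one of the six sets `GapSet`, of size `≤ Y_k/(log Y_k)^{A+2}` (St_Gap).  So
`#bad · m/8 ≤ 6 n/(log (n/40))^{A+2}`.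
In both cases `#bad ≤ C (n/m)/L^{A+2} ≤ (n/m)/L^A`. -/
def St_EC : Prop := ∀ A : ℕ, ∃ C n₀ : ℕ, ∀ n ≥ n₀, ∀ m : ℕ, Real.log n ^ C ≤ m → 4 * m ≤ n →
  (((Icc 1 (3 * n / (4 * m))).filter (fun j => ((Cel (Real.log n ^ C) n m j).card : ℝ) <
    m / Real.log n ^ 4)).card : ℝ) ≤ n / m / Real.log n ^ A

/-- EQ.  Every dense set of `q`.

Proof.  EC for `A + 1`.  The `q ∈ Q` are in `Icc 1 (3n/(4m))`, at most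
`(n/m)/L^{A+1} ≤ #Q/2` of them are bad (`L ≥ 2`).  For a good `q` all elements `a` of the cell have
`a < n` and `(n - a)/m = q` (`SI.t4_div`, `m (q+1) ≤ n`), and the cells are disjoint; so
`#SolS ≥ (#Q/2) m/L^4`. -/
def St_EQ : Prop := ∀ A : ℕ, ∃ C n₀ : ℕ, ∀ n ≥ n₀, ∀ m : ℕ, Real.log n ^ C ≤ m → 4 * m ≤ n →
  ∀ Q : Finset ℕ, (∀ q ∈ Q, 1 ≤ q ∧ 4 * (m * q) ≤ 3 * n) →
  n / m / Real.log n ^ A ≤ (Q.card : ℝ) →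
  Q.card * m / (2 * Real.log n ^ 4) ≤ ((SolS (Real.log n ^ C) Q m n).card : ℝ)

/-- EF.  The theorem.

Proof.  `C` from EQ for `A = 4`.  Case `12 m ≤ n`: `K = n/(2m) ≥ 2`, `K ≥ 5n/(12m)`; `DensP Φ` gives
`S`, `#S ≥ c K/(1 + log K)^3 ≥ c (5n/(12m))/(8 L^3) = 5 c n/(96 m L^3) ≥ (n/m)/L^4` for large `n`.  EQ
with `Q = S` (the `q ∈ S` are primes `≤ K`, `4 m q ≤ 2 n`):
`#SolE ≥ #SolS ≥ #S m/(2 L^4) ≥ 5 c n/(192 L^7) ≥ n/L^8`, so it is not empty.  Case `12 m > n`: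
`BigP Φ` gives a prime `a`. -/
def St_EF : Prop := ∀ Φ : ℕ → ℕ → Prop, DensP Φ → BigP Φ → ∃ C n₀ : ℕ, ∀ n ≥ n₀, ∀ m : ℕ,
  Real.log n ^ C ≤ m → 2 * m + 1 < n → (SolE Φ (Real.log n ^ C) m n).Nonempty ∧
  (12 * m ≤ n → (n : ℝ) / Real.log n ^ 8 ≤ ((SolE Φ (Real.log n ^ C) m n).card : ℝ))

end Pool.Agent.E2P
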