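import Mathlib
import Pool.Agent.E2P.St
import Pool.Agent.SI.T4
import Pool.Agent.SI.Var

set_option autoImplicit false

/-!
# E2P / EC

Almost all cells are good.
-/

namespace Pool.Agent.E2P

open Finset Filter
open Pool.Agent.SI (St_Gap GapSet t4_range t4_div)

/-- large `n` -/
lemma ec_ev (K : ℝ) (X₁ : ℕ) : ∀ᶠ n : ℕ in atTop,
    4096 ≤ n ∧ K ≤ Real.log n ∧ X₁ ≤ n / 32 ∧ Real.log n / 2 ≤ Real.log ((n / 32 : ℕ) : ℝ) ∧
    20 * (n : ℝ) ^ (1 / 3 : ℝ) ≤ n ∧ 4 * (n : ℝ) ^ (1 / 4 + 1 / 24 : ℝ) ≤ (n : ℝ) ^ (1 / 3 : ℝ) := by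
  have hT : Tendsto (fun X : ℕ => (X : ℝ)) atTop atTop := tendsto_natCast_atTop_atTop
  have hpow : ∀ (c r : ℝ), 0 < r → ∀ᶠ X : ℕ in atTop, c < (X : ℝ) ^ r := by
    intro c r hr
    exact ((tendsto_rpow_atTop hr).comp hT).eventually_gt_atTop c
  filter_upwards [eventually_ge_atTop (max 4096 (32 * X₁)),
    (Real.tendsto_log_atTop.comp hT).eventually_ge_atTop K, hpow 20 (2 / 3) (by norm_num),
    hpow 4 (1 / 24) (by norm_num)] with n hn hK h20 h4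
  have hn1 : 4096 ≤ n := (le_max_left _ _).trans hn
  have hn2 : 32 * X₁ ≤ n := (le_max_right _ _).trans hn
  have hnR : (4096 : ℝ) ≤ n := by exact_mod_cast hn1
  have hn0 : (0 : ℝ) < n := by linarith
  refine ⟨hn1, hK, by omega, ?_, ?_, ?_⟩
  · have h1 : n ≤ (n / 32) * (n / 32) := by
      have h2 : 128 ≤ n / 32 := by omega
      have h3 : n ≤ 32 * (n / 32) + 31 := by omega
      nlinarith
    have h2 : (n : ℝ) ≤ ((n / 32 : ℕ) : ℝ) * ((n / 32 : ℕ) : ℝ) := by exact_mod_cast h1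
    have h3 : (0 : ℝ) < ((n / 32 : ℕ) : ℝ) := by
      have : 0 < n / 32 := by omega
      exact_mod_cast this
    have h5 := Real.log_le_log hn0 h2
    rw [Real.log_mul h3.ne' h3.ne'] at h5
    linarith
  · have h1 : (n : ℝ) = (n : ℝ) ^ (2 / 3 : ℝ) * (n : ℝ) ^ (1 / 3 : ℝ) := by
      rw [← Real.rpow_add hn0]
      norm_num
    calc 20 * (n : ℝ) ^ (1 / 3 : ℝ) ≤ (n : ℝ) ^ (2 / 3 : ℝ) * (n : ℝ) ^ (1 / 3 : ℝ) :=
          mul_le_mul_of_nonneg_right h20.le (by positivity)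
      _ = n := h1.symm
  · have h1 : (n : ℝ) ^ (1 / 3 : ℝ) = (n : ℝ) ^ (1 / 24 : ℝ) * (n : ℝ) ^ (1 / 4 + 1 / 24 : ℝ) := by
      rw [← Real.rpow_add hn0]
      norm_num
    rw [h1]
    exact mul_le_mul_of_nonneg_right h4.le (by positivity)

/-- counting by cells -/
lemma ec_count {n m : ℕ} {κ : ℝ} (F Bd : Finset ℕ) (hB : ∀ j ∈ Bd, m * (j + 1) ≤ n)
    (h : ∀ j ∈ Bd, κ ≤ (((Ioc (n - m * (j + 1)) (n - m * j)).filter
      (fun x => x ∈ F)).card : ℝ)) : (Bd.card : ℝ) * κ ≤ F.card := by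
  have g1 : (F.filter (fun x => (n - x) / m ∈ Bd)).card =
      ∑ q ∈ Bd, ((F.filter (fun x => (n - x) / m ∈ Bd)).filter
        (fun x => (n - x) / m = q)).card :=
    card_eq_sum_card_fiberwise (fun x hx => (mem_filter.1 hx).2)
  have g2 : ∀ q ∈ Bd, κ ≤ (((F.filter (fun x => (n - x) / m ∈ Bd)).filter
        (fun x => (n - x) / m = q)).card : ℝ) := by
    intro q hq
    refine (h q hq).trans ?_
    have g3 : (Ioc (n - m * (q + 1)) (n - m * q)).filter (fun x => x ∈ F) ⊆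
        (F.filter (fun x => (n - x) / m ∈ Bd)).filter (fun x => (n - x) / m = q) := by
      intro x hx
      rw [mem_filter, mem_Ioc] at hx
      obtain ⟨⟨hx1, hx2⟩, hx3⟩ := hx
      have e6 : (n - x) / m = q := t4_div (hB q hq) hx1 hx2
      rw [mem_filter, mem_filter, e6]
      exact ⟨⟨hx3, hq⟩, rfl⟩
    exact_mod_cast card_le_card g3
  calc (Bd.card : ℝ) * κ = ∑ _q ∈ Bd, κ := by rw [sum_const, nsmul_eq_mul]
    _ ≤ ∑ q ∈ Bd, (((F.filter (fun x => (n - x) / m ∈ Bd)).filter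
        (fun x => (n - x) / m = q)).card : ℝ) := sum_le_sum g2
    _ = ((F.filter (fun x => (n - x) / m ∈ Bd)).card : ℝ) := by
      rw [g1]
      push_cast
      rfl
    _ ≤ F.card := by exact_mod_cast card_le_card (filter_subset _ _)

/-- the last step -/
lemma ec_fin {n m L N : ℝ} (A : ℕ) (hn : 0 ≤ n) (hm : 0 < m) (hL : 1 ≤ L)
    (hK : 48 * 2 ^ (A + 2) ≤ L) (h : N * (m / 8) ≤ 6 * (n / (L / 2) ^ (A + 2))) :
    N ≤ n / m / L ^ A := by
  have hLp : 0 < L := by linarith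
  have e1 : 6 * (n / (L / 2) ^ (A + 2)) = 6 * 2 ^ (A + 2) * n / L ^ (A + 2) := by
    rw [div_pow]
    field_simp
  rw [e1, le_div_iff₀ (by positivity)] at h
  rw [div_div, le_div_iff₀ (by positivity)]
  have e2 : N * (m / 8) * L ^ (A + 2) = N * (m * L ^ A) * (L ^ 2 / 8) := by ring
  rw [e2] at h
  have e3 : 6 * 2 ^ (A + 2) * n ≤ n * (L ^ 2 / 8) := by
    have e4 : 48 * 2 ^ (A + 2) ≤ L ^ 2 := by nlinarith
    nlinarith
  exact le_of_mul_le_mul_right (h.trans e3) (by positivity)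

/-- the sum of the sizes -/
lemma ec_sum {n A : ℕ} {L : ℝ} (hL : 0 < L) (I : Finset ℕ) (hI : I.card ≤ 6) (X : ℕ → ℕ)
    (G : ℕ → Finset ℕ) (h1 : ∀ k ∈ I, X k ≤ n) (h2 : ∀ k ∈ I, L / 2 ≤ Real.log (X k))
    (h3 : ∀ k ∈ I, ((G k).card : ℝ) ≤ X k / Real.log (X k) ^ (A + 2)) :
    ((I.biUnion G).card : ℝ) ≤ 6 * ((n : ℝ) / (L / 2) ^ (A + 2)) := by
  have e1 : ((I.biUnion G).card : ℝ) ≤ ∑ k ∈ I, ((G k).card : ℝ) := by
    exact_mod_cast card_biUnion_le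
  have e2 : ∑ k ∈ I, ((G k).card : ℝ) ≤ ∑ _k ∈ I, (n : ℝ) / (L / 2) ^ (A + 2) := by
    apply sum_le_sum
    intro k hk
    refine (h3 k hk).trans ?_
    have e3 : (L / 2) ^ (A + 2) ≤ Real.log (X k) ^ (A + 2) :=
      pow_le_pow_left₀ (by linarith) (h2 k hk) _
    have e4 : ((X k : ℕ) : ℝ) ≤ n := by exact_mod_cast h1 k hk
    exact div_le_div₀ (Nat.cast_nonneg _) e4 (by positivity) e3
  rw [sum_const, nsmul_eq_mul] at e2
  refine e1.trans (e2.trans ?_)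
  apply mul_le_mul_of_nonneg_right _ (by positivity)
  exact_mod_cast hI

/-- small `m` -/
lemma ec_small {A C₁ X₀ n m : ℕ} {L : ℝ} (hL : L = Real.log n)
    (hEG : ∀ X ≥ X₀, ∀ h : ℝ, Real.log X ^ C₁ ≤ h →
      h ≤ (X : ℝ) ^ (1 / 3 : ℝ) → ∀ F : Finset ℕ, (∀ x ∈ F, X ≤ x ∧ 2 * x ≤ 3 * X ∧
      ((W2 (Real.log X ^ C₁) x h).card : ℝ) < h / Real.log X ^ 3) →
      (F.card : ℝ) ≤ X / Real.log X ^ (A + 2))
    (hn1 : 4096 ≤ n) (hX₀ : X₀ ≤ n / 32) (hL4 : 4 ≤ L)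
    (hlog : L / 2 ≤ Real.log ((n / 32 : ℕ) : ℝ)) (h20 : 20 * (n : ℝ) ^ (1 / 3 : ℝ) ≤ n)
    (hm : L ^ (C₁ + 1) ≤ m) (hmn : 4 * m ≤ n) (hm3 : (m : ℝ) ≤ (n : ℝ) ^ (1 / 3 : ℝ))
    (Bd : Finset ℕ) (hBd : ∀ j ∈ Bd, 1 ≤ j ∧ 4 * (m * j) ≤ 3 * n ∧
      ((Cel (L ^ (C₁ + 1)) n m j).card : ℝ) < m / L ^ 4) :
    (Bd.card : ℝ) * (m / 8) ≤ 6 * ((n : ℝ) / (L / 2) ^ (A + 2)) := by
  classical
  have hLp : 0 < L := by linarith
  have hnR : (4096 : ℝ) ≤ n := by exact_mod_cast hn1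
  have hm20 : 20 * m ≤ n := by
    have : 20 * (m : ℝ) ≤ n := by linarith
    exact_mod_cast this
  set I : Finset ℕ := {4, 5, 7, 10, 14} with hI
  have hI5 : I.card ≤ 6 := by decide
  have hIk : ∀ k ∈ I, 4 ≤ k ∧ k ≤ 14 := by decide
  set X : ℕ → ℕ := fun k => k * n / 20 with hX
  have hXk : ∀ k ∈ I, n / 32 ≤ X k ∧ X k ≤ n := by
    intro k hk
    obtain ⟨h1, h2⟩ := hIk k hk
    have e1 : 4 * n ≤ k * n := Nat.mul_le_mul_right n h1
    have e2 : k * n ≤ 14 * n := Nat.mul_le_mul_right n h2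
    simp only [hX]
    constructor <;> omega
  have hX5 : ∀ k ∈ I, n / 5 ≤ X k := by
    intro k hk
    obtain ⟨h1, h2⟩ := hIk k hk
    have e1 : 4 * n ≤ k * n := Nat.mul_le_mul_right n h1
    simp only [hX]
    omega
  have h32 : (0 : ℝ) < ((n / 32 : ℕ) : ℝ) := by
    have : 0 < n / 32 := by omega
    exact_mod_cast this
  have hlk : ∀ k ∈ I, L / 2 ≤ Real.log (X k) ∧ Real.log (X k) ≤ L := by
    intro k hk
    obtain ⟨h1, h2⟩ := hXk k hk
    have e1 : ((n / 32 : ℕ) : ℝ) ≤ X k := by exact_mod_cast h1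
    have e2 : (X k : ℝ) ≤ n := by exact_mod_cast h2
    refine ⟨hlog.trans (Real.log_le_log h32 e1), ?_⟩
    rw [hL]
    exact Real.log_le_log (by linarith) e2
  set F : ℕ → Finset ℕ := fun k => (Icc (X k) n).filter (fun x => 2 * x ≤ 3 * X k ∧
    ((W2 (Real.log (X k) ^ C₁) x ((m : ℝ) / 4)).card : ℝ) <
      ((m : ℝ) / 4) / Real.log (X k) ^ 3) with hF
  have hpow1 : L ^ C₁ ≤ (m : ℝ) / 4 := by
    rw [le_div_iff₀ (by norm_num)]
    calc L ^ C₁ * 4 ≤ L ^ C₁ * L := mul_le_mul_of_nonneg_left hL4 (by positivity)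
      _ = L ^ (C₁ + 1) := (pow_succ L C₁).symm
      _ ≤ m := hm
  have hsum := ec_sum (n := n) (A := A) hLp I hI5 X F (fun k hk => (hXk k hk).2)
    (fun k hk => (hlk k hk).1) (by
      intro k hk
      obtain ⟨g1, g2⟩ := hXk k hk
      obtain ⟨g3, g4⟩ := hlk k hk
      apply hEG (X k) (hX₀.trans g1) ((m : ℝ) / 4)
      · exact (pow_le_pow_left₀ (by linarith) g4 C₁).trans hpow1
      · have e1 : n ≤ 64 * X k := by
          have := hX5 k hk
          omega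
        have e2 : (n : ℝ) ≤ 64 * X k := by exact_mod_cast e1
        have e3 : (n : ℝ) ^ (1 / 3 : ℝ) ≤ 4 * (X k : ℝ) ^ (1 / 3 : ℝ) := by
          calc (n : ℝ) ^ (1 / 3 : ℝ) ≤ (64 * (X k : ℝ)) ^ (1 / 3 : ℝ) :=
                Real.rpow_le_rpow (by linarith) e2 (by norm_num)
            _ = (64 : ℝ) ^ (1 / 3 : ℝ) * (X k : ℝ) ^ (1 / 3 : ℝ) :=
                Real.mul_rpow (by norm_num) (Nat.cast_nonneg _)
            _ = 4 * (X k : ℝ) ^ (1 / 3 : ℝ) := by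
                congr 1
                rw [show (64 : ℝ) = 4 ^ (3 : ℝ) by norm_num, ← Real.rpow_mul (by norm_num)]
                norm_num
        linarith
      · intro x hx
        simp only [hF, mem_filter, mem_Icc] at hx
        exact ⟨hx.1.1, hx.2.1, hx.2.2⟩)
  refine (ec_count (n := n) (m := m) (I.biUnion F) Bd ?_ ?_).trans hsum
  · intro j hj
    obtain ⟨h1, h2, _⟩ := hBd j hj
    have e1 : m * (j + 1) = m * j + m := by ring
    omega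
  intro j hj
  obtain ⟨h1, h2, h3⟩ := hBd j hj
  have e1 : m * (j + 1) = m * j + m := by ring
  have hsub : Ioc (n - m * (j + 1)) (n - m * j - m / 4) ⊆
      (Ioc (n - m * (j + 1)) (n - m * j)).filter (fun x => x ∈ I.biUnion F) := by
    intro x hx
    rw [mem_Ioc] at hx
    obtain ⟨hx1, hx2⟩ := hx
    rw [mem_filter, mem_Ioc, mem_biUnion]
    refine ⟨⟨hx1, by omega⟩, ?_⟩
    have hxk : ∃ k ∈ I, k * n / 20 ≤ x ∧ 2 * x ≤ 3 * (k * n / 20) := by
      have g1 : 4 * n / 20 ≤ x := by omega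
      rcases Nat.lt_or_ge x (5 * n / 20) with g2 | g2
      · exact ⟨4, by decide, g1, by omega⟩
      rcases Nat.lt_or_ge x (7 * n / 20) with g3 | g3
      · exact ⟨5, by decide, g2, by omega⟩
      rcases Nat.lt_or_ge x (10 * n / 20) with g4 | g4
      · exact ⟨7, by decide, g3, by omega⟩
      rcases Nat.lt_or_ge x (14 * n / 20) with g5 | g5
      · exact ⟨10, by decide, g4, by omega⟩
      · exact ⟨14, by decide, g5, by omega⟩
    obtain ⟨k, hk, g1, g2⟩ := hxk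
    obtain ⟨g3, g4⟩ := hlk k hk
    refine ⟨k, hk, ?_⟩
    simp only [hF, mem_filter, mem_Icc]
    refine ⟨⟨g1, by omega⟩, g2, ?_⟩
    have hfl : ⌊(m : ℝ) / 4⌋₊ = m / 4 := by
      have := Nat.floor_div_natCast (m : ℝ) 4
      simpa using this
    have hW : W2 (Real.log (X k) ^ C₁) x ((m : ℝ) / 4) ⊆ Cel (L ^ (C₁ + 1)) n m j := by
      intro a ha
      unfold W2 at ha
      rw [mem_filter, mem_Ioc, hfl] at ha
      obtain ⟨⟨ha1, ha2⟩, p₁, p₂, hp1, hp2, hp3, hp4⟩ := ha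
      unfold Cel
      rw [mem_filter, mem_Ioc]
      refine ⟨⟨by omega, by omega⟩, Or.inr ⟨p₁, p₂, hp1, hp2, hp3.trans ?_, hp4⟩⟩
      calc Real.log (X k) ^ C₁ ≤ L ^ C₁ := pow_le_pow_left₀ (by linarith) g4 C₁
        _ ≤ L ^ (C₁ + 1) := pow_le_pow_right₀ (by linarith) (Nat.le_succ _)
    have hW2 : ((W2 (Real.log (X k) ^ C₁) x ((m : ℝ) / 4)).card : ℝ) ≤
        ((Cel (L ^ (C₁ + 1)) n m j).card : ℝ) := by exact_mod_cast card_le_card hW
    refine (hW2.trans_lt h3).trans_le ?_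
    have g0 : 0 < Real.log (X k) := by linarith
    rw [div_div, div_le_div_iff₀ (by positivity) (by positivity)]
    have g5 : Real.log (X k) ^ 3 ≤ L ^ 3 := pow_le_pow_left₀ (by linarith) g4 3
    have g6 : 4 * Real.log (X k) ^ 3 ≤ L ^ 4 := by
      calc 4 * Real.log (X k) ^ 3 ≤ L * L ^ 3 :=
            mul_le_mul hL4 g5 (by positivity) hLp.le
        _ = L ^ 4 := by ring
    exact mul_le_mul_of_nonneg_left g6 (Nat.cast_nonneg _)
  have hc := card_le_card hsub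
  rw [Nat.card_Ioc] at hc
  have hc2 : m ≤ 8 * (n - m * j - m / 4 - (n - m * (j + 1))) := by omega
  have hc3 : m ≤ 8 * ((Ioc (n - m * (j + 1)) (n - m * j)).filter
      (fun x => x ∈ I.biUnion F)).card := hc2.trans (Nat.mul_le_mul_left 8 hc)
  have hc4 : (m : ℝ) ≤ 8 * (((Ioc (n - m * (j + 1)) (n - m * j)).filter
      (fun x => x ∈ I.biUnion F)).card : ℝ) := by exact_mod_cast hc3
  linarith

/-- large `m` -/
lemma ec_large {A C X₁ n m : ℕ} {L c : ℝ} (hL : L = Real.log n) (hc : 0 < c)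
    (hgap : ∀ X : ℕ, X₁ ≤ X → ∀ F : Finset ℕ, (∀ x ∈ F, X ≤ x ∧ x ≤ 2 * X ∧
      (((Icc X (3 * X)).filter (fun p : ℕ => p.Prime ∧ x < p ∧
      (p : ℝ) ≤ x + (X : ℝ) ^ (1 / 4 + 1 / 24 : ℝ))).card : ℝ) ≤
        c * (X : ℝ) ^ (1 / 4 + 1 / 24 : ℝ) / Real.log X) →
      (F.card : ℝ) ≤ X / Real.log X ^ (A + 2))
    (hn1 : 4096 ≤ n) (hX₁ : X₁ ≤ n / 32) (hL1 : 1 ≤ L) (hLc : 100 / c ≤ L)
    (hlog : L / 2 ≤ Real.log ((n / 32 : ℕ) : ℝ))
    (h4 : 4 * (n : ℝ) ^ (1 / 4 + 1 / 24 : ℝ) ≤ (n : ℝ) ^ (1 / 3 : ℝ))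
    (hmn : 4 * m ≤ n) (hm3 : (n : ℝ) ^ (1 / 3 : ℝ) < m)
    (Bd : Finset ℕ) (hBd : ∀ j ∈ Bd, 1 ≤ j ∧ 4 * (m * j) ≤ 3 * n ∧
      ((Cel (L ^ C) n m j).card : ℝ) < m / L ^ 4) :
    (Bd.card : ℝ) * (m / 8) ≤ 6 * ((n : ℝ) / (L / 2) ^ (A + 2)) := by
  classical
  have hLp : 0 < L := by linarith
  have hnR : (4096 : ℝ) ≤ n := by exact_mod_cast hn1
  set Y : ℕ → ℕ := fun k => 2 ^ k * (n / 32) with hY
  have h32 : (0 : ℝ) < ((n / 32 : ℕ) : ℝ) := by
    have : 0 < n / 32 := by omega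
    exact_mod_cast this
  have hYk : ∀ k ∈ range 6, n / 32 ≤ Y k ∧ Y k ≤ n := by
    intro k hk
    rw [mem_range] at hk
    have e1 : 1 ≤ 2 ^ k := Nat.one_le_two_pow
    have e2 : 2 ^ k ≤ 2 ^ 5 := Nat.pow_le_pow_right (by norm_num) (by omega)
    have e3 : 1 * (n / 32) ≤ 2 ^ k * (n / 32) := Nat.mul_le_mul_right _ e1
    have e4 : 2 ^ k * (n / 32) ≤ 2 ^ 5 * (n / 32) := Nat.mul_le_mul_right _ e2
    simp only [hY]
    constructor <;> omega
  have hlk : ∀ k ∈ range 6, L / 2 ≤ Real.log (Y k) ∧ Real.log (Y k) ≤ L := by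
    intro k hk
    obtain ⟨h1, h2⟩ := hYk k hk
    have e1 : ((n / 32 : ℕ) : ℝ) ≤ Y k := by exact_mod_cast h1
    have e2 : (Y k : ℝ) ≤ n := by exact_mod_cast h2
    refine ⟨hlog.trans (Real.log_le_log h32 e1), ?_⟩
    rw [hL]
    exact Real.log_le_log (by linarith) e2
  set F : ℕ → Finset ℕ := fun k => GapSet (1 / 24) c (Y k) with hF
  have hsum := ec_sum (n := n) (A := A) hLp (range 6) (by simp) Y F (fun k hk => (hYk k hk).2)
    (fun k hk => (hlk k hk).1) (by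
      intro k hk
      apply hgap (Y k) (hX₁.trans (hYk k hk).1)
      intro x hx
      simp only [hF] at hx
      unfold GapSet at hx
      rw [mem_filter, mem_Icc] at hx
      exact ⟨hx.1.1, hx.1.2, hx.2⟩)
  refine (ec_count (n := n) (m := m) ((range 6).biUnion F) Bd ?_ ?_).trans hsum
  · intro j hj
    obtain ⟨h1, h2, _⟩ := hBd j hj
    have e1 : m * (j + 1) = m * j + m := by ring
    omega
  have hwin : ∀ k ∈ range 6, (Y k : ℝ) ^ (1 / 4 + 1 / 24 : ℝ) < (m / 4 : ℕ) + 1 := by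
    intro k hk
    have e0 : (Y k : ℝ) ≤ n := by exact_mod_cast (hYk k hk).2
    have e1 : (Y k : ℝ) ^ (1 / 4 + 1 / 24 : ℝ) ≤ (n : ℝ) ^ (1 / 4 + 1 / 24 : ℝ) :=
      Real.rpow_le_rpow (Nat.cast_nonneg _) e0 (by norm_num)
    have e2 : (m : ℝ) / 4 < (m / 4 : ℕ) + 1 := by
      have e3 : m < 4 * (m / 4 + 1) := by omega
      have e4 : (m : ℝ) < 4 * ((m / 4 : ℕ) + 1) := by exact_mod_cast e3
      linarith
    linarith
  intro j hj
  obtain ⟨h1, h2, h3⟩ := hBd j hj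
  have e1 : m * (j + 1) = m * j + m := by ring
  set J : Finset ℕ := Ioc (max (n - m * (j + 1)) (n / 32)) (n - m * j - m / 4) with hJ
  have hJm : ∀ x ∈ J, n - m * (j + 1) < x ∧ n / 32 < x ∧ x ≤ n - m * j - m / 4 := by
    intro x hx
    rw [hJ, mem_Ioc, max_lt_iff] at hx
    exact ⟨hx.1.1, hx.1.2, hx.2⟩
  have hmem : ∀ k ∈ range 6, ∀ x ∈ J, ∀ p : ℕ, p.Prime → x < p →
      (p : ℝ) ≤ x + (Y k : ℝ) ^ (1 / 4 + 1 / 24 : ℝ) → p ∈ Cel (L ^ C) n m j := by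
    intro k hk x hx p hp hxp hpx
    obtain ⟨g1, g2, g3⟩ := hJm x hx
    have e4 : (p : ℝ) < x + (m / 4 : ℕ) + 1 := by linarith [hwin k hk]
    have e5 : p < x + m / 4 + 1 := by exact_mod_cast e4
    unfold Cel
    rw [mem_filter, mem_Ioc]
    exact ⟨⟨by omega, by omega⟩, Or.inl hp⟩
  have hP : ((Cel (L ^ C) n m j).card : ℝ) ≤ c / 100 * m / L := by
    refine h3.le.trans ?_
    rw [div_le_div_iff₀ (by positivity) hLp]
    have g1 : 100 ≤ L * c := by rwa [div_le_iff₀ hc] at hLc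
    have g2 : 100 ≤ c * L ^ 3 := by
      have g3 : L ≤ L ^ 3 := le_self_pow₀ hL1 (by norm_num)
      nlinarith
    have g4 : c / 100 * m * L ^ 4 = (c * L ^ 3 / 100) * (m * L) := by ring
    rw [g4]
    have g5 : 1 ≤ c * L ^ 3 / 100 := by rw [le_div_iff₀ (by norm_num)]; linarith
    exact le_mul_of_one_le_left (by positivity) g5
  have hr : ∀ k ∈ range 6, ((((J.filter (fun x => Y k ≤ x ∧ x ≤ 2 * Y k)).filter
      (fun x => x ∉ F k)).card : ℝ)) ≤ m / 100 := by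
    intro k hk
    obtain ⟨g1, g2⟩ := hYk k hk
    have r1 := t4_range (m := m) (ε := 1 / 24) (Y := Y k) hc (by omega : 2 ≤ Y k) (L := L)
      (c₁ := c / 100) (hlk k hk).2 (J.filter (fun x => Y k ≤ x ∧ x ≤ 2 * Y k))
      (Cel (L ^ C) n m j) (by
        intro x hx
        rw [mem_filter] at hx
        exact hx.2) (by
        intro x hx p hp hxp hpx
        exact hmem k hk x (mem_filter.1 hx).1 p hp hxp hpx) hP (by positivity)
    have e8 : c / 100 * m / c = m / 100 := by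
      field_simp
    rw [e8] at r1
    exact r1
  have hcover : J ⊆ ((Ioc (n - m * (j + 1)) (n - m * j)).filter
      (fun x => x ∈ (range 6).biUnion F)) ∪ (range 6).biUnion (fun k =>
        (J.filter (fun x => Y k ≤ x ∧ x ≤ 2 * Y k)).filter (fun x => x ∉ F k)) := by
    intro x hx
    obtain ⟨g1, g2, g3⟩ := hJm x hx
    rw [mem_union]
    by_cases hxF : x ∈ (range 6).biUnion F
    · left
      rw [mem_filter, mem_Ioc]
      exact ⟨⟨g1, by omega⟩, hxF⟩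
    · right
      rw [mem_biUnion]
      have hxk : ∃ k ∈ range 6, Y k ≤ x ∧ x ≤ 2 * Y k := by
        simp only [hY]
        rcases Nat.lt_or_ge x (2 ^ 1 * (n / 32)) with b1 | b1
        · exact ⟨0, by decide, by omega, by omega⟩
        rcases Nat.lt_or_ge x (2 ^ 2 * (n / 32)) with b2 | b2
        · exact ⟨1, by decide, b1, by omega⟩
        rcases Nat.lt_or_ge x (2 ^ 3 * (n / 32)) with b3 | b3
        · exact ⟨2, by decide, b2, by omega⟩
        rcases Nat.lt_or_ge x (2 ^ 4 * (n / 32)) with b4 | b4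
        · exact ⟨3, by decide, b3, by omega⟩
        rcases Nat.lt_or_ge x (2 ^ 5 * (n / 32)) with b5 | b5
        · exact ⟨4, by decide, b4, by omega⟩
        · exact ⟨5, by decide, b5, by omega⟩
      obtain ⟨k, hk, g4, g5⟩ := hxk
      refine ⟨k, hk, ?_⟩
      rw [mem_filter, mem_filter]
      refine ⟨⟨hx, g4, g5⟩, fun hcon => hxF ?_⟩
      rw [mem_biUnion]
      exact ⟨k, hk, hcon⟩
  have h6 := (card_le_card hcover).trans (card_union_le _ _)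
  have h7 := h6.trans (Nat.add_le_add_left card_biUnion_le _)
  have h8 : m ≤ 2 * J.card := by
    rw [hJ, Nat.card_Ioc]
    rcases le_total (n - m * (j + 1)) (n / 32) with g | g
    · rw [max_eq_right g]
      omega
    · rw [max_eq_left g]
      omega
  have h9 : (m : ℝ) ≤ 2 * (J.card : ℝ) := by exact_mod_cast h8
  have h10 : (J.card : ℝ) ≤ (((Ioc (n - m * (j + 1)) (n - m * j)).filter
      (fun x => x ∈ (range 6).biUnion F)).card : ℝ) + ∑ k ∈ range 6,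
        ((((J.filter (fun x => Y k ≤ x ∧ x ≤ 2 * Y k)).filter
      (fun x => x ∉ F k)).card : ℝ)) := by exact_mod_cast h7
  have h11 := sum_le_sum hr
  rw [sum_const, card_range, nsmul_eq_mul] at h11
  push_cast at h11
  have hm0 : (0 : ℝ) ≤ m := Nat.cast_nonneg _
  linarith

theorem thm_EC (h1 : St_EG) (h2 : SI.St_Gap) : St_EC := by
  classical
  intro A
  obtain ⟨C₁, X₀, hEG⟩ := h1 (A + 2)
  obtain ⟨c, hc, hgap⟩ := h2
  obtain ⟨X₁, hX₁⟩ := hgap (1 / 24) (A + 2) (by norm_num) (by norm_num)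
  obtain ⟨n₀, hn₀⟩ := eventually_atTop.1
    (ec_ev (4 + 48 * 2 ^ (A + 2) + 100 / c) (max X₀ X₁))
  refine ⟨C₁ + 1, n₀, ?_⟩
  intro n hn m hm hmn
  obtain ⟨hn1, hK, hX, hlog, h20, h4⟩ := hn₀ n hn
  have hX0 : X₀ ≤ n / 32 := (le_max_left _ _).trans hX
  have hX1 : X₁ ≤ n / 32 := (le_max_right _ _).trans hX
  have p1 : (0 : ℝ) < 48 * 2 ^ (A + 2) := by positivity
  have p2 : 0 < 100 / c := by positivity
  have hL4 : 4 ≤ Real.log n := by linarith
  have hLA : 48 * 2 ^ (A + 2) ≤ Real.log n := by linarith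
  have hLc : 100 / c ≤ Real.log n := by linarith
  have hm1R : (1 : ℝ) ≤ m := (one_le_pow₀ (by linarith : (1 : ℝ) ≤ Real.log n)).trans hm
  have hm1 : 1 ≤ m := by exact_mod_cast hm1R
  set Bd : Finset ℕ := (Icc 1 (3 * n / (4 * m))).filter
    (fun j => ((Cel (Real.log n ^ (C₁ + 1)) n m j).card : ℝ) < m / Real.log n ^ 4) with hBd
  have hB : ∀ j ∈ Bd, 1 ≤ j ∧ 4 * (m * j) ≤ 3 * n ∧
      ((Cel (Real.log n ^ (C₁ + 1)) n m j).card : ℝ) < m / Real.log n ^ 4 := by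
    intro j hj
    rw [hBd, mem_filter, mem_Icc] at hj
    obtain ⟨⟨g1, g2⟩, g3⟩ := hj
    refine ⟨g1, ?_, g3⟩
    rw [Nat.le_div_iff_mul_le (by omega)] at g2
    calc 4 * (m * j) = j * (4 * m) := by ring
      _ ≤ 3 * n := g2
  apply ec_fin A (Nat.cast_nonneg _) (by linarith) (by linarith) hLA
  rcases le_or_gt (m : ℝ) ((n : ℝ) ^ (1 / 3 : ℝ)) with h3 | h3
  · exact ec_small rfl hEG hn1 hX0 hL4 hlog h20 hm hmn h3 Bd hB
  · exact ec_large rfl hc hX₁ hn1 hX1 (by linarith) hLc hlog h4 hmn h3 Bd hB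

end Pool.Agent.E2P
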