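import Mathlib
import Pool.Agent.E2P.St
import Pool.Agent.SI.Gap
import Pool.Agent.SI.Var

set_option autoImplicit false

/-!
# E2P / EG: almost all short intervals contain many products of two primes
-/

namespace Pool.Agent.E2P

open Finset Filter MeasureTheory
open Pool.Agent.SI (IsW Wd)

/-- lower bound for the integral -/
lemma eg_int (f : ℝ → ℝ) (hf : Continuous f) (hf0 : ∀ y, 0 ≤ f y) (X K : ℕ) (hX : 1 ≤ X)
    (hXK : X ≤ K) (hK : K ≤ 2 * X) (Y : ℝ) (hY : Real.log K ≤ Y)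
    (F : Finset ℕ) (hF : ∀ x ∈ F, X ≤ x ∧ x + 1 ≤ K) (V : ℝ) (hV : 0 ≤ V)
    (hlow : ∀ x ∈ F, ∀ y, Real.log x ≤ y → y ≤ Real.log (x + 1) → V ≤ f y) :
    (F.card : ℝ) * (V / (2 * X)) ≤ ∫ y in (Real.log X)..Y, f y := by
  have hX0 : (0 : ℝ) < X := by exact_mod_cast hX
  have hadd : ∫ y in (Real.log (X : ℕ))..Y, f y =
      (∫ y in (Real.log (X : ℕ))..(Real.log (K : ℕ)), f y) + ∫ y in (Real.log (K : ℕ))..Y, f y :=
    (intervalIntegral.integral_add_adjacent_intervals (hf.intervalIntegrable _ _)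
      (hf.intervalIntegrable _ _)).symm
  have hrest : 0 ≤ ∫ y in (Real.log (K : ℕ))..Y, f y :=
    intervalIntegral.integral_nonneg hY fun y _ => hf0 y
  have h1 : ∑ k ∈ Ico X K, ∫ y in (Real.log (k : ℕ))..(Real.log ((k + 1 : ℕ) : ℝ)), f y =
      ∫ y in (Real.log (X : ℕ))..(Real.log (K : ℕ)), f y := by
    apply intervalIntegral.sum_integral_adjacent_intervals_Ico
      (a := fun k : ℕ => Real.log (k : ℝ)) hXK
    intro k _
    exact hf.intervalIntegrable _ _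
  have h3 : F ⊆ Ico X K := by
    intro x hx
    have := hF x hx
    rw [mem_Ico]
    omega
  have hmono : ∀ k : ℕ, 1 ≤ k → Real.log k ≤ Real.log ((k + 1 : ℕ) : ℝ) := by
    intro k hk
    apply Real.log_le_log (by exact_mod_cast hk)
    push_cast
    linarith
  have h4 : ∀ k ∈ F, V / (2 * X) ≤
      ∫ y in (Real.log (k : ℕ))..(Real.log ((k + 1 : ℕ) : ℝ)), f y := by
    intro k hk
    obtain ⟨hk1, hk2⟩ := hF k hk
    have hk0 : (0 : ℝ) < k := by
      have : (X : ℝ) ≤ k := by exact_mod_cast hk1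
      linarith
    have e1 : ∫ _y in (Real.log (k : ℕ))..(Real.log ((k + 1 : ℕ) : ℝ)), V ≤
        ∫ y in (Real.log (k : ℕ))..(Real.log ((k + 1 : ℕ) : ℝ)), f y := by
      apply intervalIntegral.integral_mono_on (hmono k (by omega))
        (continuous_const.intervalIntegrable _ _) (hf.intervalIntegrable _ _)
      intro y hy
      refine hlow k hk y hy.1 ?_
      have := hy.2
      push_cast at this
      exact this
    rw [intervalIntegral.integral_const, smul_eq_mul] at e1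
    refine le_trans ?_ e1
    have e2 : 1 / (2 * (X : ℝ)) ≤ Real.log ((k + 1 : ℕ) : ℝ) - Real.log k := by
      have e3 : 1 / ((k : ℝ) + 1) ≤ Real.log ((k : ℝ) + 1) - Real.log k := by
        have e4 := Real.one_sub_inv_le_log_of_pos (x := ((k : ℝ) + 1) / k) (by positivity)
        rw [Real.log_div (by positivity) hk0.ne', inv_div] at e4
        have e5 : 1 - (k : ℝ) / (k + 1) = 1 / (k + 1) := by
          field_simp
          ring
        rw [e5] at e4
        exact e4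
      have e6 : 1 / (2 * (X : ℝ)) ≤ 1 / ((k : ℝ) + 1) := by
        apply one_div_le_one_div_of_le (by positivity)
        exact_mod_cast hk2.trans hK
      push_cast
      linarith
    calc V / (2 * X) = 1 / (2 * X) * V := by ring
      _ ≤ (Real.log ((k + 1 : ℕ) : ℝ) - Real.log k) * V := mul_le_mul_of_nonneg_right e2 hV
  calc (F.card : ℝ) * (V / (2 * X)) = ∑ _k ∈ F, V / (2 * X) := by rw [sum_const, nsmul_eq_mul]
    _ ≤ ∑ k ∈ F, ∫ y in (Real.log (k : ℕ))..(Real.log ((k + 1 : ℕ) : ℝ)), f y := sum_le_sum h4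
    _ ≤ ∑ k ∈ Ico X K, ∫ y in (Real.log (k : ℕ))..(Real.log ((k + 1 : ℕ) : ℝ)), f y := by
        apply sum_le_sum_of_subset_of_nonneg h3
        intro k hk _
        rw [mem_Ico] at hk
        exact intervalIntegral.integral_nonneg (hmono k (by omega)) fun y _ => hf0 y
    _ ≤ ∫ y in (Real.log X)..Y, f y := by
        rw [h1, hadd]
        linarith

/-- few proper prime powers -/
lemma eg_pp (M : ℕ) : ((Icc 1 M).filter (fun b => IsPrimePow b ∧ ¬ b.Prime)).card ≤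
    Nat.sqrt M * Nat.log 2 M := by
  set s := (Icc 1 M).filter (fun b => IsPrimePow b ∧ ¬ b.Prime) with hs
  have hex : ∀ n ∈ s, ∃ p k : ℕ, p.Prime ∧ 2 ≤ k ∧ n = p ^ k := by
    intro n hn
    rw [hs, mem_filter] at hn
    obtain ⟨_, hpp, hnp⟩ := hn
    obtain ⟨p, k, hp, hk, rfl⟩ := (isPrimePow_nat_iff n).1 hpp
    refine ⟨p, k, hp, ?_, rfl⟩
    by_contra hcon
    have : k = 1 := by omega
    rw [this, pow_one] at hnp
    exact hnp hp
  choose! P K hPK using hex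
  have hM : ∀ n ∈ s, n ≤ M := by
    intro n hn
    rw [hs, mem_filter, mem_Icc] at hn
    exact hn.1.2
  have h1 : s.card ≤ ((Icc 1 (Nat.sqrt M)) ×ˢ (Icc 1 (Nat.log 2 M))).card := by
    apply card_le_card_of_injOn (fun n => (P n, K n))
    · intro n hn
      obtain ⟨a1, a2, a3⟩ := hPK n hn
      have a4 := hM n hn
      rw [mem_coe, mem_product, mem_Icc, mem_Icc]
      refine ⟨⟨a1.one_lt.le, ?_⟩, ?_, ?_⟩
      · show P n ≤ Nat.sqrt M
        rw [Nat.le_sqrt]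
        calc P n * P n = P n ^ 2 := (sq _).symm
          _ ≤ P n ^ K n := Nat.pow_le_pow_right a1.pos a2
          _ = n := a3.symm
          _ ≤ M := a4
      · show 1 ≤ K n
        omega
      · show K n ≤ Nat.log 2 M
        apply Nat.le_log_of_pow_le (by norm_num)
        calc 2 ^ K n ≤ P n ^ K n := Nat.pow_le_pow_left a1.two_le _
          _ = n := a3.symm
          _ ≤ M := a4
    · intro n hn m hm hnm
      obtain ⟨_, _, a3⟩ := hPK n hn
      obtain ⟨_, _, b3⟩ := hPK m hm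
      have e1 : P n = P m := congrArg Prod.fst hnm
      have e2 : K n = K m := congrArg Prod.snd hnm
      rw [a3, b3, e1, e2]
  rw [card_product, Nat.card_Icc, Nat.card_Icc] at h1
  simpa using h1

/-- the short average is small where there are few products -/
lemma eg_short {w : ℝ → ℝ} (hw : IsW w) {W : ℝ} (hW0 : 0 < W) (hW : ∀ x, w x ≤ W)
    {B₁ X x C : ℕ} {h : ℝ} (hP3 : 3 ≤ Pn B₁ X) (hNP : 5 * Pn B₁ X / 4 < Nn B₁ X)
    (hPC : ((5 * Pn B₁ X / 4 : ℕ) : ℝ) ≤ Real.log X ^ C) (hX : 3 ≤ X) (hh : 2 ≤ h)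
    (hhX : h ≤ X) (hx : X ≤ x) (hx2 : 2 * (x + 1) ≤ 3 * X)
    (hno : ∀ p ∈ Sn B₁ X, ∀ b ∈ Icc (Nn B₁ X) (3 * Nn B₁ X), IsPrimePow b → ¬ b.Prime →
      ¬ (x < p * b ∧ p * b ≤ x + ⌊h⌋₊))
    {y : ℝ} (hy1 : Real.log x ≤ y) (hy2 : y ≤ Real.log (x + 1)) :
    DD w B₁ X (h / (8 * X)) y ≤
      ((W2 (Real.log X ^ C) x h).card : ℝ) * (Real.log X * (W * (8 * X) / h)) := by
  have hXR : (3 : ℝ) ≤ X := by exact_mod_cast hX
  have hX0 : (0 : ℝ) < X := by linarith
  have hh0 : 0 < h := by linarith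
  set δ : ℝ := h / (8 * X) with hδ
  have hδp : 0 < δ := by positivity
  have hδX : (X : ℝ) * δ = h / 8 := by
    rw [hδ]
    field_simp
  have hδ1 : δ ≤ 1 := by
    rw [hδ, div_le_one (by positivity)]
    linarith
  have hx0 : (0 : ℝ) < x := by
    have : (X : ℝ) ≤ x := by exact_mod_cast hx
    linarith
  have hx1 : 2 * ((x : ℝ) + 1) ≤ 3 * X := by exact_mod_cast hx2
  have hlogX : 0 ≤ Real.log X := Real.log_nonneg (by linarith)
  have hN0 : 0 < Nn B₁ X := by omega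
  have h3N : 3 * Nn B₁ X ≤ X := by
    have e1 : Nn B₁ X * (5 * Pn B₁ X) ≤ 4 * X := Nat.div_mul_le_self _ _
    have e2 : Nn B₁ X * 15 ≤ Nn B₁ X * (5 * Pn B₁ X) := Nat.mul_le_mul_left _ (by omega)
    omega
  set T : Finset (ℕ × ℕ) := ((Sn B₁ X) ×ˢ (Icc (Nn B₁ X) (3 * Nn B₁ X))).filter
    (fun q => q.2.Prime ∧ x < q.1 * q.2 ∧ q.1 * q.2 ≤ x + ⌊h⌋₊) with hT
  have hSn : ∀ p ∈ Sn B₁ X, p.Prime ∧ p ≤ 5 * Pn B₁ X / 4 := by
    intro p hp
    rw [Sn, mem_filter, mem_Ioc] at hp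
    exact ⟨hp.2, hp.1.2⟩
  have e1 : DD w B₁ X δ y ≤ ∑ _q ∈ T, Real.log X * (W * (8 * X) / h) := by
    have e0 : DD w B₁ X δ y = ∑ q ∈ (Sn B₁ X) ×ˢ (Icc (Nn B₁ X) (3 * Nn B₁ X)),
        ArithmeticFunction.vonMangoldt q.2 * Wd w δ (Real.log q.1 + Real.log q.2 - y) := by
      unfold DD
      exact (sum_product' _ _ _).symm
    rw [e0, hT, sum_filter]
    apply sum_le_sum
    intro q hq
    obtain ⟨p, b⟩ := q
    rw [mem_product] at hq
    obtain ⟨hp, hb⟩ := hq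
    simp only at hp hb
    show ArithmeticFunction.vonMangoldt b * Wd w δ (Real.log p + Real.log b - y) ≤
      if b.Prime ∧ x < p * b ∧ p * b ≤ x + ⌊h⌋₊ then Real.log X * (W * (8 * X) / h) else 0
    have hpp := hSn p hp
    have hb' := mem_Icc.1 hb
    have hp0 : (0 : ℝ) < p := by exact_mod_cast hpp.1.pos
    have hb0 : (0 : ℝ) < b := by
      have : 0 < b := by omega
      exact_mod_cast this
    by_cases hne : ArithmeticFunction.vonMangoldt b * Wd w δ (Real.log p + Real.log b - y) = 0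
    · rw [hne]
      split_ifs
      · positivity
      · exact le_rfl
    · have hL : ArithmeticFunction.vonMangoldt b ≠ 0 := left_ne_zero_of_mul hne
      have hWn := right_ne_zero_of_mul hne
      have hbp : IsPrimePow b := by
        by_contra hcon
        exact hL (ArithmeticFunction.vonMangoldt_eq_zero_iff.2 hcon)
      obtain ⟨hu1, hu2⟩ := Pool.Agent.SI.gap_Wd_supp hw hδp hWn
      rw [← Real.log_mul hp0.ne' hb0.ne'] at hu1 hu2
      have hpb : (0 : ℝ) < (p : ℝ) * b := by positivity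
      have hxn : x < p * b := by
        have h1 : Real.log x < Real.log ((p : ℝ) * b) := by linarith
        have h2 := (Real.log_lt_log_iff hx0 hpb).1 h1
        exact_mod_cast h2
      have hnx : p * b ≤ x + ⌊h⌋₊ := by
        have h1 : Real.log ((p : ℝ) * b) < Real.log (x + 1) + δ := by linarith
        have h2 : (p : ℝ) * b < (x + 1) * Real.exp δ := by
          have h3 := Real.exp_lt_exp.2 h1
          rw [Real.exp_log hpb, Real.exp_add, Real.exp_log (by linarith)] at h3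
          exact h3
        have h3 : Real.exp δ ≤ 1 + 2 * δ := by
          have h4 := Real.exp_bound' hδp.le hδ1 (n := 2) (by norm_num)
          simp only [Finset.sum_range_succ, Finset.sum_range_zero] at h4
          norm_num at h4
          nlinarith
        have h4 : (x + 1 : ℝ) * Real.exp δ ≤ x + 1 + 3 * X * δ := by
          have h5 : (x + 1 : ℝ) * Real.exp δ ≤ (x + 1) * (1 + 2 * δ) :=
            mul_le_mul_of_nonneg_left h3 (by linarith)
          have h6 : 2 * ((x : ℝ) + 1) * δ ≤ 3 * X * δ :=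
            mul_le_mul_of_nonneg_right hx1 hδp.le
          linarith
        have h5 : (p : ℝ) * b ≤ x + h := by
          have : 3 * (X : ℝ) * δ = 3 * (X * δ) := by ring
          rw [this, hδX] at h4
          linarith
        have h6 : ((p * b - x : ℕ) : ℝ) ≤ h := by
          rw [Nat.cast_sub hxn.le]
          push_cast
          linarith
        have h7 := Nat.le_floor h6
        omega
      have hbP : b.Prime := by
        by_contra hcon
        exact hno p hp b hb hbp hcon ⟨hxn, hnx⟩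
      rw [if_pos ⟨hbP, hxn, hnx⟩]
      have e2 : Wd w δ (Real.log p + Real.log b - y) ≤ W * (8 * X) / h := by
        refine (Pool.Agent.SI.gap_Wd_le hW hδp _).trans (le_of_eq ?_)
        rw [hδ, div_div_eq_mul_div]
      apply mul_le_mul _ e2 _ hlogX
      · refine ArithmeticFunction.vonMangoldt_le_log.trans (Real.log_le_log hb0 ?_)
        exact_mod_cast hb'.2.trans h3N
      · unfold Wd
        exact div_nonneg (hw.nonneg _) hδp.le
  have e2 : T.card ≤ (W2 (Real.log X ^ C) x h).card := by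
    apply card_le_card_of_injOn (fun q => q.1 * q.2)
    · intro q hq
      rw [mem_coe, hT, mem_filter, mem_product] at hq
      obtain ⟨⟨hp, hb⟩, hbP, h1, h2⟩ := hq
      have hpp := hSn q.1 hp
      have hq1 : (q.1 : ℝ) ≤ Real.log X ^ C := by
        refine le_trans ?_ hPC
        exact_mod_cast hpp.2
      rw [mem_coe]
      unfold W2
      simp only [mem_filter, mem_Ioc]
      exact ⟨⟨h1, h2⟩, q.1, q.2, hpp.1, hbP, hq1, rfl⟩
    · intro q hq r hr hqr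
      rw [mem_coe, hT, mem_filter, mem_product] at hq hr
      obtain ⟨⟨hp, hb⟩, hbP, _, _⟩ := hq
      obtain ⟨⟨hp', hb'⟩, hbP', _, _⟩ := hr
      have hpp := hSn q.1 hp
      have hpp' := hSn r.1 hp'
      rw [mem_Icc] at hb hb'
      have hqr' : q.1 * q.2 = r.1 * r.2 := hqr
      have h1 : q.1 = r.1 := by
        have h2 : q.1 ∣ r.1 * r.2 := ⟨q.2, hqr'.symm⟩
        rcases (Nat.Prime.dvd_mul hpp.1).1 h2 with h3 | h3
        · exact (Nat.prime_dvd_prime_iff_eq hpp.1 hpp'.1).1 h3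
        · have h4 := (Nat.prime_dvd_prime_iff_eq hpp.1 hbP').1 h3
          omega
      have h2 : q.2 = r.2 := by
        rw [h1] at hqr'
        exact Nat.eq_of_mul_eq_mul_left hpp'.1.pos hqr'
      exact Prod.ext h1 h2
  refine e1.trans ?_
  rw [sum_const, nsmul_eq_mul]
  have e3 : (T.card : ℝ) ≤ ((W2 (Real.log X ^ C) x h).card : ℝ) := by exact_mod_cast e2
  exact mul_le_mul_of_nonneg_right e3 (by positivity)

/-- the excluded `x` -/
lemma eg_excl (B₁ X : ℕ) (h : ℝ) (hh : 0 ≤ h) (F : Finset ℕ)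
    (hF : ∀ x ∈ F, ∃ p ∈ Sn B₁ X, ∃ b ∈ Icc (Nn B₁ X) (3 * Nn B₁ X), IsPrimePow b ∧ ¬ b.Prime ∧
      (x < p * b ∧ p * b ≤ x + ⌊h⌋₊)) :
    (F.card : ℝ) ≤ (5 * Pn B₁ X / 4 : ℕ) *
      (Nat.sqrt (3 * Nn B₁ X) * Nat.log 2 (3 * Nn B₁ X) : ℕ) * h := by
  classical
  set Q := (Icc 1 (3 * Nn B₁ X)).filter (fun b => IsPrimePow b ∧ ¬ b.Prime) with hQ
  have h1 : F ⊆ ((Sn B₁ X) ×ˢ Q).biUnion (fun q => Ico (q.1 * q.2 - ⌊h⌋₊) (q.1 * q.2)) := by
    intro x hx
    obtain ⟨p, hp, b, hb, hb1, hb2, hb3, hb4⟩ := hF x hx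
    rw [mem_biUnion]
    refine ⟨(p, b), ?_, ?_⟩
    · rw [mem_product, hQ, mem_filter, mem_Icc]
      rw [mem_Icc] at hb
      exact ⟨hp, ⟨hb1.one_lt.le, hb.2⟩, hb1, hb2⟩
    · rw [mem_Ico]
      show p * b - ⌊h⌋₊ ≤ x ∧ x < p * b
      omega
  have h2 : F.card ≤ ((Sn B₁ X) ×ˢ Q).card * ⌊h⌋₊ := by
    refine (card_le_card h1).trans (card_biUnion_le_card_mul _ _ _ ?_)
    intro q _
    rw [Nat.card_Ico]
    omega
  have h3 : (Sn B₁ X).card ≤ 5 * Pn B₁ X / 4 := by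
    unfold Sn
    refine (card_filter_le _ _).trans ?_
    rw [Nat.card_Ioc]
    omega
  have h4 : F.card ≤ (5 * Pn B₁ X / 4) * (Nat.sqrt (3 * Nn B₁ X) * Nat.log 2 (3 * Nn B₁ X)) *
      ⌊h⌋₊ := by
    refine h2.trans (Nat.mul_le_mul_right _ ?_)
    rw [card_product]
    exact Nat.mul_le_mul h3 (eg_pp _)
  have h5 : (F.card : ℝ) ≤ (5 * Pn B₁ X / 4 : ℕ) *
      (Nat.sqrt (3 * Nn B₁ X) * Nat.log 2 (3 * Nn B₁ X) : ℕ) * (⌊h⌋₊ : ℝ) := by
    exact_mod_cast h4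
  refine h5.trans (mul_le_mul_of_nonneg_left (Nat.floor_le hh) (by positivity))

/-- large `X` -/
lemma eg_ev (W : ℝ) (A B₁ : ℕ) : ∀ᶠ X : ℕ in atTop,
    3 ≤ X ∧ 64 ≤ Real.log X ∧ 16 * W ≤ Real.log X ∧
    100 * Real.log X ^ (2 * B₁) ≤ X ∧
    32 * Real.log X ^ (B₁ + 1 + A) ≤ (X : ℝ) ^ (1 / 6 : ℝ) ∧
    4 * Real.log X ^ A ≤ X := by
  filter_upwards [eventually_ge_atTop 3, Pool.Agent.SI.var_log_large 64,
    Pool.Agent.SI.var_log_large (16 * W), Pool.Agent.SI.var_log_pow 100 (2 * B₁) 1 one_pos,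
    Pool.Agent.SI.var_log_pow 32 (B₁ + 1 + A) (1 / 6) (by norm_num),
    Pool.Agent.SI.var_log_pow 4 A 1 one_pos] with X h1 h2 h3 h4 h5 h6
  rw [Real.rpow_one] at h4 h6
  exact ⟨h1, h2, h3, h4, h5, h6⟩

lemma eg_P {B₁ X : ℕ} (hL : 64 ≤ Real.log X) (hB : 1 ≤ B₁) :
    3 ≤ Pn B₁ X ∧ (Pn B₁ X : ℝ) ≤ 2 * Real.log X ^ B₁ := by
  have h1 : (64 : ℝ) ≤ Real.log X ^ B₁ := by
    calc (64 : ℝ) ≤ Real.log X := hL
      _ = Real.log X ^ 1 := (pow_one _).symm
      _ ≤ Real.log X ^ B₁ := pow_le_pow_right₀ (by linarith) hB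
  have h2 : Real.log X ^ B₁ ≤ (Pn B₁ X : ℝ) := Nat.le_ceil _
  have h3 : (Pn B₁ X : ℝ) < Real.log X ^ B₁ + 1 := Nat.ceil_lt_add_one (by linarith)
  refine ⟨?_, by linarith⟩
  have : (3 : ℝ) ≤ Pn B₁ X := by linarith
  exact_mod_cast this

lemma eg_log2 {X : ℕ} (hX : 3 ≤ X) : (Nat.log 2 X : ℝ) ≤ 2 * Real.log X := by
  have hXR : (3 : ℝ) ≤ X := by exact_mod_cast hX
  have g3 : (2 : ℝ) ^ (Nat.log 2 X) ≤ X := by
    have := Nat.pow_log_le_self 2 (show X ≠ 0 by omega)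
    exact_mod_cast this
  have g4 := Real.log_le_log (by positivity) g3
  rw [Real.log_pow] at g4
  have g5 : Real.log 2 > 0.6931471803 := Real.log_two_gt_d9
  have g6 : (0 : ℝ) ≤ Nat.log 2 X := Nat.cast_nonneg _
  nlinarith

theorem thm_EG (h1 : SI.St_W) (h2 : St_EV) (h3 : St_EL) : St_EG := by
  obtain ⟨w, hw⟩ := h1
  obtain ⟨W, hW0, hW⟩ := Pool.Agent.SI.gap_bdd hw
  intro A
  obtain ⟨B, B₁, C₀, X₁, hB, hB₁, hvar⟩ := h2 w hw (A + 5)
  obtain ⟨X₂, hlong⟩ := h3 w hw B₁ B hB₁ hB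
  obtain ⟨X₃, hX₃⟩ := eventually_atTop.1 (eg_ev W A B₁)
  refine ⟨max C₀ (B₁ + 2), max X₁ (max X₂ X₃), ?_⟩
  intro X hX h hh1 hh2 F hF
  have hX₁X : X₁ ≤ X := (le_max_left _ _).trans hX
  have hX₂X : X₂ ≤ X := (le_max_left _ _).trans ((le_max_right _ _).trans hX)
  have hX₃X : X₃ ≤ X := (le_max_right _ _).trans ((le_max_right _ _).trans hX)
  obtain ⟨hX3, hL64, hLW, hXP, hX6, hXA⟩ := hX₃ X hX₃X
  have hXR : (3 : ℝ) ≤ X := by exact_mod_cast hX3
  have hX0 : (0 : ℝ) < X := by linarith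
  obtain ⟨hP3, hP2⟩ := eg_P hL64 hB₁
  set C : ℕ := max C₀ (B₁ + 2) with hC
  set L : ℝ := Real.log X with hL
  have hLp : 0 < L := by linarith
  have hL1 : 1 ≤ L := by linarith
  have hPow : ∀ j k : ℕ, j ≤ k → L ^ j ≤ L ^ k := fun j k hjk => pow_le_pow_right₀ hL1 hjk
  have hh3 : L ^ (B₁ + 2) ≤ h := (hPow _ _ (le_max_right _ _)).trans hh1
  have hh4 : 2 ≤ h := by
    have e1 : L ^ 1 ≤ L ^ (B₁ + 2) := hPow _ _ (by omega)
    rw [pow_one] at e1
    linarith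
  have hh5 : h ≤ X := by
    refine hh2.trans ?_
    calc (X : ℝ) ^ (1 / 3 : ℝ) ≤ (X : ℝ) ^ (1 : ℝ) :=
          Real.rpow_le_rpow_of_exponent_le (by linarith) (by norm_num)
      _ = X := Real.rpow_one _
  have h54 : ((5 * Pn B₁ X / 4 : ℕ) : ℝ) ≤ 5 / 2 * L ^ B₁ := by
    have e1 : ((5 * Pn B₁ X / 4 : ℕ) : ℝ) ≤ ((5 * Pn B₁ X : ℕ) : ℝ) / 4 := by
      have := @Nat.cast_div_le ℝ _ _ _ (5 * Pn B₁ X) 4
      exact_mod_cast this
    push_cast at e1
    linarith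
  have hPC : ((5 * Pn B₁ X / 4 : ℕ) : ℝ) ≤ L ^ C := by
    refine h54.trans ?_
    calc 5 / 2 * L ^ B₁ ≤ L * L ^ B₁ := mul_le_mul_of_nonneg_right (by linarith) (by positivity)
      _ = L ^ (B₁ + 1) := by ring
      _ ≤ L ^ C := hPow _ _ (le_trans (by omega) (le_max_right _ _))
  have hNP : 5 * Pn B₁ X / 4 < Nn B₁ X := by
    have e1 : 25 * Pn B₁ X ^ 2 ≤ X := by
      have e2 : (25 : ℝ) * (Pn B₁ X : ℝ) ^ 2 ≤ X := by
        have e3 : (Pn B₁ X : ℝ) ^ 2 ≤ (2 * L ^ B₁) ^ 2 :=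
          pow_le_pow_left₀ (Nat.cast_nonneg _) hP2 2
        have e4 : (2 * L ^ B₁) ^ 2 = 4 * L ^ (2 * B₁) := by ring
        linarith
      exact_mod_cast e2
    unfold Nn
    rw [Nat.lt_iff_add_one_le, Nat.le_div_iff_mul_le (by omega)]
    have e5 : 5 * Pn B₁ X / 4 + 1 ≤ 2 * Pn B₁ X := by omega
    calc (5 * Pn B₁ X / 4 + 1) * (5 * Pn B₁ X) ≤ (2 * Pn B₁ X) * (5 * Pn B₁ X) :=
          Nat.mul_le_mul_right _ e5
      _ = 10 * Pn B₁ X ^ 2 := by ring
      _ ≤ 4 * X := by omega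
  have h3N : 3 * Nn B₁ X ≤ X := by
    have e1 : Nn B₁ X * (5 * Pn B₁ X) ≤ 4 * X := Nat.div_mul_le_self _ _
    have e2 : Nn B₁ X * 15 ≤ Nn B₁ X * (5 * Pn B₁ X) := Nat.mul_le_mul_left _ (by omega)
    omega
  set δ : ℝ := h / (8 * X) with hδ
  set δ₁ : ℝ := 1 / Real.log (Nn B₁ X) ^ B with hδ₁
  set f : ℝ → ℝ := fun y => (DD w B₁ X δ y - DD w B₁ X δ₁ y) ^ 2 with hf
  have hwc : Continuous w := hw.smooth.continuous
  have hfc : Continuous f := by
    rw [hf]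
    unfold DD Wd
    fun_prop
  classical
  set F₁ : Finset ℕ := F.filter (fun x => 2 * (x + 1) ≤ 3 * X) with hF₁
  set Bad : ℕ → Prop := fun x => ∃ p ∈ Sn B₁ X, ∃ b ∈ Icc (Nn B₁ X) (3 * Nn B₁ X),
    IsPrimePow b ∧ ¬ b.Prime ∧ (x < p * b ∧ p * b ≤ x + ⌊h⌋₊) with hBad
  set F' : Finset ℕ := F₁.filter (fun x => ¬ Bad x) with hF'
  have hlow : ∀ x ∈ F', ∀ y, Real.log x ≤ y → y ≤ Real.log (x + 1) →
      (X : ℝ) ^ 2 / (4 * L ^ 2) ≤ f y := by
    intro x hx y hy1 hy2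
    rw [hF', mem_filter, hF₁, mem_filter] at hx
    obtain ⟨⟨hxF, hx2⟩, hnb⟩ := hx
    obtain ⟨hxX, _, hfew⟩ := hF x hxF
    have hxR : (X : ℝ) ≤ x := by exact_mod_cast hxX
    have e1 := eg_short hw hW0 hW hP3 hNP hPC hX3 hh4 hh5 hxX hx2 (by
      intro p hp b hb hb1 hb2 hb3
      exact hnb ⟨p, hp, b, hb, hb1, hb2, hb3⟩) hy1 hy2
    have e2 : DD w B₁ X δ y ≤ X / (2 * L) := by
      refine e1.trans ?_
      have g1 : ((W2 (Real.log X ^ C) x h).card : ℝ) * (Real.log X * (W * (8 * X) / h)) ≤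
          h / L ^ 3 * (L * (W * (8 * X) / h)) :=
        mul_le_mul_of_nonneg_right hfew.le (by positivity)
      refine g1.trans ?_
      have hh0 : 0 < h := by linarith
      have g2 : h / L ^ 3 * (L * (W * (8 * X) / h)) = X / (2 * L) * (16 * W / L) := by
        field_simp
        ring
      rw [g2]
      have g3 : 16 * W / L ≤ 1 := by
        rw [div_le_one hLp]
        exact hLW
      calc X / (2 * L) * (16 * W / L) ≤ X / (2 * L) * 1 :=
            mul_le_mul_of_nonneg_left g3 (by positivity)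
        _ = X / (2 * L) := mul_one _
    have hyX : L ≤ y := (Real.log_le_log hX0 hxR).trans hy1
    have hy2X : y ≤ Real.log (3 * X / 2) := by
      refine hy2.trans (Real.log_le_log (by linarith) ?_)
      have : (2 : ℝ) * (x + 1) ≤ 3 * X := by exact_mod_cast hx2
      linarith
    have e3 := hlong X hX₂X y hyX hy2X
    have e4 : X / (2 * L) ≤ DD w B₁ X δ₁ y - DD w B₁ X δ y := by
      have e5 : (X : ℝ) / L = X / (2 * L) + X / (2 * L) := by
        field_simp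
        ring
      rw [← hL, e5] at e3
      linarith
    have e6 : (X : ℝ) ^ 2 / (4 * L ^ 2) = (X / (2 * L)) ^ 2 := by
      rw [div_pow]
      ring
    have e7 : 0 ≤ (X : ℝ) / (2 * L) := by positivity
    rw [e6]
    show (X / (2 * L)) ^ 2 ≤ (DD w B₁ X δ y - DD w B₁ X δ₁ y) ^ 2
    have e8 : (DD w B₁ X δ y - DD w B₁ X δ₁ y) ^ 2 = (DD w B₁ X δ₁ y - DD w B₁ X δ y) ^ 2 := by
      ring
    rw [e8]
    exact pow_le_pow_left₀ e7 e4 2
  have hK1 : X ≤ 3 * X / 2 := by omega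
  have hK2 : 3 * X / 2 ≤ 2 * X := by omega
  have hK3 : Real.log ((3 * X / 2 : ℕ) : ℝ) ≤ Real.log (3 * X / 2) := by
    apply Real.log_le_log
    · have : 0 < 3 * X / 2 := by omega
      exact_mod_cast this
    · have := @Nat.cast_div_le ℝ _ _ _ (3 * X) 2
      push_cast at this
      exact this
  have hint := eg_int f hfc (fun y => sq_nonneg _) X (3 * X / 2) (by omega) hK1 hK2
    (Real.log (3 * X / 2)) hK3 F' (by
    intro x hx
    rw [hF', mem_filter, hF₁, mem_filter] at hx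
    refine ⟨(hF x hx.1.1).1, ?_⟩
    have := hx.1.2
    omega) ((X : ℝ) ^ 2 / (4 * L ^ 2)) (by positivity) hlow
  have hv := hvar X hX₁X h ((hPow _ _ (le_max_left _ _)).trans hh1) hh2
  have h4 : (F'.card : ℝ) * ((X : ℝ) ^ 2 / (4 * L ^ 2) / (2 * X)) ≤ X ^ 2 / L ^ (A + 5) :=
    hint.trans hv
  have h5 : (F'.card : ℝ) ≤ 8 * X / L ^ (A + 3) := by
    have e1 : (X : ℝ) ^ 2 / (4 * L ^ 2) / (2 * X) = X / (8 * L ^ 2) := by
      field_simp
      ring
    have e2 : (X : ℝ) ^ 2 / L ^ (A + 5) = 8 * X / L ^ (A + 3) * (X / (8 * L ^ 2)) := by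
      have e3 : L ^ (A + 5) = L ^ (A + 3) * L ^ 2 := by ring
      rw [e3]
      field_simp
    rw [e1, e2] at h4
    exact le_of_mul_le_mul_right h4 (by positivity)
  -- the excluded ones
  have h6 : F.card ≤ F'.card + (F₁.filter Bad).card + 1 := by
    have e1 : F ⊆ (F' ∪ F₁.filter Bad) ∪ {3 * X / 2} := by
      intro x hx
      obtain ⟨_, h7, _⟩ := hF x hx
      rw [mem_union, mem_union, mem_singleton]
      by_cases h8 : 2 * (x + 1) ≤ 3 * X
      · by_cases h9 : Bad x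
        · exact Or.inl (Or.inr (mem_filter.2 ⟨mem_filter.2 ⟨hx, h8⟩, h9⟩))
        · exact Or.inl (Or.inl (mem_filter.2 ⟨mem_filter.2 ⟨hx, h8⟩, h9⟩))
      · exact Or.inr (by omega)
    refine (card_le_card e1).trans ((card_union_le _ _).trans ?_)
    rw [card_singleton]
    exact Nat.add_le_add_right (card_union_le _ _) 1
  have h7 : (F.card : ℝ) ≤ F'.card + (F₁.filter Bad).card + 1 := by exact_mod_cast h6
  have h8 := eg_excl B₁ X h (by linarith) (F₁.filter Bad) (by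
    intro x hx
    exact (mem_filter.1 hx).2)
  have h9 : ((F₁.filter Bad).card : ℝ) ≤ X / L ^ A / 4 := by
    refine h8.trans ?_
    have e1 : ((Nat.sqrt (3 * Nn B₁ X) * Nat.log 2 (3 * Nn B₁ X) : ℕ) : ℝ) ≤
        (X : ℝ) ^ (1 / 2 : ℝ) * (2 * L) := by
      push_cast
      apply mul_le_mul _ _ (Nat.cast_nonneg _) (by positivity)
      · have g1 : (Nat.sqrt (3 * Nn B₁ X) : ℝ) ≤ Real.sqrt ((3 * Nn B₁ X : ℕ) : ℝ) :=
          Real.nat_sqrt_le_real_sqrt
        refine g1.trans ?_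
        rw [← Real.sqrt_eq_rpow]
        apply Real.sqrt_le_sqrt
        exact_mod_cast h3N
      · refine le_trans ?_ (eg_log2 hX3)
        exact_mod_cast Nat.log_mono_right h3N
    have e2 : ((5 * Pn B₁ X / 4 : ℕ) : ℝ) *
        ((Nat.sqrt (3 * Nn B₁ X) * Nat.log 2 (3 * Nn B₁ X) : ℕ) : ℝ) * h ≤
        (5 / 2 * L ^ B₁) * ((X : ℝ) ^ (1 / 2 : ℝ) * (2 * L)) * (X : ℝ) ^ (1 / 3 : ℝ) := by
      apply mul_le_mul _ hh2 (by linarith) (by positivity)
      exact mul_le_mul h54 e1 (Nat.cast_nonneg _) (by positivity)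
    refine e2.trans ?_
    rw [div_div, le_div_iff₀ (by positivity)]
    have e3 : (X : ℝ) = (X : ℝ) ^ (1 / 2 : ℝ) * (X : ℝ) ^ (1 / 3 : ℝ) * (X : ℝ) ^ (1 / 6 : ℝ) := by
      rw [← Real.rpow_add hX0, ← Real.rpow_add hX0]
      norm_num
    have e4 : 5 / 2 * L ^ B₁ * ((X : ℝ) ^ (1 / 2 : ℝ) * (2 * L)) * (X : ℝ) ^ (1 / 3 : ℝ) *
        (L ^ A * 4) = (X : ℝ) ^ (1 / 2 : ℝ) * (X : ℝ) ^ (1 / 3 : ℝ) *
          (20 * L ^ (B₁ + 1 + A)) := by ring
    rw [e4]
    calc (X : ℝ) ^ (1 / 2 : ℝ) * (X : ℝ) ^ (1 / 3 : ℝ) * (20 * L ^ (B₁ + 1 + A))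
        ≤ (X : ℝ) ^ (1 / 2 : ℝ) * (X : ℝ) ^ (1 / 3 : ℝ) * (X : ℝ) ^ (1 / 6 : ℝ) := by
          apply mul_le_mul_of_nonneg_left _ (by positivity)
          refine le_trans ?_ hX6
          have : 0 ≤ L ^ (B₁ + 1 + A) := by positivity
          linarith
      _ = X := e3.symm
  have h10 : 8 * X / L ^ (A + 3) ≤ X / L ^ A / 4 := by
    rw [div_div, div_le_div_iff₀ (by positivity) (by positivity)]
    have e1 : (64 : ℝ) ≤ L ^ 3 := by
      have := hPow 1 3 (by omega)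
      rw [pow_one] at this
      linarith
    have e2 : L ^ (A + 3) = L ^ A * L ^ 3 := by ring
    rw [e2]
    have e3 : (X : ℝ) * L ^ A * 64 ≤ X * L ^ A * L ^ 3 :=
      mul_le_mul_of_nonneg_left e1 (by positivity)
    have e4 : 0 ≤ (X : ℝ) * L ^ A := by positivity
    calc 8 * (X : ℝ) * (L ^ A * 4) = X * L ^ A * 32 := by ring
      _ ≤ X * L ^ A * 64 := by linarith
      _ ≤ X * L ^ A * L ^ 3 := e3
      _ = X * (L ^ A * L ^ 3) := by ring
  have h11 : 1 ≤ X / L ^ A / 4 := by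
    rw [le_div_iff₀ (by norm_num), le_div_iff₀ (by positivity)]
    linarith
  have h12 : 0 ≤ X / L ^ A := by positivity
  linarith

end Pool.Agent.E2P
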