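import Mathlib
import Pool.Agent.E2P.St

set_option autoImplicit false

/-!
# E2P: the module EH
-/

namespace Pool.Agent.E2P

open Finset Filter MeasureTheory
open Pool.Agent.SI (nit DP fac cof siz IsW Wd)

lemma eh_ex (l : List (ℕ × ℕ)) (h1 : 1 ≤ l.length) (h8 : l.length ≤ 8) :
    ∃ x ∈ l, siz l ≤ 8 * x.2 := by
  by_contra hc
  push Not at hc
  have h3 : ∀ y ∈ l.map Prod.snd, y ≤ (siz l - 1) / 8 := by
    intro y hy
    obtain ⟨x, hx, rfl⟩ := List.mem_map.1 hy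
    have := hc x hx
    omega
  have h4 := List.sum_le_card_nsmul (l.map Prod.snd) _ h3
  rw [List.length_map, smul_eq_mul] at h4
  have h5 : (l.map Prod.snd).sum = siz l := rfl
  rw [h5] at h4
  have h6 : l.length * ((siz l - 1) / 8) ≤ 8 * ((siz l - 1) / 8) := Nat.mul_le_mul_right _ h8
  obtain ⟨x, hx⟩ := List.exists_mem_of_length_pos (show 0 < l.length by omega)
  have h7 := hc x hx
  omega

/-- EH. -/
theorem thm_EH (h1 : St_H1) (h2 : St_H2) : St_EH := by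
  intro A
  obtain ⟨B₁, X₁, h1⟩ := h1 A
  obtain ⟨B₂, X₂, h2⟩ := h2 A
  have hT : Tendsto (fun X : ℕ => (X : ℝ)) atTop atTop := tendsto_natCast_atTop_atTop
  obtain ⟨X₃, h3⟩ := eventually_atTop.1
    (((tendsto_rpow_atTop (show (0 : ℝ) < 919 / 1000 by norm_num)).comp
      hT).eventually_ge_atTop 256)
  obtain ⟨X₄, h4⟩ := eventually_atTop.1 ((Real.tendsto_log_atTop.comp hT).eventually_ge_atTop 1)
  refine ⟨max B₁ B₂, max (max X₁ X₂) (max X₃ (max X₄ 1)), ?_⟩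
  intro X hX N Z l hl hN hN2 U hU hUt hV
  have hX1 : X₁ ≤ X := by omega
  have hX2 : X₂ ≤ X := by omega
  have hX3 : X₃ ≤ X := by omega
  have hX4 : X₄ ≤ X := by omega
  have hXp : (0 : ℝ) < X := by
    have : 0 < X := by omega
    exact_mod_cast this
  have h256 : (256 : ℝ) ≤ (X : ℝ) ^ (919 / 1000 : ℝ) := h3 X hX3
  have hL : 1 ≤ Real.log X := h4 X hX4
  obtain ⟨x, hx, hx8⟩ := eh_ex l hl.l1 hl.l8
  have hlow : (X : ℝ) ^ (1 / 100 : ℝ) ≤ 2 ^ x.2 := by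
    have e1 : (N : ℝ) ≤ 2 ^ (siz l + l.length) := by exact_mod_cast hl.low
    have e2 : (2 : ℝ) ^ (siz l + l.length) ≤ 2 ^ (8 * x.2 + 8) :=
      pow_le_pow_right₀ (by norm_num) (by have := hl.l8; omega)
    have e3 : (2 : ℝ) ^ (8 * x.2 + 8) = ((2 : ℝ) ^ x.2) ^ 8 * 256 := by
      rw [pow_add, ← pow_mul, mul_comm 8 x.2]; norm_num
    have e4 : ((X : ℝ) ^ (1 / 100 : ℝ)) ^ 8 * (X : ℝ) ^ (919 / 1000 : ℝ) =
        (X : ℝ) ^ (999 / 1000 : ℝ) := by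
      rw [← Real.rpow_natCast, ← Real.rpow_mul hXp.le, ← Real.rpow_add hXp]
      norm_num
    have e5 : ((X : ℝ) ^ (1 / 100 : ℝ)) ^ 8 * 256 ≤ ((2 : ℝ) ^ x.2) ^ 8 * 256 := by
      have e6 : ((X : ℝ) ^ (1 / 100 : ℝ)) ^ 8 * 256 ≤
          ((X : ℝ) ^ (1 / 100 : ℝ)) ^ 8 * (X : ℝ) ^ (919 / 1000 : ℝ) :=
        mul_le_mul_of_nonneg_left h256 (by positivity)
      linarith
    have e7 : ((X : ℝ) ^ (1 / 100 : ℝ)) ^ 8 ≤ ((2 : ℝ) ^ x.2) ^ 8 := by linarith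
    exact le_of_pow_le_pow_left₀ (by norm_num) (by positivity) e7
  have hlog : ∀ B : ℕ, B ≤ max B₁ B₂ → ∀ t ∈ U, Real.log X ^ B ≤ |t| ∧ |t| ≤ X := by
    intro B hB t ht
    exact ⟨(pow_le_pow_right₀ hL hB).trans (hUt t ht).1, (hUt t ht).2⟩
  rcases le_or_gt ((2 : ℝ) ^ x.2) ((X : ℝ) ^ (497 / 1000 : ℝ)) with hc | hc
  · exact h1 X hX1 N Z l hl hN hN2 x hx hlow hc U hU (hlog _ (le_max_left _ _)) hV
  · exact h2 X hX2 N Z l hl hN hN2 x hx hc U hU (hlog _ (le_max_right _ _)) hV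

end Pool.Agent.E2P
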