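import Mathlib
import Pool.Agent.E2P.St
import Pool.Agent.SI.Gap

set_option autoImplicit false

/-!
# E2P: the module EL, lower bound for the long averages (helper13)
-/

namespace Pool.Agent.E2P

open Finset Filter MeasureTheory
open Pool.Agent.SI (IsW Wd gap_bdd gap_Wd_le gap_Wd_supp)

lemma el_log_pow (C : ℝ) (n : ℕ) (s : ℝ) (hs : 0 < s) :
    ∀ᶠ X : ℕ in atTop, C * Real.log X ^ n ≤ (X : ℝ) ^ s := by
  have h := isLittleO_log_rpow_rpow_atTop (n : ℝ) hs
  have h' : ∀ᶠ x : ℝ in atTop, ‖Real.log x ^ (n : ℝ)‖ ≤ 1 / (|C| + 1) * ‖x ^ s‖ :=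
    h.def (by positivity)
  filter_upwards [tendsto_natCast_atTop_atTop.eventually h', eventually_ge_atTop 1] with X hX hX1
  have hX0 : (0 : ℝ) ≤ (X : ℝ) ^ s := by positivity
  rw [Real.rpow_natCast, Real.norm_of_nonneg hX0] at hX
  have h1 : 0 ≤ Real.log X := Real.log_natCast_nonneg X
  rw [Real.norm_of_nonneg (by positivity)] at hX
  have h2 : C ≤ |C| + 1 := by linarith [le_abs_self C]
  calc C * Real.log X ^ n ≤ (|C| + 1) * Real.log X ^ n := by gcongr
    _ ≤ (|C| + 1) * (1 / (|C| + 1) * (X : ℝ) ^ s) := by gcongr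
    _ = (X : ℝ) ^ s := by field_simp

/-- many primes in `(P, 5P/4]` -/
lemma el_card (h : SI.St_Long) {w : ℝ → ℝ} (hw : IsW w) {W : ℝ} (hW0 : 0 < W)
    (hW : ∀ x, w x ≤ W) : ∀ᶠ P : ℕ in atTop, (P : ℝ) ≤ 4 * W * Real.log P * Real.log (3 * P) *
      (((Ioc P (5 * P / 4)).filter Nat.Prime).card : ℝ) := by
  obtain ⟨X₀, hX₀⟩ := h w hw 1 le_rfl
  have e1 : ∀ᶠ P : ℕ in atTop, (5 : ℝ) ≤ Real.log P :=
    (Real.tendsto_log_atTop.comp tendsto_natCast_atTop_atTop).eventually_ge_atTop 5
  have e2 : ∀ᶠ P : ℕ in atTop,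
      24 * W * Real.log ((3 * P : ℕ) : ℝ) ^ 2 ≤ ((3 * P : ℕ) : ℝ) ^ (1 / 2 : ℝ) :=
    (tendsto_id.const_mul_atTop' (show 0 < 3 by norm_num)).eventually
      (el_log_pow (24 * W) 2 (1 / 2) (by norm_num))
  filter_upwards [eventually_ge_atTop X₀, eventually_ge_atTop 1, e1, e2] with P hP hP1 h5 h24
  set S := (Ioc P (5 * P / 4)).filter Nat.Prime with hS
  have hPR : (1 : ℝ) ≤ P := by exact_mod_cast hP1
  have hP0 : (0 : ℝ) < P := by linarith
  have hL0 : 0 < Real.log P := by linarith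
  have h3P : Real.log P ≤ Real.log (3 * P) := Real.log_le_log hP0 (by linarith)
  have hlong := hX₀ P hP (Real.log P) le_rfl (Real.log_le_log hP0 (by linarith))
  rw [Real.exp_log hP0, pow_one] at hlong
  set δ : ℝ := 1 / Real.log P with hδ
  have hδ0 : 0 < δ := by positivity
  have hδ5 : δ ≤ 1 / 5 := by
    rw [hδ]
    exact one_div_le_one_div_of_le (by norm_num) h5
  have hWδ : W / δ = W * Real.log P := by
    rw [hδ]
    field_simp
  have hterm : ∀ n ∈ Icc P (3 * P), ArithmeticFunction.vonMangoldt n *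
      Wd w δ (Real.log n - Real.log P) ≤
      (if n ∈ S then Real.log (3 * P) * (W * Real.log P) else 0) +
        (if ¬ n.Prime then ArithmeticFunction.vonMangoldt n * (W * Real.log P) else 0) := by
    intro n hn
    rw [mem_Icc] at hn
    have hn0 : (0 : ℝ) < n := by
      have : (P : ℝ) ≤ n := by exact_mod_cast hn.1
      linarith
    have hΛ : 0 ≤ ArithmeticFunction.vonMangoldt n := ArithmeticFunction.vonMangoldt_nonneg
    have hc : 0 ≤ W * Real.log P := by positivity
    have hc3 : 0 ≤ Real.log (3 * P) := by linarith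
    have hA : 0 ≤ (if n ∈ S then Real.log (3 * P) * (W * Real.log P) else 0) := by
      split_ifs
      · positivity
      · exact le_rfl
    have hB : 0 ≤ (if ¬ n.Prime then ArithmeticFunction.vonMangoldt n * (W * Real.log P)
        else 0) := by
      split_ifs
      · exact le_rfl
      · positivity
    by_cases hz : Wd w δ (Real.log n - Real.log P) = 0
    · rw [hz, mul_zero]
      linarith
    obtain ⟨h1, h2⟩ := gap_Wd_supp hw hδ0 hz
    have hle : Wd w δ (Real.log n - Real.log P) ≤ W * Real.log P := by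
      rw [← hWδ]
      exact gap_Wd_le hW hδ0 _
    by_cases hp : n.Prime
    · have hPn : P < n := by
        have h3 : Real.log P < Real.log n := by linarith
        have h4 := (Real.log_lt_log_iff hP0 hn0).1 h3
        exact_mod_cast h4
      have hn5 : n ≤ 5 * P / 4 := by
        have h3 : (1 : ℝ) / 5 ≤ Real.log (5 / 4) := by
          have := Real.one_sub_inv_le_log_of_pos (show (0 : ℝ) < 5 / 4 by norm_num)
          norm_num at this
          linarith
        have h4 : Real.log n < Real.log (P * (5 / 4)) := by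
          rw [Real.log_mul hP0.ne' (by norm_num)]
          linarith
        have h6 := (Real.log_lt_log_iff hn0 (by positivity)).1 h4
        have h7 : (4 : ℝ) * n ≤ 5 * P := by linarith
        have h8 : 4 * n ≤ 5 * P := by exact_mod_cast h7
        omega
      have hnS : n ∈ S := by
        rw [hS, mem_filter, mem_Ioc]
        exact ⟨⟨hPn, hn5⟩, hp⟩
      rw [if_pos hnS]
      have h3 : ArithmeticFunction.vonMangoldt n ≤ Real.log (3 * P) := by
        refine ArithmeticFunction.vonMangoldt_le_log.trans (Real.log_le_log hn0 ?_)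
        exact_mod_cast hn.2
      have h4 : ArithmeticFunction.vonMangoldt n * Wd w δ (Real.log n - Real.log P) ≤
          Real.log (3 * P) * (W * Real.log P) := by
        calc ArithmeticFunction.vonMangoldt n * Wd w δ (Real.log n - Real.log P)
            ≤ ArithmeticFunction.vonMangoldt n * (W * Real.log P) :=
              mul_le_mul_of_nonneg_left hle hΛ
          _ ≤ Real.log (3 * P) * (W * Real.log P) := mul_le_mul_of_nonneg_right h3 hc
      linarith
    · rw [if_pos hp]
      have h4 := mul_le_mul_of_nonneg_left hle hΛ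
      linarith
  have hsum := hlong.trans (sum_le_sum hterm)
  rw [sum_add_distrib] at hsum
  have s1 : ∑ n ∈ Icc P (3 * P), (if n ∈ S then Real.log (3 * P) * (W * Real.log P) else 0) ≤
      (S.card : ℝ) * (Real.log (3 * P) * (W * Real.log P)) := by
    rw [sum_ite_mem, sum_const, nsmul_eq_mul]
    have h1 : ((Icc P (3 * P) ∩ S).card : ℝ) ≤ S.card := by
      exact_mod_cast card_le_card inter_subset_right
    have h2 : 0 ≤ Real.log (3 * P) := by linarith
    have h3 : 0 ≤ Real.log (3 * P) * (W * Real.log P) := by positivity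
    exact mul_le_mul_of_nonneg_right h1 h3
  have s2 : ∑ n ∈ Icc P (3 * P), (if ¬ n.Prime then ArithmeticFunction.vonMangoldt n *
      (W * Real.log P) else 0) ≤ 2 * Real.sqrt (3 * P) * Real.log (3 * P) * (W * Real.log P) := by
    rw [← sum_filter, ← sum_mul]
    have hc : 0 ≤ W * Real.log P := by positivity
    refine mul_le_mul_of_nonneg_right ?_ hc
    refine le_trans ?_ (Chebyshev.psi_sub_theta_le (show (1 : ℝ) ≤ 3 * P by linarith))
    rw [Chebyshev.psi_sub_theta_eq_sum_not_prime]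
    have hfl : ⌊(3 * P : ℝ)⌋₊ = 3 * P := by
      have : (3 * P : ℝ) = ((3 * P : ℕ) : ℝ) := by push_cast; ring
      rw [this, Nat.floor_natCast]
    rw [hfl]
    refine sum_le_sum_of_subset_of_nonneg ?_ fun n _ _ =>
      ArithmeticFunction.vonMangoldt_nonneg
    intro n hn
    rw [mem_filter, mem_Icc] at hn
    rw [mem_filter, mem_Ioc]
    exact ⟨⟨by omega, hn.1.2⟩, hn.2⟩
  have s3 : 2 * Real.sqrt (3 * P) * Real.log (3 * P) * (W * Real.log P) ≤ P / 4 := by
    have h1 : ((3 * P : ℕ) : ℝ) = 3 * P := by push_cast; ring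
    rw [h1, ← Real.sqrt_eq_rpow] at h24
    have h2 : 0 ≤ Real.sqrt (3 * P) := Real.sqrt_nonneg _
    have h3 : Real.sqrt (3 * P) * Real.sqrt (3 * P) = 3 * P :=
      Real.mul_self_sqrt (by positivity)
    have h4 : 0 ≤ Real.log (3 * P) := by linarith
    have h5' : Real.log (3 * P) * (W * Real.log P) ≤ W * Real.log (3 * P) ^ 2 := by
      have : W * Real.log P ≤ W * Real.log (3 * P) := mul_le_mul_of_nonneg_left h3P hW0.le
      calc Real.log (3 * P) * (W * Real.log P) ≤ Real.log (3 * P) * (W * Real.log (3 * P)) :=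
            mul_le_mul_of_nonneg_left this h4
        _ = W * Real.log (3 * P) ^ 2 := by ring
    calc 2 * Real.sqrt (3 * P) * Real.log (3 * P) * (W * Real.log P)
        = 2 * Real.sqrt (3 * P) * (Real.log (3 * P) * (W * Real.log P)) := by ring
      _ ≤ 2 * Real.sqrt (3 * P) * (W * Real.log (3 * P) ^ 2) :=
          mul_le_mul_of_nonneg_left h5' (by positivity)
      _ = Real.sqrt (3 * P) * (24 * W * Real.log (3 * P) ^ 2) / 12 := by ring
      _ ≤ Real.sqrt (3 * P) * Real.sqrt (3 * P) / 12 := by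
          have := mul_le_mul_of_nonneg_left h24 h2
          linarith
      _ = P / 4 := by rw [h3]; ring
  have h9 : (P : ℝ) / 2 ≤ (S.card : ℝ) * (Real.log (3 * P) * (W * Real.log P)) + P / 4 := by
    linarith
  have h10 : (S.card : ℝ) * (Real.log (3 * P) * (W * Real.log P)) * 4 =
      4 * W * Real.log P * Real.log (3 * P) * (S.card : ℝ) := by ring
  linarith

/-- EL. -/
theorem thm_EL (h : SI.St_Long) : St_EL := by
  intro w hw B₁ B hB₁ hB
  obtain ⟨W, hW0, hW⟩ := gap_bdd hw
  obtain ⟨X₁, hlong⟩ := h w hw B hB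
  have hL : Tendsto (fun X : ℕ => Real.log (X : ℝ)) atTop atTop :=
    Real.tendsto_log_atTop.comp tendsto_natCast_atTop_atTop
  have hPt : Tendsto (fun X : ℕ => Pn B₁ X) atTop atTop := by
    unfold Pn
    exact tendsto_nat_ceil_atTop.comp ((tendsto_pow_atTop (by omega)).comp hL)
  have e1 := hPt.eventually (el_card h hw hW0 hW)
  have e2 : ∀ᶠ X : ℕ in atTop, (6 : ℝ) ≤ Real.log X := hL.eventually_ge_atTop 6
  have e3 : ∀ᶠ X : ℕ in atTop,
      10 * W * ((B₁ : ℝ) + 1) ^ 2 * Real.log (Real.log X) ^ 2 ≤ Real.log X := by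
    have h1 : ∀ᶠ x : ℝ in atTop, ‖Real.log x ^ 2‖ ≤
        1 / (10 * W * ((B₁ : ℝ) + 1) ^ 2) * ‖id x‖ :=
      (Real.isLittleO_pow_log_id_atTop (n := 2)).def (by positivity)
    filter_upwards [hL.eventually h1, e2] with X hX h6
    rw [id, Real.norm_of_nonneg (by positivity), Real.norm_of_nonneg (by linarith)] at hX
    calc 10 * W * ((B₁ : ℝ) + 1) ^ 2 * Real.log (Real.log X) ^ 2
        ≤ 10 * W * ((B₁ : ℝ) + 1) ^ 2 * (1 / (10 * W * ((B₁ : ℝ) + 1) ^ 2) * Real.log X) :=
          mul_le_mul_of_nonneg_left hX (by positivity)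
      _ = Real.log X := by field_simp
  have e4 : ∀ᶠ X : ℕ in atTop, (10 * ((X₁ : ℝ) + 21)) * Real.log X ^ B₁ ≤ (X : ℝ) ^ (1 : ℝ) :=
    el_log_pow _ B₁ 1 one_pos
  obtain ⟨X₀, hX₀⟩ := eventually_atTop.1 (e1.and (e2.and (e3.and e4)))
  refine ⟨max X₀ 1, fun X hX y hy1 hy2 => ?_⟩
  obtain ⟨f1, f2, f3, f4⟩ := hX₀ X ((le_max_left _ _).trans hX)
  have hX1 : 1 ≤ X := (le_max_right _ _).trans hX
  have hXR : (1 : ℝ) ≤ X := by exact_mod_cast hX1
  have hX0 : (0 : ℝ) < X := by linarith
  rw [Real.rpow_one] at f4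
  set P := Pn B₁ X with hP
  set L := Real.log (X : ℝ) with hLd
  have hLB : (1 : ℝ) ≤ L ^ B₁ := one_le_pow₀ (by linarith)
  have hPL : L ^ B₁ ≤ P := Nat.le_ceil _
  have hPU : (P : ℝ) ≤ 2 * L ^ B₁ := by
    have h1 : (P : ℝ) < L ^ B₁ + 1 := Nat.ceil_lt_add_one (by positivity)
    linarith
  have hP0 : (0 : ℝ) < P := by linarith
  have hP1 : 1 ≤ P := by
    have : (0 : ℕ) < P := by exact_mod_cast hP0
    exact this
  set N := Nn B₁ X with hN
  have hNdef : N = 4 * X / (5 * P) := rfl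
  have hN1 : N * (5 * P) ≤ 4 * X := by
    rw [hNdef]
    exact Nat.div_mul_le_self _ _
  have hN2 : 4 * X < (N + 1) * (5 * P) := by
    have h1 := Nat.div_add_mod (4 * X) (5 * P)
    have h2 := Nat.mod_lt (4 * X) (show 5 * P > 0 by omega)
    rw [← hNdef] at h1
    have h3 : (N + 1) * (5 * P) = 5 * P * N + 5 * P := by ring
    omega
  have hN1R : (N : ℝ) * (5 * P) ≤ 4 * X := by exact_mod_cast hN1
  have hN2R : (4 : ℝ) * X < (N + 1) * (5 * P) := by exact_mod_cast hN2
  have hX₁0 : (0 : ℝ) ≤ X₁ := Nat.cast_nonneg _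
  have hNX : X₁ ≤ N := by
    rw [hNdef, Nat.le_div_iff_mul_le (by omega)]
    have h1 : (X₁ : ℝ) * (5 * P) ≤ 4 * X := by
      have h2 : (X₁ : ℝ) * (5 * P) ≤ X₁ * (5 * (2 * L ^ B₁)) := by gcongr
      have h3 : (X₁ : ℝ) * (5 * (2 * L ^ B₁)) ≤ 10 * (X₁ + 21) * L ^ B₁ := by
        have : 10 * ((X₁ : ℝ) + 21) * L ^ B₁ = X₁ * (5 * (2 * L ^ B₁)) + 210 * L ^ B₁ := by ring
        rw [this]
        linarith
      linarith
    exact_mod_cast h1
  have hX20 : (20 : ℝ) * P ≤ X := by
    have h3 : (40 : ℝ) * L ^ B₁ ≤ 10 * (X₁ + 21) * L ^ B₁ :=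
      mul_le_mul_of_nonneg_right (by linarith) (by linarith)
    linarith
  have hNpos : (0 : ℝ) < N := by
    have h0 : N ≠ 0 := fun h0 => by
      rw [h0] at hN2R
      push_cast at hN2R
      linarith
    exact_mod_cast Nat.pos_of_ne_zero h0
  have hone : ∀ p ∈ Sn B₁ X, 2 * (X : ℝ) / (5 * P) ≤ ∑ b ∈ Icc N (3 * N),
      ArithmeticFunction.vonMangoldt b *
        Wd w (1 / Real.log N ^ B) (Real.log p + Real.log b - y) := by
    intro p hp
    rw [Sn, mem_filter, mem_Ioc] at hp
    obtain ⟨⟨hp1, hp2⟩, hpp⟩ := hp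
    rw [← hP] at hp1 hp2
    have hp2' : 4 * p ≤ 5 * P := by omega
    have hp1R : (P : ℝ) < p := by exact_mod_cast hp1
    have hp2R : (4 : ℝ) * p ≤ 5 * P := by exact_mod_cast hp2'
    have hp0 : (0 : ℝ) < p := by linarith
    have hNp : (N : ℝ) * p ≤ X := by
      have h1 := mul_le_mul_of_nonneg_left hp2R hNpos.le
      have h2 : (N : ℝ) * (4 * p) = 4 * (N * p) := by ring
      linarith
    have g1 : Real.log N ≤ y - Real.log p := by
      have h1 : Real.log N + Real.log p ≤ Real.log X := by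
        rw [← Real.log_mul hNpos.ne' hp0.ne']
        exact Real.log_le_log (by positivity) hNp
      linarith
    have g2 : y - Real.log p ≤ Real.log (2 * N) := by
      have h0 : 3 * (X : ℝ) / 2 ≤ 2 * N * p := by
        have h7 := mul_le_mul_of_nonneg_left hp1R.le hNpos.le
        have h8 : ((N : ℝ) + 1) * (5 * P) = 5 * (N * P) + 5 * P := by ring
        have h9 : 2 * (N : ℝ) * p = 2 * (N * p) := by ring
        rw [h8] at hN2R
        rw [h9]
        linarith
      have h1 : Real.log (3 * X / 2) ≤ Real.log (2 * N * p) :=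
        Real.log_le_log (by positivity) h0
      rw [Real.log_mul (by positivity) hp0.ne'] at h1
      linarith
    have g3 := hlong N hNX (y - Real.log p) g1 g2
    have g4 : 2 * (X : ℝ) / (5 * P) ≤ Real.exp (y - Real.log p) / 2 := by
      rw [Real.exp_sub, Real.exp_log hp0]
      have h1 : (X : ℝ) ≤ Real.exp y := by
        rw [← Real.exp_log hX0]
        exact Real.exp_le_exp.2 hy1
      rw [div_div, div_le_div_iff₀ (by positivity) (by positivity)]
      calc 2 * (X : ℝ) * (p * 2) = X * (4 * p) := by ring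
        _ ≤ Real.exp y * (5 * P) := mul_le_mul h1 hp2R (by positivity) (by positivity)
    refine g4.trans (g3.trans (le_of_eq ?_))
    refine sum_congr rfl fun b _ => ?_
    congr 2
    ring
  have hDD : ((Sn B₁ X).card : ℝ) * (2 * X / (5 * P)) ≤
      DD w B₁ X (1 / Real.log (Nn B₁ X) ^ B) y := by
    unfold DD
    rw [← nsmul_eq_mul, ← sum_const]
    exact sum_le_sum hone
  refine le_trans ?_ hDD
  have hLL : 0 ≤ Real.log L := Real.log_nonneg (by linarith)
  have hlog : Real.log (3 * P) ≤ (B₁ + 1) * Real.log L := by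
    have h1 : (3 * P : ℝ) ≤ L ^ (B₁ + 1) := by
      rw [pow_succ]
      have h2 := mul_le_mul_of_nonneg_left f2 (show 0 ≤ L ^ B₁ by linarith)
      linarith
    calc Real.log (3 * P) ≤ Real.log (L ^ (B₁ + 1)) := Real.log_le_log (by positivity) h1
      _ = (B₁ + 1) * Real.log L := by rw [Real.log_pow]; push_cast; ring
  have hlogP : Real.log P ≤ Real.log (3 * P) := Real.log_le_log hP0 (by linarith)
  have hlogP0 : 0 ≤ Real.log P := Real.log_natCast_nonneg _
  have hK : 10 * W * Real.log P * Real.log (3 * P) ≤ L := by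
    have h1 : Real.log P * Real.log (3 * P) ≤
        ((B₁ + 1) * Real.log L) * ((B₁ + 1) * Real.log L) :=
      mul_le_mul (hlogP.trans hlog) hlog (hlogP0.trans hlogP) (by positivity)
    have h2 := mul_le_mul_of_nonneg_left h1 (show 0 ≤ 10 * W by positivity)
    calc 10 * W * Real.log P * Real.log (3 * P) = 10 * W * (Real.log P * Real.log (3 * P)) := by
          ring
      _ ≤ 10 * W * (((B₁ + 1) * Real.log L) * ((B₁ + 1) * Real.log L)) := h2
      _ = 10 * W * ((B₁ : ℝ) + 1) ^ 2 * Real.log L ^ 2 := by ring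
      _ ≤ L := f3
  have f1' : (P : ℝ) ≤ 4 * W * Real.log P * Real.log (3 * P) * ((Sn B₁ X).card : ℝ) := f1
  have h5 : (5 : ℝ) * P ≤ 2 * L * ((Sn B₁ X).card : ℝ) := by
    have h6 := mul_le_mul_of_nonneg_right hK (Nat.cast_nonneg (α := ℝ) (Sn B₁ X).card)
    calc (5 : ℝ) * P ≤ 5 * (4 * W * Real.log P * Real.log (3 * P) *
          ((Sn B₁ X).card : ℝ)) := by linarith
      _ = 2 * (10 * W * Real.log P * Real.log (3 * P) * ((Sn B₁ X).card : ℝ)) := by ring
      _ ≤ 2 * (L * ((Sn B₁ X).card : ℝ)) := by linarith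
      _ = 2 * L * ((Sn B₁ X).card : ℝ) := by ring
  rw [div_le_iff₀ (by linarith)]
  calc (X : ℝ) = X * (5 * P) / (5 * P) := by field_simp
    _ ≤ X * (2 * L * ((Sn B₁ X).card : ℝ)) / (5 * P) := by gcongr
    _ = ((Sn B₁ X).card : ℝ) * (2 * X / (5 * P)) * L := by ring

end Pool.Agent.E2P
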