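import Mathlib
import Pool.Agent.E2P.St
import Pool.Agent.SI.Var

set_option autoImplicit false

/-!
# E2P / EP: the mean square of one product
-/

namespace Pool.Agent.E2P

open Finset Filter MeasureTheory
open Pool.Agent.SI (nit DP fac cof siz IsW Wd)
open Pool.Agent.EVN (DensP BigP)
open scoped FourierTransform

/-- splitting of the integral -/
theorem ep_split (h g k : ℝ → ℝ) (R₀ R₁ a m b : ℝ) (hR₀ : 0 ≤ R₀) (hR : R₀ ≤ R₁) (ha : 0 ≤ a)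
    (hb : 0 ≤ b) (hh : ∀ x, 0 ≤ h x) (hg : ∀ x, 0 ≤ g x) (hgc : Continuous g)
    (hgn : ∀ x, g (-x) = g x) (hk : ∀ x, 0 ≤ x → 0 ≤ k x)
    (hki : IntegrableOn k (Set.Ioi R₁))
    (h1 : ∀ x, |x| ≤ R₀ → h x * g x ≤ a) (h2 : ∀ x, h x ≤ m)
    (h3 : ∀ x, R₁ < |x| → h x * g x ≤ b * k |x|) :
    ∫ x, h x * g x ≤ 2 * R₀ * a + 2 * m * (∫ x in R₀..R₁, g x) +
      2 * b * ∫ x in Set.Ioi R₁, k x := by
  have hm : 0 ≤ m := (hh 0).trans (h2 0)
  have hR₁ : 0 ≤ R₁ := hR₀.trans hR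
  let φ : ℝ → ℝ := (Set.Icc (-R₀) R₀).indicator (fun _ => a)
  let ψ1 : ℝ → ℝ := (Set.Ioc R₀ R₁).indicator (fun x => m * g x)
  let ψ2 : ℝ → ℝ := (Set.Ioi R₁).indicator (fun x => b * k x)
  let ψ : ℝ → ℝ := fun x => ψ1 x + ψ2 x
  have i1 : Integrable φ := by
    refine (integrable_indicator_iff measurableSet_Icc).mpr ?_
    exact integrableOn_const (by simp) (by simp)
  have i2 : Integrable ψ1 := by
    refine (integrable_indicator_iff measurableSet_Ioc).mpr ?_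
    have : Continuous (fun x => m * g x) := by fun_prop
    exact this.integrableOn_Ioc
  have i3 : Integrable ψ2 :=
    (integrable_indicator_iff measurableSet_Ioi).mpr (hki.const_mul b)
  have i4 : Integrable ψ := i2.add i3
  have i5 : Integrable (fun x => ψ (-x)) := i4.comp_neg
  have n1 : ∀ x, 0 ≤ φ x := fun x => Set.indicator_nonneg (fun _ _ => ha) x
  have n2 : ∀ x, 0 ≤ ψ1 x := fun x => Set.indicator_nonneg (fun y _ => mul_nonneg hm (hg y)) x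
  have n3 : ∀ x, 0 ≤ ψ2 x := fun x => Set.indicator_nonneg
    (fun y hy => mul_nonneg hb (hk y (hR₁.trans (le_of_lt hy)))) x
  have n4 : ∀ x, 0 ≤ ψ x := fun x => add_nonneg (n2 x) (n3 x)
  have key1 : ∀ x, R₀ < x → h x * g x ≤ ψ x := by
    intro x hx
    have hx0 : 0 < x := lt_of_le_of_lt hR₀ hx
    rcases le_or_gt x R₁ with c | c
    · have e1 : ψ1 x = m * g x := Set.indicator_of_mem (Set.mem_Ioc.mpr ⟨hx, c⟩) _
      have e2 : h x * g x ≤ m * g x := mul_le_mul_of_nonneg_right (h2 x) (hg x)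
      have e3 := n3 x
      show h x * g x ≤ ψ1 x + ψ2 x
      linarith
    · have e1 : ψ2 x = b * k x := Set.indicator_of_mem (Set.mem_Ioi.mpr c) _
      have e2 := h3 x (by rw [abs_of_pos hx0]; exact c)
      rw [abs_of_pos hx0] at e2
      have e3 := n2 x
      show h x * g x ≤ ψ1 x + ψ2 x
      linarith
  have key2 : ∀ x, x < -R₀ → h x * g x ≤ ψ (-x) := by
    intro x hx
    have hx0 : x < 0 := by linarith
    rcases le_or_gt (-x) R₁ with c | c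
    · have e1 : ψ1 (-x) = m * g (-x) :=
        Set.indicator_of_mem (Set.mem_Ioc.mpr ⟨by linarith, c⟩) _
      rw [hgn] at e1
      have e2 : h x * g x ≤ m * g x := mul_le_mul_of_nonneg_right (h2 x) (hg x)
      have e3 := n3 (-x)
      show h x * g x ≤ ψ1 (-x) + ψ2 (-x)
      linarith
    · have e1 : ψ2 (-x) = b * k (-x) := Set.indicator_of_mem (Set.mem_Ioi.mpr c) _
      have e2 := h3 x (by rw [abs_of_neg hx0]; exact c)
      rw [abs_of_neg hx0] at e2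
      have e3 := n2 (-x)
      show h x * g x ≤ ψ1 (-x) + ψ2 (-x)
      linarith
  have key : ∀ x, h x * g x ≤ φ x + ψ x + ψ (-x) := by
    intro x
    by_cases c1 : |x| ≤ R₀
    · have hx' : x ∈ Set.Icc (-R₀) R₀ := abs_le.mp c1
      have e1 : φ x = a := Set.indicator_of_mem hx' _
      have e2 := h1 x c1
      linarith [n4 x, n4 (-x)]
    · push Not at c1
      rcases lt_abs.mp c1 with c2 | c2
      · linarith [key1 x c2, n1 x, n4 (-x)]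
      · linarith [key2 x (by linarith), n1 x, n4 x]
  have hint : Integrable (fun x => φ x + ψ x + ψ (-x)) := (i1.add i4).add i5
  calc ∫ x, h x * g x ≤ ∫ x, (φ x + ψ x + ψ (-x)) :=
        integral_mono_of_nonneg (Eventually.of_forall fun x => mul_nonneg (hh x) (hg x))
          hint (Eventually.of_forall key)
    _ = (∫ x, φ x) + (∫ x, ψ x) + ∫ x, ψ (-x) := by
        rw [integral_add (f := fun x => φ x + ψ x) (g := fun x => ψ (-x)) (i1.add i4) i5,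
          integral_add i1 i4]
    _ = (∫ x, φ x) + 2 * ∫ x, ψ x := by
        rw [integral_neg_eq_self ψ]
        ring
    _ = 2 * R₀ * a + 2 * m * (∫ x in R₀..R₁, g x) + 2 * b * ∫ x in Set.Ioi R₁, k x := by
        have e1 : ∫ x, φ x = 2 * R₀ * a := by
          simp only [φ]
          rw [integral_indicator measurableSet_Icc, setIntegral_const]
          simp only [Measure.real, Real.volume_Icc, smul_eq_mul]
          rw [ENNReal.toReal_ofReal (by linarith)]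
          ring
        have e2 : ∫ x, ψ1 x = m * ∫ x in R₀..R₁, g x := by
          simp only [ψ1]
          rw [integral_indicator measurableSet_Ioc,
            intervalIntegral.integral_of_le hR, integral_const_mul]
        have e3 : ∫ x, ψ2 x = b * ∫ x in Set.Ioi R₁, k x := by
          simp only [ψ2]
          rw [integral_indicator measurableSet_Ioi, integral_const_mul]
        have e4 : ∫ x, ψ x = (∫ x, ψ1 x) + ∫ x, ψ2 x := integral_add i2 i3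
        rw [e1, e4, e2, e3]
        ring

theorem ep_PS_le (S : Finset ℕ) (t : ℝ) : ‖PS S t‖ ≤ S.card := by
  unfold PS
  refine (norm_sum_le _ _).trans (le_of_eq ?_)
  rw [Finset.sum_congr rfl fun p _ => SI.var_norm_nit t p]
  simp

theorem ep_PS_neg (S : Finset ℕ) (t : ℝ) : ‖PS S (-t)‖ = ‖PS S t‖ := by
  have : PS S (-t) = (starRingEnd ℂ) (PS S t) := by
    unfold PS
    rw [map_sum]
    exact Finset.sum_congr rfl fun n _ => SI.var_nit_neg t n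
  rw [this, RCLike.norm_conj]

theorem ep_PS_cont (S : Finset ℕ) : Continuous (fun t => PS S t) := by
  unfold PS nit
  fun_prop

/-- the sizes of `P` and `N` -/
theorem ep_sizes (B₁ X : ℕ) (hX : 3 ≤ X) (hL : 4 ≤ Real.log X)
    (hLX : 10 * Real.log X ^ B₁ ≤ (X : ℝ) ^ (1 / 4 : ℝ)) :
    Real.log X ^ B₁ ≤ (Pn B₁ X : ℝ) ∧ (Pn B₁ X : ℝ) ≤ 2 * Real.log X ^ B₁ ∧
      (Pn B₁ X : ℝ) * (Nn B₁ X : ℝ) ≤ X ∧ (Nn B₁ X : ℝ) ≤ X ∧
      (X : ℝ) ^ (1 / 2 : ℝ) ≤ (Nn B₁ X : ℝ) ∧ ((Sn B₁ X).card : ℝ) ≤ Pn B₁ X := by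
  have hXR : (3 : ℝ) ≤ X := by exact_mod_cast hX
  have hX0 : (0 : ℝ) < X := by linarith
  have hX1 : (1 : ℝ) ≤ X := by linarith
  have hL1 : (1 : ℝ) ≤ Real.log X ^ B₁ := one_le_pow₀ (by linarith)
  have p1 : Real.log X ^ B₁ ≤ (Pn B₁ X : ℝ) := Nat.le_ceil _
  have p2 : (Pn B₁ X : ℝ) ≤ 2 * Real.log X ^ B₁ := by
    have := Nat.ceil_lt_add_one (show (0 : ℝ) ≤ Real.log X ^ B₁ by linarith)
    unfold Pn
    linarith
  have hP1 : 1 ≤ Pn B₁ X := by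
    have : (1 : ℝ) ≤ (Pn B₁ X : ℝ) := hL1.trans p1
    exact_mod_cast this
  have hPN : 5 * Pn B₁ X * Nn B₁ X ≤ 4 * X := Nat.mul_div_le _ _
  have hPNR : 5 * (Pn B₁ X : ℝ) * Nn B₁ X ≤ 4 * X := by exact_mod_cast hPN
  have hN0 : (0 : ℝ) ≤ Nn B₁ X := Nat.cast_nonneg _
  have hPR : (1 : ℝ) ≤ Pn B₁ X := hL1.trans p1
  have hlt : 4 * X < 5 * Pn B₁ X * (Nn B₁ X + 1) :=
    Nat.lt_mul_div_succ _ (by omega)
  have hltR : 4 * (X : ℝ) < 5 * (Pn B₁ X : ℝ) * (Nn B₁ X + 1) := by exact_mod_cast hlt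
  refine ⟨p1, p2, by nlinarith, by nlinarith, ?_, ?_⟩
  · have e1 : 5 * (Pn B₁ X : ℝ) ≤ (X : ℝ) ^ (1 / 4 : ℝ) := by linarith
    have e2 : 4 * (X : ℝ) < (X : ℝ) ^ (1 / 4 : ℝ) * (Nn B₁ X + 1) :=
      hltR.trans_le (mul_le_mul_of_nonneg_right e1 (by linarith))
    have e3 : (X : ℝ) = (X : ℝ) ^ (1 / 4 : ℝ) * (X : ℝ) ^ (3 / 4 : ℝ) := by
      rw [← Real.rpow_add hX0]
      norm_num
    have e4 : (0 : ℝ) < (X : ℝ) ^ (1 / 4 : ℝ) := Real.rpow_pos_of_pos hX0 _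
    have e5 : 4 * (X : ℝ) ^ (3 / 4 : ℝ) < Nn B₁ X + 1 := by
      have e6 : (X : ℝ) ^ (1 / 4 : ℝ) * (4 * (X : ℝ) ^ (3 / 4 : ℝ)) <
          (X : ℝ) ^ (1 / 4 : ℝ) * (Nn B₁ X + 1) := by
        calc (X : ℝ) ^ (1 / 4 : ℝ) * (4 * (X : ℝ) ^ (3 / 4 : ℝ)) =
            4 * ((X : ℝ) ^ (1 / 4 : ℝ) * (X : ℝ) ^ (3 / 4 : ℝ)) := by ring
          _ = 4 * (X : ℝ) := by rw [← e3]
          _ < _ := e2
      exact lt_of_mul_lt_mul_left e6 e4.le
    have e7 : (X : ℝ) ^ (1 / 2 : ℝ) ≤ (X : ℝ) ^ (3 / 4 : ℝ) :=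
      Real.rpow_le_rpow_of_exponent_le hX1 (by norm_num)
    have e8 : (1 : ℝ) ≤ (X : ℝ) ^ (1 / 2 : ℝ) := Real.one_le_rpow hX1 (by norm_num)
    linarith
  · have e1 : (Sn B₁ X).card ≤ Pn B₁ X := by
      unfold Sn
      refine (Finset.card_filter_le _ _).trans ?_
      rw [Nat.card_Ioc]
      omega
    exact_mod_cast e1

set_option maxHeartbeats 4000000 in
/-- [EP] -/
theorem thm_EP (h1 : St_EU) (h2 : St_ER) (h3 : St_Prd) (h4 : SI.St_Four) (h5 : SI.St_Cof) :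
    St_EP := by
  intro w hw A
  obtain ⟨hP, hK, CL, hCL, hLip⟩ := h4 w hw
  obtain ⟨-, hcofs, c2, hc2⟩ := h5
  obtain ⟨B₀, B₂, hB₀1, hB₂1, hEU⟩ := h1 (A + 2)
  obtain ⟨C₁, hC₁1, hER⟩ := h2 (A + 2)
  obtain ⟨C0, hC0, hW0⟩ := hK 0
  obtain ⟨C2, hC2, hW2⟩ := hK 2
  obtain ⟨B, hB⟩ : ∃ B : ℕ, B = 3 * B₀ + 2 * c2 + A + 3 := ⟨_, rfl⟩
  set c3 : ℝ := 3 * c2 * 4 ^ c2 with hc3
  refine ⟨B, B₂, by omega, hB₂1, fun B₁ hB₁ => ?_⟩
  obtain ⟨X₁, hX₁⟩ := hEU B₁ hB₁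
  obtain ⟨X₂, hX₂⟩ := hER B₁ (by omega)
  have ev : ∀ᶠ X : ℕ in atTop, X₁ ≤ X ∧ X₂ ≤ X ∧ 3 ≤ X ∧ 4 ≤ Real.log X ∧
      2 * CL ^ 2 * c3 ^ 2 * 4 ^ B ≤ Real.log X ∧ 8 * C0 ^ 2 ≤ Real.log X ∧
      8 * C2 ^ 2 * (2 * Real.pi) ^ 4 ≤ Real.log X ∧
      1 * Real.log X ^ B ≤ (X : ℝ) ^ (1 / 2 : ℝ) ∧
      1 * Real.log X ^ B₀ ≤ (X : ℝ) ^ (1 / 2 : ℝ) ∧
      10 * Real.log X ^ B₁ ≤ (X : ℝ) ^ (1 / 4 : ℝ) := by
    filter_upwards [eventually_ge_atTop X₁, eventually_ge_atTop X₂, eventually_ge_atTop 3,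
      SI.var_log_large 4, SI.var_log_large (2 * CL ^ 2 * c3 ^ 2 * 4 ^ B),
      SI.var_log_large (8 * C0 ^ 2), SI.var_log_large (8 * C2 ^ 2 * (2 * Real.pi) ^ 4),
      SI.var_log_pow 1 B (1 / 2) (by norm_num), SI.var_log_pow 1 B₀ (1 / 2) (by norm_num),
      SI.var_log_pow 10 B₁ (1 / 4) (by norm_num)] with X a1 a2 a3 a4 a5 a6 a7 a8 a9 a10
    exact ⟨a1, a2, a3, a4, a5, a6, a7, a8, a9, a10⟩
  obtain ⟨X₀, hX₀⟩ := eventually_atTop.mp ev
  refine ⟨B₁ + C₁ + 2, X₀, ?_⟩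
  intro X hX h hh1 hh2 Z l hl
  obtain ⟨b1, b2, b3, b4, b5, b6, b7, b8, b9, b10⟩ := hX₀ X hX
  obtain ⟨s1, s2, s3, s4, s5, s6⟩ := ep_sizes B₁ X b3 b4 b10
  have hEU' := hX₁ X b1 Z l hl
  have hER' := hX₂ X b2 Z l hl
  set P := Pn B₁ X with hPdef
  set N := Nn B₁ X with hNdef
  set Sp := Sn B₁ X with hSpdef
  set Lg := Real.log X with hLg
  have hXR : (3 : ℝ) ≤ X := by exact_mod_cast b3
  have hX0 : (0 : ℝ) < X := by linarith
  have hX1 : (1 : ℝ) ≤ X := by linarith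
  have hL0 : 0 < Lg := by linarith
  have hL1 : 1 ≤ Lg := by linarith
  have hP0 : (0 : ℝ) ≤ P := Nat.cast_nonneg _
  have hPpos : (1 : ℝ) ≤ P := (one_le_pow₀ hL1).trans s1
  have hhalf : (1 : ℝ) ≤ (X : ℝ) ^ (1 / 2 : ℝ) := Real.one_le_rpow hX1 (by norm_num)
  have hN1 : (1 : ℝ) ≤ N := hhalf.trans s5
  have hN0 : (0 : ℝ) < N := by linarith
  -- the logarithm of `N`
  have hlN1 : Lg / 2 ≤ Real.log N := by
    have e1 := Real.log_le_log (by positivity) s5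
    rw [Real.log_rpow hX0] at e1
    linarith
  have hlN2 : Real.log N ≤ Lg := Real.log_le_log hN0 s4
  have hlN0 : 0 < Real.log N := by linarith
  have hh0 : 1 ≤ h := (one_le_pow₀ hL1).trans hh1
  have hhpos : 0 < h := by linarith
  set δ : ℝ := h / (8 * X) with hδ
  set δ₁ : ℝ := 1 / Real.log N ^ B with hδ₁
  have hδ0 : 0 < δ := by positivity
  have hδ₁0 : 0 < δ₁ := by positivity
  have hδlow : 1 / (8 * (X : ℝ)) ≤ δ := by
    rw [hδ]
    exact div_le_div_of_nonneg_right hh0 (by positivity)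
  have hδle : δ ≤ (X : ℝ) ^ (-(1 / 2) : ℝ) := by
    rw [hδ, div_le_iff₀ (by positivity)]
    have e1 : (X : ℝ) ^ (-(1 / 2) : ℝ) * (8 * X) = 8 * (X : ℝ) ^ (1 / 2 : ℝ) := by
      have e2 : (X : ℝ) ^ (-(1 / 2) : ℝ) * X = (X : ℝ) ^ (1 / 2 : ℝ) := by
        nth_rewrite 2 [← Real.rpow_one (X : ℝ)]
        rw [← Real.rpow_add hX0]
        norm_num
      rw [← e2]
      ring
    rw [e1]
    have e3 : (X : ℝ) ^ (1 / 3 : ℝ) ≤ (X : ℝ) ^ (1 / 2 : ℝ) :=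
      Real.rpow_le_rpow_of_exponent_le hX1 (by norm_num)
    linarith
  have hδδ : δ ≤ δ₁ := by
    refine hδle.trans ?_
    rw [Real.rpow_neg hX0.le, hδ₁, ← one_div]
    refine one_div_le_one_div_of_le (by positivity) ?_
    calc Real.log N ^ B ≤ Lg ^ B := pow_le_pow_left₀ hlN0.le hlN2 _
      _ ≤ _ := by linarith
  have hδ1 : δ ≤ 1 := by
    refine hδle.trans ?_
    rw [Real.rpow_neg hX0.le]
    exact inv_le_one_of_one_le₀ hhalf
  have hδ₁le : δ₁ ≤ 2 ^ B / Lg ^ B := by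
    rw [hδ₁, div_le_div_iff₀ (by positivity) (by positivity), one_mul, ← mul_pow]
    exact pow_le_pow_left₀ hL0.le (by linarith) _
  -- size of the polynomial
  set M : ℕ := 2 ^ (siz l + l.length) with hM
  set S : ℝ := c3 * X * Lg ^ c2 with hS
  have hsizR : ((2 : ℝ)) ^ siz l ≤ 3 * N := by exact_mod_cast hl.up
  have hsiz : 1 + (siz l : ℝ) ≤ 4 * Lg := by
    have e2 : Real.log ((2 : ℝ) ^ siz l) ≤ Real.log ((X : ℝ) ^ 2) := by
      apply Real.log_le_log (by positivity)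
      nlinarith
    rw [Real.log_pow, Real.log_pow] at e2
    have e3 := Real.log_two_gt_d9
    have e4 : (0 : ℝ) ≤ siz l := by positivity
    push_cast at e2
    nlinarith
  have hDS : ∀ t, ‖PS Sp t‖ * ‖DP (cof Z l) M t‖ ≤ S := by
    intro t
    have e0 : ‖DP (cof Z l) M t‖ ≤ c2 * (3 * N) * (4 * Lg) ^ c2 := by
      refine (SI.var_DP_le _ _ _).trans ((hc2 Z l hl.l8).2.trans ?_)
      gcongr
    have e1 : ‖PS Sp t‖ ≤ P := (ep_PS_le _ _).trans s6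
    calc ‖PS Sp t‖ * ‖DP (cof Z l) M t‖ ≤ P * (c2 * (3 * N) * (4 * Lg) ^ c2) := by gcongr
      _ = c3 * (P * N) * Lg ^ c2 := by
          rw [hc3, mul_pow]
          ring
      _ ≤ S := by
          rw [hS]
          gcongr
  have hS0 : 0 ≤ S := by positivity
  have hc30 : 0 ≤ c3 := by positivity
  -- the polynomial is a product
  have hprod : ∀ t : ℝ, DP (cS Sp (cof Z l)) (2 * P * M) t = PS Sp t * DP (cof Z l) M t := by
    refine (h3 Sp (cof Z l) (2 * P) M ?_ ?_).1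
    · intro p hp
      rw [hSpdef, Sn, Finset.mem_filter, Finset.mem_Ioc] at hp
      constructor
      · omega
      · omega
    · intro n hn
      have e1 := hcofs Z l n hn
      have e2 : 1 ≤ 2 ^ siz l := Nat.one_le_two_pow
      exact ⟨by omega, e1.2⟩
  rw [(hP (cS Sp (cof Z l)) (2 * P * M) δ δ₁ hδ0 hδ₁0).2.2]
  set T₀ : ℝ := Lg ^ B₀ with hT₀
  set T₁ : ℝ := 8 * X * Lg ^ C₁ / h with hT₁
  have hT₁0 : 0 < T₁ := by positivity
  have hδT : δ * T₁ = Lg ^ C₁ := by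
    rw [hδ, hT₁]
    field_simp
  have hTT : T₀ ≤ T₁ := by
    rw [hT₁, le_div_iff₀ hhpos]
    have e1 : T₀ ≤ (X : ℝ) ^ (1 / 2 : ℝ) := by linarith
    have e2 : h ≤ (X : ℝ) ^ (1 / 2 : ℝ) :=
      hh2.trans (Real.rpow_le_rpow_of_exponent_le hX1 (by norm_num))
    have e3 : (X : ℝ) ^ (1 / 2 : ℝ) * (X : ℝ) ^ (1 / 2 : ℝ) = X := by
      rw [← Real.rpow_add hX0]
      norm_num
    have e4 : (1 : ℝ) ≤ Lg ^ C₁ := one_le_pow₀ hL1
    have e5 : T₀ * h ≤ (X : ℝ) ^ (1 / 2 : ℝ) * (X : ℝ) ^ (1 / 2 : ℝ) := by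
      gcongr
    nlinarith
  have hTP : T₁ * P ≤ X := by
    rw [hT₁, div_mul_eq_mul_div, div_le_iff₀ hhpos]
    have e1 : Lg ^ (B₁ + C₁ + 2) = Lg ^ B₁ * Lg ^ C₁ * Lg ^ 2 := by
      rw [pow_add, pow_add]
    have e2 : (16 : ℝ) ≤ Lg ^ 2 := by nlinarith
    have e3 : 16 * (Lg ^ B₁ * Lg ^ C₁) ≤ h := by
      refine le_trans ?_ hh1
      rw [e1, mul_comm]
      gcongr
    calc 8 * X * Lg ^ C₁ * P ≤ 8 * X * Lg ^ C₁ * (2 * Lg ^ B₁) := by gcongr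
      _ = X * (16 * (Lg ^ B₁ * Lg ^ C₁)) := by ring
      _ ≤ X * h := by gcongr
  have hEU2 := hEU' T₁ hTT hTP
  obtain ⟨hERi, hER2⟩ := hER' δ T₁ hδlow hδ1 hδT.ge hTP
  have hpi := Real.pi_gt_three
  have hpi0 : 0 < 2 * Real.pi := by positivity
  set R₀ : ℝ := T₀ / (2 * Real.pi) with hR₀
  set R₁ : ℝ := T₁ / (2 * Real.pi) with hR₁
  have hT₀0 : 0 < T₀ := by positivity
  have hR₀0 : 0 ≤ R₀ := by positivity
  have hR₀le : R₀ ≤ T₀ := by
    rw [hR₀]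
    exact div_le_self (by positivity) (by linarith)
  have hRR : R₀ ≤ R₁ := by
    rw [hR₀, hR₁]
    gcongr
  have hR₁m : 2 * Real.pi * R₁ = T₁ := by
    rw [hR₁, mul_div_cancel₀ _ hpi0.ne']
  have hR₀m : 2 * Real.pi * R₀ = T₀ := by
    rw [hR₀, mul_div_cancel₀ _ hpi0.ne']
  set W : ℝ → ℂ := 𝓕 (fun x => ((w x : ℝ) : ℂ)) with hWdef
  set F : ℝ → ℝ := fun t => (‖PS Sp t‖ * ‖DP (cof Z l) M t‖) ^ 2 with hF
  have hF0 : ∀ t, 0 ≤ F t := fun t => by positivity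
  have hFc : Continuous F := by
    have e1 := SI.var_DP_cont (cof Z l) M
    have e2 := ep_PS_cont Sp
    simp only [hF]
    fun_prop
  have hFS : ∀ t, F t ≤ S ^ 2 := fun t => by
    have := hDS t
    simp only [hF]
    gcongr
  have hFabs : ∀ t, F |t| = F t := by
    intro t
    rcases le_or_gt 0 t with c | c
    · rw [abs_of_nonneg c]
    · rw [abs_of_neg c]
      simp only [hF]
      rw [ep_PS_neg, SI.var_DP_neg]
  set Kf : ℝ → ℝ := fun t => (1 / (1 + δ * t) ^ 4) * F t with hKf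
  set a : ℝ := (CL * (δ₁ * R₀)) ^ 2 * S ^ 2 with ha
  set b : ℝ := 4 * C2 ^ 2 * (2 * Real.pi) ^ 4 with hb
  have hsp := ep_split (fun ξ => ‖W (δ * ξ) - W (δ₁ * ξ)‖ ^ 2)
    (fun ξ => F (2 * Real.pi * ξ)) (fun ξ => Kf (2 * Real.pi * ξ)) R₀ R₁ a (4 * C0 ^ 2) b hR₀0 hRR
    (by positivity) (by positivity) (fun _ => by positivity) (fun _ => hF0 _)
    (by fun_prop)
    (by
      intro x
      rw [← hFabs (2 * Real.pi * -x), ← hFabs (2 * Real.pi * x), mul_neg, abs_neg])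
    (by
      intro x hx
      have := hF0 (2 * Real.pi * x)
      simp only [hKf]
      positivity)
    (by
      have e1 := (integrableOn_Ioi_comp_mul_left_iff Kf R₁ hpi0).2 (by
        rw [hR₁m]
        exact hERi)
      exact e1)
    (by
      intro x hx
      have e1 : ‖W (δ * x) - W (δ₁ * x)‖ ≤ CL * (δ₁ * R₀) := by
        refine (hLip _ _).trans ?_
        have e2 : |δ * x - δ₁ * x| ≤ δ₁ * R₀ := by
          rw [← sub_mul, abs_mul, abs_of_nonpos (by linarith : δ - δ₁ ≤ 0)]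
          have : -(δ - δ₁) ≤ δ₁ := by linarith
          gcongr
        gcongr
      rw [ha]
      have e3 := hFS (2 * Real.pi * x)
      have e4 := hF0 (2 * Real.pi * x)
      gcongr)
    (by
      intro x
      have e1 : ∀ ξ, ‖W ξ‖ ≤ C0 := by
        intro ξ
        have := hW0 ξ
        simpa using this
      have e2 : ‖W (δ * x) - W (δ₁ * x)‖ ≤ 2 * C0 := by
        refine (norm_sub_le _ _).trans ?_
        linarith [e1 (δ * x), e1 (δ₁ * x)]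
      calc ‖W (δ * x) - W (δ₁ * x)‖ ^ 2 ≤ (2 * C0) ^ 2 := by gcongr
        _ = 4 * C0 ^ 2 := by ring)
    (by
      intro x hx
      have q0 : 0 < 1 + δ * |x| := by positivity
      have e1 : ‖W (δ * x)‖ ≤ C2 / (1 + δ * |x|) ^ 2 := by
        have := hW2 (δ * x)
        rwa [abs_mul, abs_of_pos hδ0] at this
      have e2 : ‖W (δ₁ * x)‖ ≤ C2 / (1 + δ * |x|) ^ 2 := by
        have := hW2 (δ₁ * x)
        rw [abs_mul, abs_of_pos hδ₁0] at this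
        refine this.trans ?_
        gcongr
      have e3 : ‖W (δ * x) - W (δ₁ * x)‖ ≤ 2 * (C2 / (1 + δ * |x|) ^ 2) := by
        refine (norm_sub_le _ _).trans ?_
        linarith
      have q1 : 0 < 1 + δ * (2 * Real.pi * |x|) := by positivity
      have e4 : 1 + δ * (2 * Real.pi * |x|) ≤ 2 * Real.pi * (1 + δ * |x|) := by
        nlinarith [mul_nonneg hδ0.le (abs_nonneg x)]
      have e5 : (1 + δ * (2 * Real.pi * |x|)) ^ 4 ≤
          (2 * Real.pi) ^ 4 * (1 + δ * |x|) ^ 4 := by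
        rw [← mul_pow]
        exact pow_le_pow_left₀ q1.le e4 _
      have e6 : ‖W (δ * x) - W (δ₁ * x)‖ ^ 2 ≤
          b * (1 / (1 + δ * (2 * Real.pi * |x|)) ^ 4) := by
        calc ‖W (δ * x) - W (δ₁ * x)‖ ^ 2 ≤ (2 * (C2 / (1 + δ * |x|) ^ 2)) ^ 2 := by gcongr
          _ = 4 * C2 ^ 2 * (1 / (1 + δ * |x|) ^ 4) := by
            field_simp
            ring
          _ ≤ 4 * C2 ^ 2 * ((2 * Real.pi) ^ 4 / (1 + δ * (2 * Real.pi * |x|)) ^ 4) := by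
            gcongr 4 * C2 ^ 2 * ?_
            rw [div_le_div_iff₀ (by positivity) (by positivity), one_mul]
            exact e5
          _ = b * (1 / (1 + δ * (2 * Real.pi * |x|)) ^ 4) := by
            rw [hb]
            ring
      have e7 : F (2 * Real.pi * |x|) = F (2 * Real.pi * x) := by
        rw [← hFabs (2 * Real.pi * x), abs_mul, abs_of_pos hpi0]
      have e8 := hF0 (2 * Real.pi * x)
      calc ‖W (δ * x) - W (δ₁ * x)‖ ^ 2 * F (2 * Real.pi * x) ≤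
          (b * (1 / (1 + δ * (2 * Real.pi * |x|)) ^ 4)) * F (2 * Real.pi * x) := by gcongr
        _ = b * Kf (2 * Real.pi * |x|) := by
            simp only [hKf]
            rw [e7]
            ring)
  have hcongr : ∀ ξ : ℝ, ‖W (δ * ξ) - W (δ₁ * ξ)‖ ^ 2 *
      ‖DP (cS Sp (cof Z l)) (2 * P * M) (2 * Real.pi * ξ)‖ ^ 2 =
      ‖W (δ * ξ) - W (δ₁ * ξ)‖ ^ 2 * F (2 * Real.pi * ξ) := by
    intro ξ
    rw [hprod, norm_mul]
  rw [integral_congr_ae (Eventually.of_forall hcongr)]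
  refine hsp.trans ?_
  -- the three parts
  have p1 : 2 * R₀ * a ≤ (X : ℝ) ^ 2 / Lg ^ (A + 1) := by
    rw [le_div_iff₀ (by positivity), ha, hS]
    calc 2 * R₀ * ((CL * (δ₁ * R₀)) ^ 2 * (c3 * X * Lg ^ c2) ^ 2) * Lg ^ (A + 1)
        = (2 * CL ^ 2 * c3 ^ 2) * (X : ℝ) ^ 2 * (δ₁ ^ 2 * (R₀ ^ 3 * Lg ^ (2 * c2 + A + 1))) := by
          ring
      _ ≤ (2 * CL ^ 2 * c3 ^ 2) * (X : ℝ) ^ 2 *
          ((2 ^ B / Lg ^ B) ^ 2 * (T₀ ^ 3 * Lg ^ (2 * c2 + A + 1))) := by gcongr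
      _ = (2 * CL ^ 2 * c3 ^ 2 * 4 ^ B) * (X : ℝ) ^ 2 *
          (Lg ^ (3 * B₀ + (2 * c2 + A + 1)) / Lg ^ (2 * B)) := by
          have e1 : (2 ^ B / Lg ^ B) ^ 2 = 4 ^ B / Lg ^ (2 * B) := by
            rw [div_pow, ← pow_mul, ← pow_mul, mul_comm B 2, pow_mul]
            norm_num
          have e2 : T₀ ^ 3 * Lg ^ (2 * c2 + A + 1) = Lg ^ (3 * B₀ + (2 * c2 + A + 1)) := by
            rw [hT₀, ← pow_mul, ← pow_add, mul_comm B₀ 3]
          rw [e1, e2]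
          ring
      _ ≤ Lg * (X : ℝ) ^ 2 * (Lg ^ (3 * B₀ + (2 * c2 + A + 1)) / Lg ^ (2 * B)) := by gcongr
      _ = (X : ℝ) ^ 2 * (Lg ^ (1 + (3 * B₀ + (2 * c2 + A + 1))) / Lg ^ (2 * B)) := by
          rw [pow_add Lg 1, pow_one]
          ring
      _ ≤ (X : ℝ) ^ 2 * 1 := by
          gcongr
          rw [div_le_one (by positivity)]
          exact pow_le_pow_right₀ hL1 (by omega)
      _ = (X : ℝ) ^ 2 := mul_one _
  have hpinv : (2 * Real.pi)⁻¹ ≤ 1 := inv_le_one_of_one_le₀ (by linarith)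
  have hXL : 0 < (X : ℝ) ^ 2 / Lg ^ (A + 2) := by positivity
  have p2 : 2 * (4 * C0 ^ 2) * (∫ x in R₀..R₁, F (2 * Real.pi * x)) ≤
      (X : ℝ) ^ 2 / Lg ^ (A + 1) := by
    have e1 : ∫ x in R₀..R₁, F (2 * Real.pi * x) = (2 * Real.pi)⁻¹ * ∫ t in T₀..T₁, F t := by
      rw [intervalIntegral.integral_comp_mul_left F hpi0.ne', smul_eq_mul, hR₀m, hR₁m]
    rw [e1]
    calc 2 * (4 * C0 ^ 2) * ((2 * Real.pi)⁻¹ * ∫ t in T₀..T₁, F t)
        ≤ 2 * (4 * C0 ^ 2) * ((2 * Real.pi)⁻¹ * ((X : ℝ) ^ 2 / Lg ^ (A + 2))) := by gcongr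
      _ ≤ 2 * (4 * C0 ^ 2) * (1 * ((X : ℝ) ^ 2 / Lg ^ (A + 2))) := by gcongr
      _ ≤ Lg * ((X : ℝ) ^ 2 / Lg ^ (A + 2)) := by
          rw [one_mul]
          gcongr
          linarith
      _ = (X : ℝ) ^ 2 / Lg ^ (A + 1) := by
          field_simp
          ring
  have p3 : 2 * b * (∫ x in Set.Ioi R₁, Kf (2 * Real.pi * x)) ≤
      (X : ℝ) ^ 2 / Lg ^ (A + 1) := by
    have e1 : ∫ x in Set.Ioi R₁, Kf (2 * Real.pi * x) =
        (2 * Real.pi)⁻¹ * ∫ t in Set.Ioi T₁, Kf t := by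
      rw [integral_comp_mul_left_Ioi Kf R₁ hpi0, smul_eq_mul, hR₁m]
    rw [e1]
    calc 2 * b * ((2 * Real.pi)⁻¹ * ∫ t in Set.Ioi T₁, Kf t)
        ≤ 2 * b * ((2 * Real.pi)⁻¹ * ((X : ℝ) ^ 2 / Lg ^ (A + 2))) := by gcongr
      _ ≤ 2 * b * (1 * ((X : ℝ) ^ 2 / Lg ^ (A + 2))) := by gcongr
      _ ≤ Lg * ((X : ℝ) ^ 2 / Lg ^ (A + 2)) := by
          rw [one_mul]
          gcongr
          rw [hb]
          linarith
      _ = (X : ℝ) ^ 2 / Lg ^ (A + 1) := by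
          field_simp
          ring
  calc 2 * R₀ * a + 2 * (4 * C0 ^ 2) * (∫ x in R₀..R₁, F (2 * Real.pi * x)) +
        2 * b * (∫ x in Set.Ioi R₁, Kf (2 * Real.pi * x)) ≤
        4 * ((X : ℝ) ^ 2 / Lg ^ (A + 1)) := by
          have : 0 < (X : ℝ) ^ 2 / Lg ^ (A + 1) := by positivity
          linarith
    _ ≤ Lg * ((X : ℝ) ^ 2 / Lg ^ (A + 1)) := by gcongr
    _ = (X : ℝ) ^ 2 / Lg ^ A := by
      field_simp
      ring

end Pool.Agent.E2P
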