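import Mathlib
import Pool.Agent.E2P.St
import Pool.Agent.SI.T4
import Pool.Agent.SI.Var

set_option autoImplicit false

/-!
# E2P / EQ

Every dense set of `q` (`thm_EQ`), and the theorem (`thm_EF`).
-/

namespace Pool.Agent.E2P

open Finset Filter
open Pool.Agent.SI (t4_div var_log_large)
open Pool.Agent.EVN (DensP BigP)

/-- the elements of a cell -/
lemma eq_cel {B : ℝ} {n m j : ℕ} (hm : 1 ≤ m) (hj1 : 1 ≤ j) (hj2 : 4 * (m * j) ≤ 3 * n)
    (h4 : 4 * m ≤ n) {a : ℕ} (ha : a ∈ Cel B n m j) : a < n ∧ Es B a ∧ (n - a) / m = j := by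
  classical
  unfold Cel at ha
  rw [mem_filter, mem_Ioc] at ha
  obtain ⟨⟨h1, h2⟩, h3⟩ := ha
  have e1 : m * (j + 1) = m * j + m := by ring
  have e2 : 0 < m * j := Nat.mul_pos (by omega) (by omega)
  exact ⟨by omega, h3, t4_div (by omega) h1 h2⟩

theorem thm_EQ (h : St_EC) : St_EQ := by
  classical
  intro A
  obtain ⟨C, n₀, hC⟩ := h (A + 1)
  obtain ⟨n₁, hn₁⟩ := eventually_atTop.1 (var_log_large 2)
  refine ⟨C, max n₀ n₁, ?_⟩
  intro n hn m hm hmn Q hQ hQc
  have hn0 : n₀ ≤ n := (le_max_left _ _).trans hn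
  have hn1 : n₁ ≤ n := (le_max_right _ _).trans hn
  have hL2 : (2 : ℝ) ≤ Real.log n := hn₁ n hn1
  have hbad := hC n hn0 m hm hmn
  set L : ℝ := Real.log n with hL
  have hLp : 0 < L := by linarith
  have hm1R : (1 : ℝ) ≤ m := (one_le_pow₀ (by linarith : (1 : ℝ) ≤ L)).trans hm
  have hm1 : 1 ≤ m := by exact_mod_cast hm1R
  set Bd : Finset ℕ := (Icc 1 (3 * n / (4 * m))).filter
    (fun j => ((Cel (L ^ C) n m j).card : ℝ) < m / L ^ 4) with hBd
  -- the good `q`
  have hsub : Q \ (Q \ Bd) ⊆ Bd := by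
    intro q hq
    rw [Finset.mem_sdiff, Finset.mem_sdiff] at hq
    tauto
  have hcard : (Q.card : ℝ) / 2 ≤ ((Q \ Bd).card : ℝ) := by
    have e1 : Q.card ≤ (Q \ Bd).card + Bd.card := by
      have e2 := card_le_card hsub
      have e3 := card_sdiff_add_card_eq_card (sdiff_subset : Q \ Bd ⊆ Q)
      omega
    have e2 : (Q.card : ℝ) ≤ (Q \ Bd).card + Bd.card := by exact_mod_cast e1
    have e3 : (Bd.card : ℝ) ≤ Q.card / 2 := by
      have e4 : (n : ℝ) / m / L ^ (A + 1) = (n : ℝ) / m / L ^ A / L := by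
        rw [pow_succ]
        field_simp
      rw [e4] at hbad
      have e5 : (n : ℝ) / m / L ^ A / L ≤ (Q.card : ℝ) / L :=
        div_le_div_of_nonneg_right hQc hLp.le
      have e6 : (Q.card : ℝ) / L ≤ Q.card / 2 :=
        div_le_div_of_nonneg_left (Nat.cast_nonneg _) (by norm_num) hL2
      exact hbad.trans (e5.trans e6)
    linarith
  -- the fibers
  set G : Finset ℕ := Q \ Bd with hG
  have hfib : (SolS (L ^ C) Q m n).card =
      ∑ q ∈ Q, ((SolS (L ^ C) Q m n).filter (fun a => (n - a) / m = q)).card := by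
    apply card_eq_sum_card_fiberwise
    intro a ha
    have ha' : a ∈ SolS (L ^ C) Q m n := ha
    unfold SolS at ha'
    rw [mem_filter] at ha'
    exact ha'.2.2
  have hgood : ∀ q ∈ G, (m : ℝ) / L ^ 4 ≤
      (((SolS (L ^ C) Q m n).filter (fun a => (n - a) / m = q)).card : ℝ) := by
    intro q hq
    rw [hG, Finset.mem_sdiff] at hq
    obtain ⟨hq1, hq2⟩ := hq
    obtain ⟨hq3, hq4⟩ := hQ q hq1
    have e1 : (m : ℝ) / L ^ 4 ≤ ((Cel (L ^ C) n m q).card : ℝ) := by
      by_contra hcon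
      push Not at hcon
      apply hq2
      rw [hBd, mem_filter, mem_Icc]
      refine ⟨⟨hq3, ?_⟩, hcon⟩
      rw [Nat.le_div_iff_mul_le (by omega)]
      calc q * (4 * m) = 4 * (m * q) := by ring
        _ ≤ 3 * n := hq4
    refine e1.trans ?_
    have e2 : Cel (L ^ C) n m q ⊆
        (SolS (L ^ C) Q m n).filter (fun a => (n - a) / m = q) := by
      intro a ha
      obtain ⟨h1, h2, h3⟩ := eq_cel hm1 hq3 hq4 hmn ha
      rw [mem_filter]
      refine ⟨?_, h3⟩
      unfold SolS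
      rw [mem_filter, mem_range, h3]
      exact ⟨h1, h2, hq1⟩
    exact_mod_cast card_le_card e2
  calc (Q.card : ℝ) * m / (2 * L ^ 4) = (Q.card / 2 : ℝ) * (m / L ^ 4) := by
        field_simp
    _ ≤ (G.card : ℝ) * (m / L ^ 4) := mul_le_mul_of_nonneg_right hcard (by positivity)
    _ = ∑ _q ∈ G, (m : ℝ) / L ^ 4 := by rw [sum_const, nsmul_eq_mul]
    _ ≤ ∑ q ∈ G, (((SolS (L ^ C) Q m n).filter (fun a => (n - a) / m = q)).card : ℝ) :=
        sum_le_sum hgood
    _ ≤ ∑ q ∈ Q, (((SolS (L ^ C) Q m n).filter (fun a => (n - a) / m = q)).card : ℝ) :=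
        sum_le_sum_of_subset_of_nonneg sdiff_subset (fun _ _ _ => Nat.cast_nonneg _)
    _ = ((SolS (L ^ C) Q m n).card : ℝ) := by
        rw [hfib]
        push_cast
        rfl

theorem thm_EF (h : St_EQ) : St_EF := by
  classical
  intro Φ h2 h3
  obtain ⟨C, n₀, hC⟩ := h 4
  obtain ⟨c, n₁, hc, hQK⟩ := h2
  obtain ⟨n₂, hn₂⟩ := h3
  obtain ⟨n₃, hn₃⟩ := eventually_atTop.1 (var_log_large (2 + 192 / (5 * c)))
  refine ⟨C, max (max n₀ n₁) (max n₂ n₃), ?_⟩
  intro n hn m hm hmn2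
  have hn0 : n₀ ≤ n := ((le_max_left _ _).trans (le_max_left _ _)).trans hn
  have hn1 : n₁ ≤ n := ((le_max_right _ _).trans (le_max_left _ _)).trans hn
  have hn2 : n₂ ≤ n := ((le_max_left _ _).trans (le_max_right _ _)).trans hn
  have hn3 : n₃ ≤ n := ((le_max_right _ _).trans (le_max_right _ _)).trans hn
  rcases Nat.lt_or_ge n (12 * m) with h12 | h12
  · -- large `m`
    obtain ⟨p, hp, hpn, hpq, hpΦ⟩ := hn₂ n hn2 m h12 hmn2
    refine ⟨⟨p, ?_⟩, fun h => absurd h (by omega)⟩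
    unfold SolE
    rw [mem_filter, mem_range]
    exact ⟨hpn, Or.inl hp, hpq, hpΦ⟩
  -- `12 m ≤ n`
  have hLc : 2 + 192 / (5 * c) ≤ Real.log n := hn₃ n hn3
  set L : ℝ := Real.log n with hL
  have hc1 : 0 < 192 / (5 * c) := by positivity
  have hL2 : 2 ≤ L := by linarith
  have hLp : 0 < L := by linarith
  have hcL : 192 ≤ L * (5 * c) := by
    have : 192 / (5 * c) ≤ L := by linarith
    rwa [div_le_iff₀ (by positivity)] at this
  have hm1R : (1 : ℝ) ≤ m := (one_le_pow₀ (by linarith : (1 : ℝ) ≤ L)).trans hm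
  have hm1 : 1 ≤ m := by exact_mod_cast hm1R
  have hm0 : (0 : ℝ) < m := by linarith
  have hnpos : 0 < n := by omega
  have hn0' : (0 : ℝ) < n := by exact_mod_cast hnpos
  set k : ℕ := n / (2 * m) with hk
  have hk2 : 2 ≤ k := by
    rw [hk, Nat.le_div_iff_mul_le (by omega)]
    omega
  have hkn : k ≤ n := Nat.div_le_self n (2 * m)
  obtain ⟨S, hS, hScard⟩ := hQK n hn1 k hk2 hkn
  have hkm : 2 * m * k ≤ n := Nat.mul_div_le n (2 * m)
  have hkm2 : n < 2 * m * (k + 1) := by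
    have := Nat.lt_mul_div_succ n (show 0 < 2 * m by omega)
    rw [hk]
    exact this
  have hlk : Real.log k ≤ L := by
    apply Real.log_le_log
    · have : 0 < k := by omega
      exact_mod_cast this
    · exact_mod_cast hkn
  have hlk0 : 0 ≤ Real.log k := Real.log_nonneg (by
    have : 1 ≤ k := by omega
    exact_mod_cast this)
  have hkmR : 5 * (n : ℝ) / 12 ≤ k * m := by
    have e1 : 5 * n ≤ 12 * (k * m) := by
      have e2 : 2 * m * (k + 1) = 2 * (k * m) + 2 * m := by ring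
      omega
    have e2 : 5 * (n : ℝ) ≤ 12 * (k * m) := by exact_mod_cast e1
    linarith
  have hSlow : 5 * c * n / (96 * L ^ 3) ≤ (S.card : ℝ) * m := by
    have e1 : c * k / (8 * L ^ 3) ≤ S.card := by
      refine le_trans ?_ hScard
      apply div_le_div_of_nonneg_left (by positivity) (by positivity)
      calc (1 + Real.log k) ^ 3 ≤ (2 * L) ^ 3 := by
            apply pow_le_pow_left₀ (by linarith)
            linarith
        _ = 8 * L ^ 3 := by ring
    calc 5 * c * n / (96 * L ^ 3) = c * (5 * n / 12) / (8 * L ^ 3) := by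
          field_simp
          ring
      _ ≤ c * (k * m) / (8 * L ^ 3) := by
          apply div_le_div_of_nonneg_right _ (by positivity)
          exact mul_le_mul_of_nonneg_left hkmR hc.le
      _ = c * k / (8 * L ^ 3) * m := by ring
      _ ≤ (S.card : ℝ) * m := mul_le_mul_of_nonneg_right e1 hm0.le
  have hSq : ∀ q ∈ S, 1 ≤ q ∧ 4 * (m * q) ≤ 3 * n := by
    intro q hq
    obtain ⟨hq1, hq2, _⟩ := hS q hq
    have e1 : m * q ≤ m * k := Nat.mul_le_mul_left m hq1
    have e2 : 2 * (m * k) ≤ n := by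
      calc 2 * (m * k) = 2 * m * k := by ring
        _ ≤ n := hkm
    exact ⟨hq2.one_lt.le, by omega⟩
  have hdens : (n : ℝ) / m / L ^ 4 ≤ (S.card : ℝ) := by
    rw [div_div, div_le_iff₀ (by positivity)]
    have e1 : (n : ℝ) ≤ 5 * c * n / (96 * L ^ 3) * L ^ 4 := by
      have e2 : 5 * c * n / (96 * L ^ 3) * L ^ 4 = (L * (5 * c)) * n / 96 := by
        field_simp
      rw [e2, le_div_iff₀ (by norm_num)]
      nlinarith
    calc (n : ℝ) ≤ 5 * c * n / (96 * L ^ 3) * L ^ 4 := e1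
      _ ≤ (S.card : ℝ) * m * L ^ 4 := mul_le_mul_of_nonneg_right hSlow (by positivity)
      _ = (S.card : ℝ) * (m * L ^ 4) := by ring
  have hQ := hC n hn0 m hm (by omega) S hSq hdens
  have hmain : (n : ℝ) / L ^ 8 ≤ ((SolS (L ^ C) S m n).card : ℝ) := by
    refine le_trans ?_ hQ
    calc (n : ℝ) / L ^ 8 ≤ 5 * c * n / (96 * L ^ 3) / (2 * L ^ 4) := by
          have e2 : 5 * c * n / (96 * L ^ 3) / (2 * L ^ 4) = (L * (5 * c)) * n / (192 * L ^ 8) := by
            field_simp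
            ring
          rw [e2, div_le_div_iff₀ (by positivity) (by positivity)]
          have e3 : 192 * n ≤ L * (5 * c) * n := mul_le_mul_of_nonneg_right hcL hn0'.le
          calc (n : ℝ) * (192 * L ^ 8) = 192 * n * L ^ 8 := by ring
            _ ≤ L * (5 * c) * n * L ^ 8 := mul_le_mul_of_nonneg_right e3 (by positivity)
      _ ≤ (S.card : ℝ) * m / (2 * L ^ 4) := div_le_div_of_nonneg_right hSlow (by positivity)
  have hsub : SolS (L ^ C) S m n ⊆ SolE Φ (L ^ C) m n := by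
    intro a ha
    unfold SolS at ha
    rw [mem_filter, mem_range] at ha
    obtain ⟨h1, h2, h3⟩ := ha
    obtain ⟨_, hq1, hq2⟩ := hS _ h3
    unfold SolE
    rw [mem_filter, mem_range]
    exact ⟨h1, h2, hq1, hq2⟩
  have hne : (SolS (L ^ C) S m n).Nonempty := by
    rw [← card_pos]
    have e1 : (0 : ℝ) < ((SolS (L ^ C) S m n).card : ℝ) := lt_of_lt_of_le (by positivity) hmain
    exact_mod_cast e1
  refine ⟨hne.mono hsub, fun _ => hmain.trans ?_⟩
  exact_mod_cast card_le_card hsub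

end Pool.Agent.E2P
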