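import Mathlib
import Pool.Agent.E2P.St
import Pool.Agent.SI.Var

set_option autoImplicit false

/-!
# E2P: the module ER
-/

namespace Pool.Agent.E2P

open Finset Filter MeasureTheory
open Pool.Agent.SI (nit DP fac cof siz IsW Wd var_log_large var_DP_cont var_norm_nit)

/-- dyadic summation of the tail -/
lemma er_tail (g : ℝ → ℝ) (hg : Continuous g) (hg0 : ∀ t, 0 ≤ g t) (δ T₁ R K : ℝ) (hT : 0 < T₁)
    (hδ : 0 < δ) (hR : 0 < R) (hRT : R ≤ δ * T₁) (hK : 0 ≤ K)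
    (hI : ∀ j : ℕ, ∫ t in (-(2 ^ (j + 1) * T₁))..(2 ^ (j + 1) * T₁), g t ≤ K * 2 ^ (j + 1)) :
    IntegrableOn (fun t => (1 / (1 + δ * t) ^ 4) * g t) (Set.Ioi T₁) ∧
    ∫ t in Set.Ioi T₁, (1 / (1 + δ * t) ^ 4) * g t ≤ 4 * K / R ^ 4 := by
  set f : ℝ → ℝ := fun t => (1 / (1 + δ * t) ^ 4) * g t with hf
  have hfc : ContinuousOn f (Set.Ici 0) := by
    refine ContinuousOn.mul ?_ hg.continuousOn
    refine ContinuousOn.div continuousOn_const (by fun_prop) ?_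
    intro t ht
    have h0 : (0 : ℝ) ≤ t := ht
    positivity
  have hf0 : ∀ t, 0 ≤ f t := fun t =>
    mul_nonneg (by rw [one_div, inv_nonneg]; exact Even.pow_nonneg (by decide) _) (hg0 t)
  have hfi : ∀ a b : ℝ, 0 ≤ a → 0 ≤ b → IntervalIntegrable f volume a b := by
    intro a b ha hb
    refine ContinuousOn.intervalIntegrable (hfc.mono ?_)
    intro x hx
    exact le_trans (le_min ha hb) hx.1
  have hpow : ∀ j : ℕ, (0 : ℝ) < 2 ^ j * T₁ := fun j => by positivity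
  have piece : ∀ j : ℕ, ∫ t in (2 ^ j * T₁)..(2 ^ (j + 1) * T₁), f t ≤
      4 * K / R ^ 4 * (1 / 2) ^ (j + 1) := by
    intro j
    have hle : 2 ^ j * T₁ ≤ 2 ^ (j + 1) * T₁ := by
      have h2 : (2 : ℝ) ^ (j + 1) = 2 * 2 ^ j := by ring
      rw [h2]
      nlinarith [hpow j]
    have e1 : ∫ t in (2 ^ j * T₁)..(2 ^ (j + 1) * T₁), f t ≤
        ∫ t in (2 ^ j * T₁)..(2 ^ (j + 1) * T₁), (1 / (2 ^ j * R) ^ 4) * g t := by
      refine intervalIntegral.integral_mono_on hle (hfi _ _ (hpow _).le (hpow _).le)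
        ((hg.const_mul _).intervalIntegrable _ _) ?_
      intro t ht
      refine mul_le_mul_of_nonneg_right ?_ (hg0 t)
      have e2 : 2 ^ j * R ≤ 1 + δ * t := by
        calc 2 ^ j * R ≤ 2 ^ j * (δ * T₁) := by gcongr
          _ = δ * (2 ^ j * T₁) := by ring
          _ ≤ δ * t := by
            have := ht.1
            gcongr
          _ ≤ 1 + δ * t := by linarith
      exact one_div_le_one_div_of_le (by positivity) (pow_le_pow_left₀ (by positivity) e2 4)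
    have e3 : ∫ t in (2 ^ j * T₁)..(2 ^ (j + 1) * T₁), g t ≤ K * 2 ^ (j + 1) := by
      refine le_trans ?_ (hI j)
      refine intervalIntegral.integral_mono_interval (by linarith [hpow j, hpow (j + 1)]) hle le_rfl
        (Eventually.of_forall hg0) (hg.intervalIntegrable _ _)
    rw [intervalIntegral.integral_const_mul] at e1
    refine e1.trans ?_
    calc (1 / (2 ^ j * R) ^ 4) * ∫ t in (2 ^ j * T₁)..(2 ^ (j + 1) * T₁), g t ≤
        (1 / (2 ^ j * R) ^ 4) * (K * 2 ^ (j + 1)) := by gcongr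
      _ = 4 * K / R ^ 4 * ((1 / 2) ^ (j + 1) * (1 / (2 ^ j) ^ 2)) := by
        have h1 : (1 / 2 : ℝ) ^ (j + 1) = 1 / (2 * 2 ^ j) := by
          rw [div_pow, one_pow, pow_succ]
          ring
        rw [h1]
        field_simp
        ring
      _ ≤ 4 * K / R ^ 4 * ((1 / 2) ^ (j + 1) * 1) := by
        gcongr
        rw [div_le_one (by positivity)]
        exact one_le_pow₀ (one_le_pow₀ (by norm_num))
      _ = _ := by rw [mul_one]
  have main : ∀ j : ℕ, ∫ t in T₁..(2 ^ j * T₁), f t ≤ 4 * K / R ^ 4 * (1 - (1 / 2) ^ j) := by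
    intro j
    induction j with
    | zero => simp
    | succ j ih =>
      rw [← intervalIntegral.integral_add_adjacent_intervals
        (hfi T₁ (2 ^ j * T₁) hT.le (hpow _).le) (hfi _ _ (hpow _).le (hpow _).le)]
      have h1 := piece j
      have h2 : 4 * K / R ^ 4 * (1 - (1 / 2) ^ (j + 1)) =
          4 * K / R ^ 4 * (1 - (1 / 2) ^ j) + 4 * K / R ^ 4 * (1 / 2) ^ (j + 1) := by
        rw [pow_succ]
        ring
      rw [h2]
      exact add_le_add ih h1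
  have hKR : 0 ≤ 4 * K / R ^ 4 := by positivity
  have main2 : ∀ j : ℕ, ∫ t in T₁..(2 ^ j * T₁), f t ≤ 4 * K / R ^ 4 := by
    intro j
    refine (main j).trans ?_
    have : (0 : ℝ) ≤ (1 / 2) ^ j := by positivity
    nlinarith
  have htop : Tendsto (fun j : ℕ => (2 : ℝ) ^ j * T₁) atTop atTop :=
    (tendsto_pow_atTop_atTop_of_one_lt (by norm_num)).atTop_mul_const hT
  have hint : IntegrableOn f (Set.Ioi T₁) := by
    refine integrableOn_Ioi_of_intervalIntegral_norm_bounded (4 * K / R ^ 4) T₁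
      (b := fun j : ℕ => (2 : ℝ) ^ j * T₁) (l := atTop) ?_ htop ?_
    · intro j
      exact (hfi T₁ (2 ^ j * T₁) hT.le (hpow _).le).1
    · refine Eventually.of_forall fun j => ?_
      have : ∀ t, ‖f t‖ = f t := fun t => Real.norm_of_nonneg (hf0 t)
      simp only [this]
      exact main2 j
  refine ⟨hint, ?_⟩
  exact le_of_tendsto' (intervalIntegral_tendsto_integral_Ioi T₁ hint htop) main2

lemma er_PS_le (B₁ X : ℕ) (t : ℝ) : ‖PS (Sn B₁ X) t‖ ≤ Pn B₁ X := by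
  unfold PS
  refine (norm_sum_le _ _).trans ?_
  have e1 : ∑ p ∈ Sn B₁ X, ‖nit t p‖ = ((Sn B₁ X).card : ℝ) := by
    rw [sum_congr rfl (fun p _ => var_norm_nit t p), sum_const, nsmul_eq_mul, mul_one]
  rw [e1]
  have e2 : (Sn B₁ X).card ≤ Pn B₁ X := by
    refine (card_filter_le _ _).trans ?_
    rw [Nat.card_Ioc]
    omega
  exact_mod_cast e2

lemma er_PS_cont (S : Finset ℕ) : Continuous (fun t => PS S t) := by
  unfold PS nit
  fun_prop

lemma er_siz {X N Z : ℕ} {l : List (ℕ × ℕ)} (h : IsBox N Z l) (hX : 3 ≤ X) (hN : N ≤ X)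
    (hL : 3 ≤ Real.log X) : 1 + (siz l : ℝ) ≤ 4 * Real.log X := by
  have hXR : (3 : ℝ) ≤ X := by exact_mod_cast hX
  have hNR : (N : ℝ) ≤ X := by exact_mod_cast hN
  have e1 : ((2 : ℝ)) ^ siz l ≤ 3 * N := by exact_mod_cast h.up
  have e2 : Real.log ((2 : ℝ) ^ siz l) ≤ Real.log ((X : ℝ) ^ 2) := by
    apply Real.log_le_log (by positivity)
    nlinarith
  rw [Real.log_pow, Real.log_pow] at e2
  have e3 := Real.log_two_gt_d9
  have e4 : (0 : ℝ) ≤ siz l := by positivity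
  push_cast at e2
  nlinarith

set_option maxHeartbeats 4000000 in
/-- ER. -/
theorem thm_ER (h1 : Pool.Agent.SI.St_MV) (h2 : Pool.Agent.SI.St_Cof) : St_ER := by
  intro A
  obtain ⟨C, hC, hMV⟩ := h1
  obtain ⟨-, -, c2, hc2⟩ := h2
  refine ⟨A + c2 + 2, by omega, ?_⟩
  intro B₁ hB₁
  set K₀ : ℝ := C * (3 * c2 * 4 ^ c2) * 6145 with hK₀
  have hK₀0 : 0 ≤ K₀ := by positivity
  obtain ⟨X₀, hX₀⟩ := eventually_atTop.mp ((eventually_ge_atTop 3).and
    ((var_log_large 3).and (var_log_large (4 * K₀))))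
  refine ⟨X₀, ?_⟩
  intro X hX Z l hl δ T₁ hδ hδ1 hLT hTP
  obtain ⟨hX3, hL3, hLK⟩ := hX₀ X hX
  set L := Real.log X with hLd
  set P := Pn B₁ X with hP
  set N := Nn B₁ X with hN
  set M : ℕ := 2 ^ (siz l + l.length) with hM
  have hXR : (3 : ℝ) ≤ X := by exact_mod_cast hX3
  have hX0 : (0 : ℝ) < X := by linarith
  have hL1 : 1 ≤ L := by linarith
  have hL0 : 0 < L := by linarith
  have hδ0 : 0 < δ := lt_of_lt_of_le (by positivity) hδ
  have hLC1 : 1 ≤ L ^ (A + c2 + 2) := one_le_pow₀ hL1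
  have hT0 : 0 < T₁ := by
    by_contra hn
    have : δ * T₁ ≤ 0 := mul_nonpos_of_nonneg_of_nonpos hδ0.le (not_lt.1 hn)
    linarith
  have hT1 : 1 ≤ T₁ := by nlinarith
  have hP1 : (1 : ℝ) ≤ P := (one_le_pow₀ hL1).trans (Nat.le_ceil (L ^ B₁))
  have hP0 : (0 : ℝ) < P := by linarith
  have hPn : 1 ≤ P := by exact_mod_cast hP1
  have hPNn : P * N ≤ X := by
    have h5 : N * (5 * P) ≤ 4 * X := Nat.div_mul_le_self _ _
    nlinarith
  have hPN : (P : ℝ) * N ≤ X := by exact_mod_cast hPNn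
  have hNX : N ≤ X := by nlinarith
  have hsN : (2 : ℝ) ^ siz l ≤ 3 * N := by exact_mod_cast hl.up
  have hMN : (M : ℝ) ≤ 768 * N := by
    have h6 : (2 : ℝ) ^ l.length ≤ 2 ^ 8 := pow_le_pow_right₀ (by norm_num) hl.l8
    calc (M : ℝ) = 2 ^ siz l * 2 ^ l.length := by rw [hM]; push_cast; rw [pow_add]
      _ ≤ (3 * N) * 2 ^ 8 := by gcongr
      _ = 768 * N := by ring
  have hM1 : 1 ≤ M := Nat.one_le_two_pow
  have hsz := er_siz hl hX3 hNX hL3
  rw [← hLd] at hsz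
  have hlogM : 1 + Real.log M ≤ 8 * L := by
    have e1 : Real.log M = ((siz l + l.length : ℕ) : ℝ) * Real.log 2 := by
      rw [hM]
      push_cast
      rw [Real.log_pow]
      push_cast
      ring
    have e2 := Real.log_two_lt_d9
    have e3 : (l.length : ℝ) ≤ 8 := by exact_mod_cast hl.l8
    have e4 : (0 : ℝ) ≤ siz l := by positivity
    have e5 : (0 : ℝ) ≤ l.length := by positivity
    rw [e1]
    push_cast
    nlinarith
  have hcof : ∑ n ∈ Icc 1 M, cof Z l n ^ 2 ≤ (3 * c2 * 4 ^ c2) * N * L ^ c2 := by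
    refine (hc2 Z l hl.l8).1.trans ?_
    calc (c2 : ℝ) * 2 ^ siz l * (1 + (siz l : ℝ)) ^ c2 ≤ c2 * (3 * N) * (4 * L) ^ c2 := by
          gcongr
      _ = _ := by rw [mul_pow]; ring
  have hcof0 : 0 ≤ ∑ n ∈ Icc 1 M, cof Z l n ^ 2 := Finset.sum_nonneg fun n _ => sq_nonneg _
  set g : ℝ → ℝ := fun t => (‖PS (Sn B₁ X) t‖ * ‖DP (cof Z l) M t‖) ^ 2 with hg
  have hgc : Continuous g := by
    have := var_DP_cont (cof Z l) M
    have := er_PS_cont (Sn B₁ X)
    fun_prop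
  have hg0 : ∀ t, 0 ≤ g t := fun t => sq_nonneg _
  set K : ℝ := K₀ * X ^ 2 * L ^ (c2 + 1) with hK
  have hK0 : 0 ≤ K := by positivity
  have hI : ∀ j : ℕ, ∫ t in (-(2 ^ (j + 1) * T₁))..(2 ^ (j + 1) * T₁), g t ≤ K * 2 ^ (j + 1) := by
    intro j
    have hp2 : (1 : ℝ) ≤ 2 ^ (j + 1) := one_le_pow₀ (by norm_num)
    have hTj : 1 ≤ 2 ^ (j + 1) * T₁ := by nlinarith
    have e1 : ∫ t in (-(2 ^ (j + 1) * T₁))..(2 ^ (j + 1) * T₁), g t ≤
        ∫ t in (-(2 ^ (j + 1) * T₁))..(2 ^ (j + 1) * T₁), (P : ℝ) ^ 2 * ‖DP (cof Z l) M t‖ ^ 2 := by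
      refine intervalIntegral.integral_mono_on (by linarith) (hgc.intervalIntegrable _ _) ?_ ?_
      · have := var_DP_cont (cof Z l) M
        exact Continuous.intervalIntegrable (by fun_prop) _ _
      · intro t _
        have h7 := er_PS_le B₁ X t
        change (‖PS (Sn B₁ X) t‖ * ‖DP (cof Z l) M t‖) ^ 2 ≤ _
        rw [mul_pow]
        gcongr
    rw [intervalIntegral.integral_const_mul] at e1
    refine e1.trans ?_
    have e2 := hMV (cof Z l) M (2 ^ (j + 1) * T₁) hM1 hTj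
    calc (P : ℝ) ^ 2 * ∫ t in (-(2 ^ (j + 1) * T₁))..(2 ^ (j + 1) * T₁), ‖DP (cof Z l) M t‖ ^ 2 ≤
        (P : ℝ) ^ 2 * (C * (2 ^ (j + 1) * T₁ + M * (1 + Real.log M)) *
          ∑ n ∈ Icc 1 M, cof Z l n ^ 2) := by gcongr
      _ ≤ (P : ℝ) ^ 2 * (C * (2 ^ (j + 1) * T₁ + (768 * N) * (8 * L)) *
          ((3 * c2 * 4 ^ c2) * N * L ^ c2)) := by gcongr
      _ = C * (3 * c2 * 4 ^ c2) * (2 ^ (j + 1) * (T₁ * P) + 6144 * (P * N) * L) *
          (P * N) * L ^ c2 := by ring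
      _ ≤ C * (3 * c2 * 4 ^ c2) * (2 ^ (j + 1) * X + 6144 * X * L) * X * L ^ c2 := by gcongr
      _ ≤ C * (3 * c2 * 4 ^ c2) * (2 ^ (j + 1) * (X * L) + 2 ^ (j + 1) * (6144 * X * L)) * X *
          L ^ c2 := by
        have q1 : (X : ℝ) ≤ X * L := by nlinarith
        have q2 : 6144 * X * L ≤ 2 ^ (j + 1) * (6144 * X * L) := by
          have : 0 ≤ 6144 * X * L := by positivity
          nlinarith
        gcongr
      _ = K * 2 ^ (j + 1) := by
        rw [hK, hK₀, pow_succ L c2]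
        ring
  obtain ⟨r1, r2⟩ := er_tail g hgc hg0 δ T₁ (L ^ (A + c2 + 2)) K hT0 hδ0 (by positivity) hLT hK0 hI
  refine ⟨r1, r2.trans ?_⟩
  rw [div_le_div_iff₀ (by positivity) (by positivity), hK]
  have q3 : L ^ (c2 + 1) * L ^ A * L ≤ (L ^ (A + c2 + 2)) ^ 4 := by
    rw [← pow_mul, ← pow_add, ← pow_succ]
    exact pow_le_pow_right₀ hL1 (by omega)
  calc 4 * (K₀ * X ^ 2 * L ^ (c2 + 1)) * L ^ A = (4 * K₀) * (X ^ 2 * (L ^ (c2 + 1) * L ^ A)) := by
        ring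
    _ ≤ L * (X ^ 2 * (L ^ (c2 + 1) * L ^ A)) := by gcongr
    _ = X ^ 2 * (L ^ (c2 + 1) * L ^ A * L) := by ring
    _ ≤ X ^ 2 * (L ^ (A + c2 + 2)) ^ 4 := by gcongr

end Pool.Agent.E2P
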