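import Mathlib
import Pool.Agent.E2P.St
import Pool.Agent.SI.Var

set_option autoImplicit false

/-!
# E2P: the module EU
-/

namespace Pool.Agent.E2P

open Finset Filter MeasureTheory
open Pool.Agent.SI (nit DP fac cof siz IsW Wd var_log_pow var_log_large var_DP_cont var_norm_nit)

/-- the parameters -/
lemma eu_par (B₁ : ℕ) (h : 1 ≤ B₁) : ∀ᶠ X : ℕ in atTop, 2 ^ 10 ≤ Real.log X ∧
    Real.log X ^ B₁ ≤ Pn B₁ X ∧ (Pn B₁ X : ℝ) ≤ 2 * Real.log X ^ B₁ ∧ 2 ^ 10 ≤ Pn B₁ X ∧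
    (Pn B₁ X : ℝ) * Nn B₁ X ≤ X ∧ 2 ^ 10 * Nn B₁ X ≤ X ∧
    (X : ℝ) ^ (999 / 1000 : ℝ) ≤ Nn B₁ X := by
  filter_upwards [var_log_large (2 ^ 10), var_log_pow 8 B₁ (1 / 1000) (by norm_num),
    eventually_ge_atTop 2] with X h1 h2 h3
  have hX2 : (2 : ℝ) ≤ X := by exact_mod_cast h3
  have hX0 : (0 : ℝ) < X := by linarith
  have hL1 : 1 ≤ Real.log X := by linarith
  have hLB : Real.log X ≤ Real.log X ^ B₁ := by
    calc Real.log X = Real.log X ^ 1 := (pow_one _).symm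
      _ ≤ _ := pow_le_pow_right₀ hL1 h
  have hPl : Real.log X ^ B₁ ≤ Pn B₁ X := Nat.le_ceil _
  have hPu : (Pn B₁ X : ℝ) ≤ 2 * Real.log X ^ B₁ := by
    have := (Nat.ceil_lt_add_one (show 0 ≤ Real.log X ^ B₁ by positivity)).le
    unfold Pn
    linarith
  have hP10 : (2 : ℝ) ^ 10 ≤ Pn B₁ X := by linarith
  have hP10' : 2 ^ 10 ≤ Pn B₁ X := by exact_mod_cast hP10
  have hP0 : (0 : ℝ) < Pn B₁ X := by linarith
  have hNu : (Nn B₁ X : ℝ) ≤ 4 * X / (5 * Pn B₁ X) := by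
    unfold Nn
    have := @Nat.cast_div_le ℝ _ _ _ (4 * X) (5 * Pn B₁ X)
    push_cast at this
    exact this
  have hNl : 4 * (X : ℝ) / (5 * Pn B₁ X) - 1 ≤ Nn B₁ X := by
    unfold Nn
    have := (Nat.lt_floor_add_one ((4 * (X : ℝ)) / (5 * Pn B₁ X))).le
    have e : ⌊(4 * (X : ℝ)) / (5 * Pn B₁ X)⌋₊ = 4 * X / (5 * Pn B₁ X) := by
      have := Nat.floor_div_eq_div (K := ℝ) (4 * X) (5 * Pn B₁ X)
      push_cast at this
      exact this
    rw [e] at this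
    linarith
  have h999 : (X : ℝ) ^ (1 / 1000 : ℝ) * (X : ℝ) ^ (999 / 1000 : ℝ) = X := by
    rw [← Real.rpow_add hX0]; norm_num
  have hq1 : 1 ≤ (X : ℝ) ^ (999 / 1000 : ℝ) := Real.one_le_rpow (by linarith) (by norm_num)
  have hPX : (Pn B₁ X : ℝ) * (4 * (X : ℝ) ^ (999 / 1000 : ℝ)) ≤ X := by
    calc (Pn B₁ X : ℝ) * (4 * (X : ℝ) ^ (999 / 1000 : ℝ)) ≤
        (2 * Real.log X ^ B₁) * (4 * (X : ℝ) ^ (999 / 1000 : ℝ)) := by gcongr
      _ = (8 * Real.log X ^ B₁) * (X : ℝ) ^ (999 / 1000 : ℝ) := by ring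
      _ ≤ (X : ℝ) ^ (1 / 1000 : ℝ) * (X : ℝ) ^ (999 / 1000 : ℝ) := by gcongr
      _ = X := h999
  have hlow : (X : ℝ) ^ (999 / 1000 : ℝ) ≤ Nn B₁ X := by
    refine le_trans ?_ hNl
    have e1 : 4 * (X : ℝ) ^ (999 / 1000 : ℝ) ≤ X / Pn B₁ X := by
      rw [le_div_iff₀ hP0]; linarith
    have e2 : 4 * (X : ℝ) / (5 * Pn B₁ X) = 4 / 5 * (X / Pn B₁ X) := by
      field_simp
    rw [e2]
    nlinarith
  have hPN : (Pn B₁ X : ℝ) * Nn B₁ X ≤ 4 / 5 * X := by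
    calc (Pn B₁ X : ℝ) * Nn B₁ X ≤ Pn B₁ X * (4 * X / (5 * Pn B₁ X)) := by gcongr
      _ = 4 / 5 * X := by field_simp
  refine ⟨h1, hPl, hPu, hP10', by linarith, ?_, hlow⟩
  have : (2 : ℝ) ^ 10 * Nn B₁ X ≤ X := by
    calc (2 : ℝ) ^ 10 * Nn B₁ X ≤ Pn B₁ X * Nn B₁ X := by gcongr
      _ ≤ X := by linarith
  exact_mod_cast this

lemma eu_PS_le (B₁ X : ℕ) (hP : 4 ≤ Pn B₁ X) (t : ℝ) : ‖PS (Sn B₁ X) t‖ ≤ Pn B₁ X := by
  unfold PS
  refine (norm_sum_le _ _).trans ?_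
  have e1 : ∑ p ∈ Sn B₁ X, ‖nit t p‖ = ((Sn B₁ X).card : ℝ) := by
    rw [sum_congr rfl (fun p _ => var_norm_nit t p), sum_const, nsmul_eq_mul, mul_one]
  rw [e1]
  have e2 : (Sn B₁ X).card ≤ Pn B₁ X := by
    refine (card_filter_le _ _).trans ?_
    rw [Nat.card_Ioc]
    omega
  exact_mod_cast e2

lemma eu_PS_cont (S : Finset ℕ) : Continuous (fun t => PS S t) := by
  unfold PS nit
  fun_prop

lemma eu_siz {X N Z : ℕ} {l : List (ℕ × ℕ)} (h : IsBox N Z l) (hX : 3 ≤ X) (hN : 2 ^ 10 * N ≤ X)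
    (hL : 1 ≤ Real.log X) :
    1 + (siz l : ℝ) ≤ 4 * Real.log X := by
  have hXR : (3 : ℝ) ≤ X := by exact_mod_cast hX
  have e1 : ((2 : ℝ)) ^ siz l ≤ X := by
    have : 2 ^ siz l ≤ X := by have := h.up; omega
    exact_mod_cast this
  have e2 : Real.log ((2 : ℝ) ^ siz l) ≤ Real.log X := Real.log_le_log (by positivity) e1
  rw [Real.log_pow] at e2
  have e3 := Real.log_two_gt_d9
  have e4 : (0 : ℝ) ≤ siz l := by positivity
  nlinarith

/-- splitting of the integral -/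
lemma eu_split {g G : ℝ → ℝ} {a T₀ T₁ b : ℝ} {V : Set ℝ} (hg : Continuous g) (hG : Continuous G)
    (hG0 : ∀ t, 0 ≤ G t) (hV : MeasurableSet V) (h01 : T₀ ≤ T₁) (h0 : 0 ≤ T₀)
    (ha : 0 ≤ a) (h1 : ∀ t ∈ V, g t ≤ b * G t) (h2 : ∀ t, t ∉ V → g t ≤ a * G t) :
    ∫ t in T₀..T₁, g t ≤ b * (∫ t in Set.Ioc T₀ T₁ ∩ V, G t) + a * ∫ t in (-T₁)..T₁, G t := by
  have ig : IntegrableOn g (Set.Ioc T₀ T₁) := hg.integrableOn_Ioc
  have iG : IntegrableOn G (Set.Ioc T₀ T₁) := hG.integrableOn_Ioc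
  have iG2 : IntegrableOn G (Set.Ioc (-T₁) T₁) := hG.integrableOn_Ioc
  rw [intervalIntegral.integral_of_le h01, ← integral_inter_add_sdiff hV ig]
  have hm : MeasurableSet (Set.Ioc T₀ T₁ ∩ V) := measurableSet_Ioc.inter hV
  have hm2 : MeasurableSet (Set.Ioc T₀ T₁ \ V) := measurableSet_Ioc.diff hV
  refine add_le_add ?_ ?_
  · rw [← integral_const_mul]
    exact setIntegral_mono_on (ig.mono_set Set.inter_subset_left)
      ((iG.mono_set Set.inter_subset_left).const_mul b) hm (fun t ht => h1 t ht.2)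
  · have e1 : ∫ t in Set.Ioc T₀ T₁ \ V, g t ≤ ∫ t in Set.Ioc T₀ T₁ \ V, a * G t :=
      setIntegral_mono_on (ig.mono_set Set.sdiff_subset)
        ((iG.mono_set Set.sdiff_subset).const_mul a) hm2 (fun t ht => h2 t ht.2)
    refine e1.trans ?_
    rw [integral_const_mul, intervalIntegral.integral_of_le (by linarith)]
    refine mul_le_mul_of_nonneg_left ?_ ha
    refine setIntegral_mono_set iG2 (Eventually.of_forall hG0) ?_
    refine HasSubset.Subset.eventuallyLE ?_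
    intro t ht
    exact ⟨by linarith [ht.1.1], ht.1.2⟩

set_option maxHeartbeats 4000000 in
/-- EU. -/
theorem thm_EU (h1 : St_EH) (h2 : Pool.Agent.EVN.St_Spa3) (h3 : Pool.Agent.SI.St_MV)
    (h4 : Pool.Agent.SI.St_Cof) : St_EU := by
  intro A
  obtain ⟨B₀', XE, hEH⟩ := h1 (A + 1)
  obtain ⟨η₀, hη₀, C', nS, hSpa⟩ := h2 (1 / 1000) (by norm_num)
  obtain ⟨CM, hCM, hMV⟩ := h3
  obtain ⟨-, -, c₂, hc₂⟩ := h4
  set η : ℝ := min η₀ (1 / 2) with hη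
  have hηp : 0 < η := lt_min hη₀ (by norm_num)
  have hη2 : η ≤ 1 / 2 := min_le_right _ _
  have hη1 : η ≤ η₀ := min_le_left _ _
  obtain ⟨B₂', hB₂'⟩ : ∃ B : ℕ, ((A + c₂ + 4 : ℕ) : ℝ) ≤ 2 * η * B := by
    obtain ⟨K, hK⟩ := exists_nat_ge (((A + c₂ + 4 : ℕ) : ℝ) / (2 * η))
    exact ⟨K, by rwa [div_le_iff₀' (by positivity)] at hK⟩
  refine ⟨max B₀' 1, max B₂' (C' + 1), le_max_right _ _, by omega, ?_⟩
  intro B₁ hB₁
  have hB1 : 1 ≤ B₁ := by omega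
  set K : ℝ := CM * (1 + 768 * 2) * (c₂ * 3 * 4 ^ c₂) with hK
  obtain ⟨X₀, hX₀⟩ := eventually_atTop.1 (((eventually_ge_atTop XE).and
    (eventually_ge_atTop nS)).and ((eu_par B₁ hB1).and ((var_log_large K).and
      (eventually_ge_atTop 3))))
  refine ⟨X₀, ?_⟩
  intro X hX Z l hl T₁ hT₁ hTP
  obtain ⟨⟨hXE, hXS⟩, ⟨hL, hPl, hPu, hP10, hPN, hN10, hN999⟩, hKL, hX3⟩ := hX₀ X hX
  set L := Real.log X with hLd
  set P := Pn B₁ X with hP
  set N := Nn B₁ X with hN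
  set M : ℕ := 2 ^ (siz l + l.length) with hM
  have hXR : (3 : ℝ) ≤ X := by exact_mod_cast hX3
  have hX0 : (0 : ℝ) < X := by linarith
  have hL1 : 1 ≤ L := by linarith
  have hL0 : 0 < L := by linarith
  have hP10R : (2 : ℝ) ^ 10 ≤ P := by exact_mod_cast hP10
  have hP0 : (0 : ℝ) < P := by linarith
  have hP1 : (1 : ℝ) ≤ P := by linarith
  have hT1 : 1 ≤ T₁ := le_trans (one_le_pow₀ hL1) hT₁
  have hTX : T₁ ≤ X / P := by rw [le_div_iff₀ hP0]; exact hTP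
  have hXPX : X / (P : ℝ) ≤ X := div_le_self hX0.le hP1
  have hNX : (N : ℝ) ≤ X / P := by rw [le_div_iff₀ hP0, mul_comm]; exact hPN
  have hPS : ∀ t, ‖PS (Sn B₁ X) t‖ ≤ P := eu_PS_le B₁ X (by omega)
  set V : Set ℝ := {t | (P : ℝ) ^ (1 - η) < ‖PS (Sn B₁ X) t‖} with hVd
  have hVm : MeasurableSet V :=
    (isOpen_lt continuous_const (eu_PS_cont _).norm).measurableSet
  -- the polynomial
  have hGc : Continuous (fun t => ‖DP (cof Z l) M t‖ ^ 2) := by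
    have := var_DP_cont (cof Z l) M
    fun_prop
  have hgc : Continuous (fun t => (‖PS (Sn B₁ X) t‖ * ‖DP (cof Z l) M t‖) ^ 2) := by
    have := var_DP_cont (cof Z l) M
    have := eu_PS_cont (Sn B₁ X)
    fun_prop
  have hspl := eu_split (a := ((P : ℝ) ^ (1 - η)) ^ 2) (T₀ := L ^ (max B₀' 1)) (T₁ := T₁)
    (b := (P : ℝ) ^ 2) hgc hGc (fun t => by positivity) hVm hT₁ (by positivity) (by positivity)
    (by
      intro t _
      have := hPS t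
      rw [mul_pow]
      gcongr)
    (by
      intro t ht
      have h5 : ‖PS (Sn B₁ X) t‖ ≤ (P : ℝ) ^ (1 - η) := not_lt.1 ht
      rw [mul_pow]
      gcongr)
  refine hspl.trans ?_
  -- the first part
  have p1 : (P : ℝ) ^ 2 * (∫ t in Set.Ioc (L ^ (max B₀' 1)) T₁ ∩ V, ‖DP (cof Z l) M t‖ ^ 2) ≤
      (X : ℝ) ^ 2 / L ^ (A + 1) := by
    have e1 := hEH X hXE N Z l hl hN10 hN999 (Set.Ioc (L ^ (max B₀' 1)) T₁ ∩ V)
      (measurableSet_Ioc.inter hVm)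
      (by
        intro t ht
        have t1 : L ^ (max B₀' 1) < t := ht.1.1
        have t2 : 0 ≤ t := le_trans (by positivity) t1.le
        rw [abs_of_nonneg t2]
        refine ⟨le_trans (pow_le_pow_right₀ hL1 (le_max_left _ _)) t1.le, ?_⟩
        linarith [ht.1.2])
      (by
        have e2 := hSpa X hXS P (le_trans (pow_le_pow_right₀ hL1 (by omega)) hPl)
          (by
            have : (P : ℝ) * 1 ≤ P * N := by
              refine mul_le_mul_of_nonneg_left ?_ hP0.le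
              exact (Real.one_le_rpow (by linarith) (by norm_num)).trans hN999
            have h6 : (P : ℝ) ≤ X := by linarith
            have h7 : P ≤ X := by exact_mod_cast h6
            omega)
          (Sn B₁ X)
          (by
            intro p hp
            obtain ⟨q1, q2⟩ := mem_filter.1 hp
            rw [mem_Ioc] at q1
            exact ⟨q2, q1.1, by omega⟩)
        refine le_trans (measure_mono ?_) e2
        intro t ht
        have t1 : L ^ (max B₀' 1) < t := ht.1.1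
        have t2 : 0 ≤ t := le_trans (by positivity) t1.le
        refine ⟨?_, ?_⟩
        · rw [abs_of_nonneg t2]
          have : t ≤ X := by linarith [ht.1.2]
          nlinarith
        · refine lt_of_le_of_lt ?_ (show (P : ℝ) ^ (1 - η) < ‖PS (Sn B₁ X) t‖ from ht.2)
          exact Real.rpow_le_rpow_of_exponent_le hP1 (by linarith))
    calc (P : ℝ) ^ 2 * (∫ t in Set.Ioc (L ^ (max B₀' 1)) T₁ ∩ V, ‖DP (cof Z l) M t‖ ^ 2) ≤
        (P : ℝ) ^ 2 * ((N : ℝ) ^ 2 / L ^ (A + 1)) := by gcongr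
      _ = ((P : ℝ) * N) ^ 2 / L ^ (A + 1) := by ring
      _ ≤ (X : ℝ) ^ 2 / L ^ (A + 1) := by gcongr
  -- the second part
  have hM2 : (M : ℝ) ≤ 768 * N := by
    have e1 : (M : ℝ) = 2 ^ siz l * 2 ^ l.length := by rw [hM]; push_cast; rw [pow_add]
    have e2 : (2 : ℝ) ^ siz l ≤ 3 * N := by exact_mod_cast hl.up
    have e3 : (2 : ℝ) ^ l.length ≤ 2 ^ 8 := pow_le_pow_right₀ (by norm_num) hl.l8
    rw [e1]
    calc (2 : ℝ) ^ siz l * 2 ^ l.length ≤ 3 * N * 2 ^ 8 := by gcongr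
      _ = 768 * N := by ring
  have hM1 : 1 ≤ M := Nat.one_le_two_pow
  have hMX : (M : ℝ) ≤ X := by
    have : (2 : ℝ) ^ 10 * N ≤ X := by exact_mod_cast hN10
    linarith
  have hlM : 1 + Real.log M ≤ 2 * L := by
    have : Real.log M ≤ L := Real.log_le_log (by exact_mod_cast hM1) hMX
    linarith
  have hsiz := eu_siz hl hX3 hN10 hL1
  have hcof : ∑ n ∈ Icc 1 M, cof Z l n ^ 2 ≤ (c₂ * 3 * 4 ^ c₂) * (X / P) * L ^ c₂ := by
    refine (hc₂ Z l hl.l8).1.trans ?_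
    have e1 : ((2 : ℝ)) ^ siz l ≤ 3 * N := by exact_mod_cast hl.up
    calc (c₂ : ℝ) * 2 ^ siz l * (1 + (siz l : ℝ)) ^ c₂ ≤ c₂ * (3 * (X / P)) * (4 * L) ^ c₂ := by
          gcongr
          linarith
      _ = _ := by rw [mul_pow]; ring
  have hmv := hMV (cof Z l) M T₁ hM1 hT1
  have p2 : ((P : ℝ) ^ (1 - η)) ^ 2 * (∫ t in (-T₁)..T₁, ‖DP (cof Z l) M t‖ ^ 2) ≤
      (X : ℝ) ^ 2 / L ^ (A + 1) := by
    have e1 : T₁ + M * (1 + Real.log M) ≤ (1 + 768 * 2) * (X / P) * L := by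
      calc T₁ + M * (1 + Real.log M) ≤ (X / P) * 1 + 768 * (X / P) * (2 * L) := by
            have : (M : ℝ) ≤ 768 * (X / P) := by linarith
            gcongr
            linarith
        _ ≤ (X / P) * L + 768 * (X / P) * (2 * L) := by gcongr
        _ = _ := by ring
    have e2 : ∫ t in (-T₁)..T₁, ‖DP (cof Z l) M t‖ ^ 2 ≤ K * (X / P) ^ 2 * L ^ (c₂ + 1) := by
      refine hmv.trans ?_
      calc CM * (T₁ + M * (1 + Real.log M)) * ∑ n ∈ Icc 1 M, cof Z l n ^ 2 ≤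
          CM * ((1 + 768 * 2) * (X / P) * L) * ((c₂ * 3 * 4 ^ c₂) * (X / P) * L ^ c₂) := by
            gcongr
        _ = K * (X / P) ^ 2 * L ^ (c₂ + 1) := by rw [hK]; ring
    have e3 : ((P : ℝ) ^ (1 - η)) ^ 2 * (X / P) ^ 2 = (X : ℝ) ^ 2 / (P : ℝ) ^ (2 * η) := by
      have f1 : ((P : ℝ) ^ (1 - η)) ^ 2 * (P : ℝ) ^ (2 * η) = (P : ℝ) ^ 2 := by
        rw [← Real.rpow_natCast, ← Real.rpow_natCast, ← Real.rpow_mul hP0.le,
          ← Real.rpow_add hP0]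
        congr 1
        push_cast
        ring
      rw [eq_div_iff (by positivity), div_pow, mul_right_comm, f1]
      field_simp
    have e4 : L ^ (A + c₂ + 4) ≤ (P : ℝ) ^ (2 * η) := by
      calc L ^ (A + c₂ + 4) = L ^ ((A + c₂ + 4 : ℕ) : ℝ) := (Real.rpow_natCast _ _).symm
        _ ≤ L ^ (2 * η * B₁) := by
            refine Real.rpow_le_rpow_of_exponent_le hL1 (hB₂'.trans ?_)
            have : (B₂' : ℝ) ≤ B₁ := by exact_mod_cast (show B₂' ≤ B₁ by omega)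
            gcongr
        _ = (L ^ B₁) ^ (2 * η) := by
            rw [← Real.rpow_natCast, ← Real.rpow_mul hL0.le, mul_comm]
        _ ≤ (P : ℝ) ^ (2 * η) := by gcongr
    have hK0 : 0 ≤ K := by positivity
    calc ((P : ℝ) ^ (1 - η)) ^ 2 * (∫ t in (-T₁)..T₁, ‖DP (cof Z l) M t‖ ^ 2) ≤
        ((P : ℝ) ^ (1 - η)) ^ 2 * (K * (X / P) ^ 2 * L ^ (c₂ + 1)) := by gcongr
      _ = K * (((P : ℝ) ^ (1 - η)) ^ 2 * (X / P) ^ 2) * L ^ (c₂ + 1) := by ring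
      _ = K * ((X : ℝ) ^ 2 / (P : ℝ) ^ (2 * η)) * L ^ (c₂ + 1) := by rw [e3]
      _ ≤ L * ((X : ℝ) ^ 2 / L ^ (A + c₂ + 4)) * L ^ (c₂ + 1) := by gcongr
      _ = (X : ℝ) ^ 2 * L ^ (c₂ + 2) / L ^ (A + c₂ + 4) := by ring
      _ = (X : ℝ) ^ 2 / L ^ (A + 2) := by
          rw [div_eq_div_iff (by positivity) (by positivity)]
          ring
      _ ≤ (X : ℝ) ^ 2 / L ^ (A + 1) :=
          div_le_div_of_nonneg_left (by positivity) (by positivity)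
            (pow_le_pow_right₀ hL1 (by omega))
  calc (P : ℝ) ^ 2 * (∫ t in Set.Ioc (L ^ (max B₀' 1)) T₁ ∩ V, ‖DP (cof Z l) M t‖ ^ 2) +
        ((P : ℝ) ^ (1 - η)) ^ 2 * (∫ t in (-T₁)..T₁, ‖DP (cof Z l) M t‖ ^ 2) ≤
        2 * ((X : ℝ) ^ 2 / L ^ (A + 1)) := by linarith
    _ ≤ L * ((X : ℝ) ^ 2 / L ^ (A + 1)) := by
        gcongr
        linarith
    _ = (X : ℝ) ^ 2 / L ^ A := by
      field_simp
      ring

end Pool.Agent.E2P
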