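import Mathlib
import Pool.Agent.SI.Var
import Pool.Agent.E2P.St

set_option autoImplicit false

/-!
# E2P / EV: the variance
-/

namespace Pool.Agent.E2P

open Finset Filter MeasureTheory
open Pool.Agent.SI (nit DP fac cof siz IsW Wd)
open scoped FourierTransform

/-- the sizes of `P` and `N` -/
private theorem ev_size (X P : ℕ) (hP : 0 < P) (hX : 20 * P ≤ X) :
    3 * X ≤ 4 * (4 * X / (5 * P) * P) ∧
      ∀ p : ℕ, p ≤ 5 * P / 4 → 4 * X / (5 * P) * p ≤ X := by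
  obtain ⟨N, hN⟩ : ∃ N : ℕ, N = 4 * X / (5 * P) := ⟨_, rfl⟩
  have e1 : 4 * X < 5 * P * (N + 1) := by
    rw [hN]
    exact Nat.lt_mul_div_succ (4 * X) (by omega)
  have e2 : N * (5 * P) ≤ 4 * X := by
    rw [hN]
    exact Nat.div_mul_le_self _ _
  rw [← hN]
  constructor
  · nlinarith
  · intro p hp
    have e3 : p * 4 ≤ 5 * P := (Nat.le_div_iff_mul_le (by norm_num)).mp hp
    have e4 : N * (p * 4) ≤ N * (5 * P) := Nat.mul_le_mul_left N e3
    nlinarith

/-- the difference as a sum over the lists -/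
private theorem ev_dec (h2 : St_Prd) (h4 : SI.St_Cof) (w : ℝ → ℝ) (hw : IsW w) (X N Z : ℕ)
    (B₁ : ℕ) (hP : 0 < Pn B₁ X)
    (hX : 20 * Pn B₁ X ≤ X) (hN : N = Nn B₁ X) (hN1 : 1 ≤ N) (L : Finset (List (ℕ × ℕ)))
    (a : List (ℕ × ℕ) → ℝ)
    (hv : ∀ n : ℕ, N ≤ n → n ≤ 3 * N →
      ArithmeticFunction.vonMangoldt n = ∑ l ∈ L, a l * cof Z l n)
    (δ δ' y : ℝ) (d1 : 0 < δ) (d2 : 0 < δ') (d3 : δ ≤ 1 / 3) (d4 : δ' ≤ 1 / 3)
    (hy : Real.log X ≤ y) (hy' : y ≤ Real.log (3 * X / 2)) :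
    DD w B₁ X δ y - DD w B₁ X δ' y = ∑ l ∈ L, a l *
      ∑ n ∈ Icc 1 (2 * Pn B₁ X * 2 ^ (siz l + l.length)), cS (Sn B₁ X) (cof Z l) n *
        (Wd w δ (Real.log n - y) - Wd w δ' (Real.log n - y)) := by
  have hXpos : 0 < X := by omega
  have hXR : (0 : ℝ) < X := by exact_mod_cast hXpos
  obtain ⟨s1, s2⟩ := ev_size X (Pn B₁ X) hP hX
  have hN0 : (0 : ℝ) < N := by exact_mod_cast hN1
  have hmem : ∀ p ∈ Sn B₁ X, Pn B₁ X < p ∧ p ≤ 5 * Pn B₁ X / 4 := by
    intro p hp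
    rw [Sn, Finset.mem_filter, Finset.mem_Ioc] at hp
    exact hp.1
  have hp1 : ∀ p ∈ Sn B₁ X, 1 ≤ p ∧ p ≤ 2 * Pn B₁ X := by
    intro p hp
    have := hmem p hp
    omega
  have key : ∀ p ∈ Sn B₁ X, ∑ b ∈ Icc N (3 * N), ArithmeticFunction.vonMangoldt b *
      (Wd w δ (Real.log b - (y - Real.log p)) - Wd w δ' (Real.log b - (y - Real.log p))) =
      ∑ l ∈ L, a l * ∑ b ∈ Icc 1 (2 ^ (siz l + l.length)), cof Z l b *
        (Wd w δ (Real.log b - (y - Real.log p)) - Wd w δ' (Real.log b - (y - Real.log p))) := by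
    intro p hp
    obtain ⟨q1, q2⟩ := hmem p hp
    have hp0 : (0 : ℝ) < p := by
      have : 0 < p := by omega
      exact_mod_cast this
    have u1 : Real.log N ≤ y - Real.log p := by
      have e1 : N * p ≤ X := by
        rw [hN]
        exact s2 p q2
      have e2 : Real.log (N * p) ≤ Real.log X :=
        Real.log_le_log (by positivity) (by exact_mod_cast e1)
      rw [Real.log_mul hN0.ne' hp0.ne'] at e2
      linarith
    have u2 : y - Real.log p ≤ Real.log (2 * N) := by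
      have e1 : 3 * X ≤ 4 * (N * p) := by
        refine s1.trans ?_
        rw [← show N = 4 * X / (5 * Pn B₁ X) from hN]
        have : N * Pn B₁ X ≤ N * p := Nat.mul_le_mul_left N q1.le
        omega
      have e1' : (3 : ℝ) * X ≤ 4 * (N * p) := by exact_mod_cast e1
      have e2 : Real.log (3 * X / 2) ≤ Real.log (2 * N * p) :=
        Real.log_le_log (by positivity) (by linarith)
      rw [Real.log_mul (by positivity) hp0.ne'] at e2
      linarith
    exact SI.var_decomp h4 N Z hN1 L a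
      (fun n => Wd w δ (Real.log n - (y - Real.log p)) - Wd w δ' (Real.log n - (y - Real.log p)))
      (fun n hn => SI.var_supp w hw N n hN1 δ δ' (y - Real.log p) d1 d2 d3 d4 u1 u2 hn) hv
  have e1 : DD w B₁ X δ y - DD w B₁ X δ' y = ∑ p ∈ Sn B₁ X, ∑ b ∈ Icc N (3 * N),
      ArithmeticFunction.vonMangoldt b *
      (Wd w δ (Real.log b - (y - Real.log p)) - Wd w δ' (Real.log b - (y - Real.log p))) := by
    unfold DD
    rw [← Finset.sum_sub_distrib]
    refine Finset.sum_congr rfl fun p _ => ?_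
    rw [← Finset.sum_sub_distrib, ← hN]
    refine Finset.sum_congr rfl fun b _ => ?_
    rw [show Real.log p + Real.log b - y = Real.log b - (y - Real.log p) by ring]
    ring
  rw [e1, Finset.sum_congr rfl key, Finset.sum_comm]
  refine Finset.sum_congr rfl fun l _ => ?_
  rw [← Finset.mul_sum]
  congr 1
  rw [(h2 (Sn B₁ X) (cof Z l) (2 * Pn B₁ X) (2 ^ (siz l + l.length)) hp1 ?_).2
    (fun n => Wd w δ (Real.log n - y) - Wd w δ' (Real.log n - y))]
  · refine Finset.sum_congr rfl fun p hp => ?_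
    refine Finset.sum_congr rfl fun b hb => ?_
    rw [Finset.mem_Icc] at hb
    have hp0 : (0 : ℝ) < p := by
      have : 0 < p := by
        have := (hmem p hp).1
        omega
      exact_mod_cast this
    have hb0 : (0 : ℝ) < b := by exact_mod_cast hb.1
    have e2 : Real.log ((p * b : ℕ) : ℝ) - y = Real.log b - (y - Real.log p) := by
      rw [Nat.cast_mul, Real.log_mul hp0.ne' hb0.ne']
      ring
    rw [e2]
  · intro n hn
    obtain ⟨k1, k2⟩ := h4.2.1 Z l n hn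
    have : 0 < 2 ^ siz l := by positivity
    exact ⟨by omega, k2⟩

theorem thm_EV (h1 : St_EP) (h2 : St_Prd) (h3 : SI.St_Box) (h4 : SI.St_Cof) (h5 : SI.St_Four) :
    St_EV := by
  intro w hw A
  obtain ⟨Cb, hBox⟩ := h3
  obtain ⟨B, B₂, hB1, hB2, hEP⟩ := h1 w hw (A + 17)
  obtain ⟨C, X₀', hEP'⟩ := hEP B₂ le_rfl
  have ev : ∀ᶠ X : ℕ in atTop, X₀' ≤ X ∧ 9 ≤ X ∧ 6 ≤ Real.log X ∧
      (Cb : ℝ) ^ 4 * 2 ^ 16 ≤ Real.log X ∧ 40 * Real.log X ^ B₂ ≤ (X : ℝ) ^ (1 / 2 : ℝ) := by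
    filter_upwards [eventually_ge_atTop X₀', eventually_ge_atTop 9, SI.var_log_large 6,
      SI.var_log_large ((Cb : ℝ) ^ 4 * 2 ^ 16), SI.var_log_pow 40 B₂ (1 / 2) (by norm_num)] with X
      a1 a2 a3 a4 a5
    exact ⟨a1, a2, a3, a4, a5⟩
  obtain ⟨X₀, hX₀⟩ := eventually_atTop.mp ev
  refine ⟨B, B₂, C, X₀, hB1, hB2, ?_⟩
  intro X hX h hh1 hh2
  obtain ⟨b1, b2, b3, b4, b5⟩ := hX₀ X hX
  have hXR : (9 : ℝ) ≤ X := by exact_mod_cast b2
  have hX0 : (0 : ℝ) < X := by linarith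
  have hX1 : (1 : ℝ) ≤ X := by linarith
  have hL0 : 0 < Real.log X := by linarith
  have hL1 : 1 ≤ Real.log X := by linarith
  have hh0 : 0 < h := lt_of_lt_of_le (by positivity) hh1
  -- the size of `P`
  have hLB : 1 ≤ Real.log X ^ B₂ := one_le_pow₀ hL1
  have hP0 : 0 < Pn B₂ X := by
    unfold Pn
    exact Nat.ceil_pos.mpr (by linarith)
  have hPR : ((Pn B₂ X : ℕ) : ℝ) ≤ (X : ℝ) ^ (1 / 2 : ℝ) / 20 := by
    have e1 : ((Pn B₂ X : ℕ) : ℝ) < Real.log X ^ B₂ + 1 := Nat.ceil_lt_add_one (by positivity)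
    linarith
  set s : ℝ := (X : ℝ) ^ (1 / 2 : ℝ) with hs
  have hss : s * s = X := by
    rw [hs, ← Real.rpow_add hX0]
    norm_num
  have hs1 : 1 ≤ s := Real.one_le_rpow hX1 (by norm_num)
  have hPX : 20 * Pn B₂ X ≤ X := by
    have : (20 : ℝ) * (Pn B₂ X : ℕ) ≤ X := by nlinarith
    exact_mod_cast this
  obtain ⟨s1, s2⟩ := ev_size X (Pn B₂ X) hP0 hPX
  obtain ⟨N, hN⟩ : ∃ N : ℕ, N = Nn B₂ X := ⟨_, rfl⟩
  have s1' : 3 * X ≤ 4 * (N * Pn B₂ X) := by
    rw [hN]
    exact s1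
  have hNs : s ≤ N := by
    have e1 : (3 : ℝ) * X ≤ 4 * (N * (Pn B₂ X : ℕ)) := by exact_mod_cast s1'
    have e2 : (N : ℝ) * (Pn B₂ X : ℕ) ≤ N * (s / 20) := by gcongr
    have e3 : s * s * 3 ≤ N * s / 5 := by
      rw [hss]
      linarith
    have e4 : s * 15 ≤ N := by
      by_contra hc
      push Not at hc
      have : N * s < s * 15 * s := by
        have : 0 < s := by linarith
        gcongr
      nlinarith
    linarith
  have hN0 : (0 : ℝ) < N := by linarith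
  have hN1 : 1 ≤ N := by exact_mod_cast hs1.trans hNs
  have hlogN : 3 ≤ Real.log N := by
    have e1 : Real.log s ≤ Real.log N := Real.log_le_log (by linarith) hNs
    have e2 : Real.log s = 1 / 2 * Real.log X := by rw [hs, Real.log_rpow hX0]
    linarith
  have hN2 : 2 ≤ N := by
    by_contra hc
    have : N = 1 := by omega
    rw [this] at hlogN
    norm_num at hlogN
  have hNX : (N : ℝ) ≤ X := by
    have e1 : N * (5 * Pn B₂ X) ≤ 4 * X := by
      rw [hN]
      exact Nat.div_mul_le_self _ _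
    have e2 : N ≤ X := by
      by_contra hc
      push Not at hc
      have : (X + 1) * 5 ≤ N * (5 * Pn B₂ X) := Nat.mul_le_mul (by omega) (by omega)
      omega
    exact_mod_cast e2
  have hlogNX : Real.log N ≤ Real.log X := Real.log_le_log hN0 hNX
  have hδ0 : 0 < h / (8 * X) := by positivity
  have hδ3 : h / (8 * X) ≤ 1 / 3 := by
    have e1 : (X : ℝ) ^ (1 / 3 : ℝ) ≤ (X : ℝ) ^ (1 : ℝ) :=
      Real.rpow_le_rpow_of_exponent_le hX1 (by norm_num)
    rw [Real.rpow_one] at e1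
    rw [div_le_iff₀ (by positivity)]
    linarith
  have hδ₁0 : 0 < 1 / Real.log N ^ B := by
    have : 0 < Real.log N := by linarith
    positivity
  have hδ₁3 : 1 / Real.log N ^ B ≤ 1 / 3 := by
    apply one_div_le_one_div_of_le (by norm_num)
    calc (3 : ℝ) ≤ Real.log N := hlogN
      _ = Real.log N ^ 1 := (pow_one _).symm
      _ ≤ Real.log N ^ B := pow_le_pow_right₀ (by linarith) hB1
  obtain ⟨Z, L, a, hZ, hLc, hL, hv⟩ := hBox N hN2
  rw [← hN]
  set δ : ℝ := h / (8 * X) with hδ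
  set δ₁ : ℝ := 1 / Real.log N ^ B with hδ₁
  let f : List (ℕ × ℕ) → ℝ → ℝ := fun l y =>
    ∑ n ∈ Icc 1 (2 * Pn B₂ X * 2 ^ (siz l + l.length)), cS (Sn B₂ X) (cof Z l) n *
      (Wd w δ (Real.log n - y) - Wd w δ₁ (Real.log n - y))
  have hfi : ∀ l, MeasureTheory.Integrable (fun y => f l y ^ 2) := fun l =>
    ((h5 w hw).1 (cS (Sn B₂ X) (cof Z l)) (2 * Pn B₂ X * 2 ^ (siz l + l.length)) δ δ₁ hδ0 hδ₁0).1
  have hfb : ∀ l ∈ L, ∫ y, f l y ^ 2 ≤ X ^ 2 / Real.log X ^ (A + 17) := by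
    intro l hl
    obtain ⟨-, g1, g2, g3, g4, g5⟩ := hL l hl
    have := hEP' X b1 h hh1 hh2 Z l (by
      rw [← hN]
      exact ⟨hZ, g1, g2, g3, g4, g5⟩)
    rw [← hN] at this
    exact this
  have hkey : ∀ y : ℝ, Real.log X ≤ y → y ≤ Real.log (3 * X / 2) →
      (DD w B₂ X δ y - DD w B₂ X δ₁ y) ^ 2 ≤ (L.card * (Cb : ℝ) ^ 2) * ∑ l ∈ L, f l y ^ 2 := by
    intro y hy hy'
    rw [ev_dec h2 h4 w hw X N Z B₂ hP0 hPX hN hN1 L a hv δ δ₁ y hδ0 hδ₁0 hδ3
      hδ₁3 hy hy']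
    refine (Finset.sum_mul_sq_le_sq_mul_sq L a (fun l => f l y)).trans ?_
    gcongr
    calc ∑ l ∈ L, a l ^ 2 ≤ ∑ _l ∈ L, (Cb : ℝ) ^ 2 := by
          refine Finset.sum_le_sum fun l hl => ?_
          rw [← sq_abs]
          have := (hL l hl).1
          gcongr
      _ = L.card * (Cb : ℝ) ^ 2 := by rw [Finset.sum_const, nsmul_eq_mul]
  have hlog : Real.log X ≤ Real.log (3 * X / 2) := Real.log_le_log hX0 (by linarith)
  rw [intervalIntegral.integral_of_le hlog]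
  have hG : MeasureTheory.Integrable (fun y => (L.card * (Cb : ℝ) ^ 2) * ∑ l ∈ L, f l y ^ 2) :=
    (MeasureTheory.integrable_finsetSum _ fun l _ => hfi l).const_mul _
  calc ∫ y in Set.Ioc (Real.log X) (Real.log (3 * X / 2)),
        (DD w B₂ X δ y - DD w B₂ X δ₁ y) ^ 2
      ≤ ∫ y in Set.Ioc (Real.log X) (Real.log (3 * X / 2)),
          (L.card * (Cb : ℝ) ^ 2) * ∑ l ∈ L, f l y ^ 2 := by
        refine MeasureTheory.integral_mono_of_nonneg (Eventually.of_forall fun y => sq_nonneg _)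
          hG.integrableOn ?_
        refine MeasureTheory.ae_restrict_of_forall_mem measurableSet_Ioc fun y hy => ?_
        exact hkey y hy.1.le hy.2
    _ ≤ ∫ y, (L.card * (Cb : ℝ) ^ 2) * ∑ l ∈ L, f l y ^ 2 :=
        MeasureTheory.setIntegral_le_integral hG (Eventually.of_forall fun y => by positivity)
    _ = (L.card * (Cb : ℝ) ^ 2) * ∑ l ∈ L, ∫ y, f l y ^ 2 := by
        rw [MeasureTheory.integral_const_mul, MeasureTheory.integral_finsetSum _ fun l _ => hfi l]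
    _ ≤ (L.card * (Cb : ℝ) ^ 2) * (L.card * (X ^ 2 / Real.log X ^ (A + 17))) := by
        gcongr
        refine (Finset.sum_le_sum hfb).trans (le_of_eq ?_)
        rw [Finset.sum_const, nsmul_eq_mul]
    _ ≤ ((Cb * (2 * Real.log X) ^ 8) * (Cb : ℝ) ^ 2) *
          ((Cb * (2 * Real.log X) ^ 8) * (X ^ 2 / Real.log X ^ (A + 17))) := by
        have : (L.card : ℝ) ≤ Cb * (2 * Real.log X) ^ 8 := by
          refine hLc.trans ?_
          have : 0 ≤ Real.log N := by linarith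
          gcongr
          linarith
        gcongr
    _ = (Cb : ℝ) ^ 4 * 2 ^ 16 * (X ^ 2 / Real.log X ^ (A + 1)) := by
        have : Real.log X ^ (A + 17) = Real.log X ^ (A + 1) * Real.log X ^ 16 := by rw [← pow_add]
        rw [this]
        field_simp
    _ ≤ Real.log X * (X ^ 2 / Real.log X ^ (A + 1)) := by gcongr
    _ = X ^ 2 / Real.log X ^ A := by
        field_simp
        ring

end Pool.Agent.E2P
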