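import Mathlib
import Pool.Agent.E2P.St

set_option autoImplicit false

/-!
# E2P / H1

The mean square on a small set when a factor has medium size: the factor is estimated by its
maximum, the others by the mean square on a small set (HM).
-/

namespace Pool.Agent.E2P

open Finset Filter MeasureTheory
open Pool.Agent.SI (nit DP fac cof siz IsW Wd)

theorem h1_cont (c : ℕ → ℝ) (M : ℕ) : Continuous (fun t : ℝ => ‖DP c M t‖ ^ 2) := by
  unfold DP nit
  fun_prop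

theorem h1_int (c : ℕ → ℝ) (M : ℕ) (X : ℝ) (U : Set ℝ) (hU : ∀ t ∈ U, |t| ≤ X) :
    IntegrableOn (fun t : ℝ => ‖DP c M t‖ ^ 2) U := by
  have h := (h1_cont c M).continuousOn.integrableOn_compact (μ := volume)
    (isCompact_Icc (a := -X) (b := X))
  exact h.mono_set fun t ht => Set.mem_Icc.2 (abs_le.1 (hU t ht))

theorem h1_final {L K C₀ N2 : ℝ} {A CC : ℕ} (hL : 1 ≤ L) (hK : 2304 * C₀ * CC * 2 * 4 ^ CC ≤ L)
    (hN : 0 ≤ N2) (hK' : K ≤ 2304 * C₀ * CC * N2 * (2 * L) * (4 * L) ^ CC) :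
    K / L ^ (2 * (A + CC + 2)) ≤ N2 / L ^ A := by
  have hL0 : 0 < L := by linarith
  rw [div_le_div_iff₀ (by positivity) (by positivity)]
  have h1 : L * L ^ (A + CC + 1) ≤ L ^ (2 * (A + CC + 2)) := by
    rw [← pow_succ']
    exact pow_le_pow_right₀ hL (by omega)
  calc K * L ^ A ≤ (2304 * C₀ * CC * N2 * (2 * L) * (4 * L) ^ CC) * L ^ A :=
        mul_le_mul_of_nonneg_right hK' (by positivity)
    _ = N2 * ((2304 * C₀ * CC * 2 * 4 ^ CC) * L ^ (A + CC + 1)) := by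
        rw [mul_pow]
        ring
    _ ≤ N2 * (L * L ^ (A + CC + 1)) := by
        apply mul_le_mul_of_nonneg_left _ hN
        exact mul_le_mul_of_nonneg_right hK (by positivity)
    _ ≤ N2 * L ^ (2 * (A + CC + 2)) := mul_le_mul_of_nonneg_left h1 hN

theorem h1_siz {X N s : ℕ} (hL : 1 ≤ Real.log X) (hX : 2 ^ 10 * N ≤ X) (hs : 2 ^ s ≤ 3 * N) :
    1 + (s : ℝ) ≤ 4 * Real.log X := by
  have h1 : (2 : ℝ) ^ s ≤ X := by
    have : 2 ^ s ≤ X := by omega
    exact_mod_cast this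
  have h2 : Real.log ((2 : ℝ) ^ s) ≤ Real.log X := Real.log_le_log (by positivity) h1
  rw [Real.log_pow] at h2
  have h3 := Real.log_two_gt_d9
  have h4 : (0 : ℝ) ≤ s := Nat.cast_nonneg _
  nlinarith

theorem thm_H1 (h1 : St_HM) (h2 : SI.St_Fac) (h3 : SI.St_Cof) : St_H1 := by
  obtain ⟨hprod, hsupp, CC, hsum⟩ := h3
  obtain ⟨C₀, hC₀, hHM⟩ := h1
  intro A
  obtain ⟨B, X₁, hfac⟩ := h2.1 (A + CC + 2) (1 / 100) (by norm_num)
  have ev1 : ∀ᶠ X : ℕ in atTop, (2 : ℝ) ≤ (X : ℝ) ^ (1 / 1000 : ℝ) :=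
    ((tendsto_rpow_atTop (by norm_num)).comp tendsto_natCast_atTop_atTop).eventually_ge_atTop 2
  have ev2 : ∀ᶠ X : ℕ in atTop, max 1 (2304 * C₀ * CC * 2 * 4 ^ CC) ≤ Real.log X :=
    (Real.tendsto_log_atTop.comp tendsto_natCast_atTop_atTop).eventually_ge_atTop _
  obtain ⟨X₂, hX₂⟩ := eventually_atTop.1 (ev1.and (ev2.and (eventually_ge_atTop (max X₁ 4))))
  refine ⟨B, X₂, ?_⟩
  intro X hXX N Z l hbox hNX hXN x hx hx1 hx2 U hUm hU hV
  obtain ⟨e1, e2, e3⟩ := hX₂ X hXX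
  have hX1 : X₁ ≤ X := (le_max_left _ _).trans e3
  have hX4 : (4 : ℝ) ≤ X := by exact_mod_cast (le_max_right _ _).trans e3
  have hL1 : 1 ≤ Real.log X := (le_max_left _ _).trans e2
  have hLK := (le_max_right _ _).trans e2
  have hX0 : (0 : ℝ) < X := by linarith
  classical
  set l' := l.erase x with hl'
  have hperm : l.Perm (x :: l') := List.perm_cons_erase hx
  have hsiz : siz l = x.2 + siz l' := by
    unfold siz
    rw [(hperm.map Prod.snd).sum_eq]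
    simp
  have hlen : l.length = l'.length + 1 := by
    rw [hperm.length_eq, List.length_cons]
  have hlen' : l'.length ≤ 7 := by
    have := hbox.l8
    omega
  have hDP : ∀ t : ℝ, DP (cof Z l) (2 ^ (siz l + l.length)) t =
      DP (fac x.1 Z x.2) (2 ^ (x.2 + 1)) t * DP (cof Z l') (2 ^ (siz l' + l'.length)) t := by
    intro t
    rw [hprod, hprod, (hperm.map _).prod_eq]
    simp
  set M : ℕ := 2 ^ (siz l' + l'.length) with hM
  -- the size of `M`
  have hM1 : 1 ≤ M := Nat.one_le_two_pow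
  have hMs : M ≤ 2 ^ 7 * 2 ^ siz l' := by
    rw [hM, ← pow_add]
    exact Nat.pow_le_pow_right (by norm_num) (by omega)
  have hup : 2 ^ siz l' ≤ 3 * N := by
    have h4 := hbox.up
    have h5 : 2 ^ siz l' ≤ 2 ^ siz l := Nat.pow_le_pow_right (by norm_num) (by omega)
    omega
  have hMX : (M : ℝ) ≤ X := by
    have : M ≤ X := by omega
    exact_mod_cast this
  -- the first factor
  have h2i : 2 * (X : ℝ) ^ (497 / 1000 : ℝ) ≤ X := by
    have h4 : (X : ℝ) ^ (497 / 1000 : ℝ) ≤ (X : ℝ) ^ (1 / 2 : ℝ) :=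
      Real.rpow_le_rpow_of_exponent_le (by linarith) (by norm_num)
    have h5 : 2 ≤ (X : ℝ) ^ (1 / 2 : ℝ) := by
      rw [← Real.sqrt_eq_rpow]
      exact Real.le_sqrt_of_sq_le (by linarith)
    have h6 : (X : ℝ) ^ (1 / 2 : ℝ) * (X : ℝ) ^ (1 / 2 : ℝ) = X := by
      rw [← Real.rpow_add hX0]
      norm_num
    nlinarith [Real.rpow_nonneg hX0.le (497 / 1000 : ℝ)]
  have hi1 : 2 ^ (x.2 + 1) ≤ X := by
    have h4 : (2 : ℝ) ^ (x.2 + 1) ≤ X := by
      rw [pow_succ]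
      linarith
    exact_mod_cast h4
  have hF : ∀ t ∈ U, ‖DP (fac x.1 Z x.2) (2 ^ (x.2 + 1)) t‖ ≤
      2 ^ x.2 / Real.log X ^ (A + CC + 2) := by
    intro t ht
    refine hfac X Z x.1 x.2 hX1 (hbox.kind x hx) hx1 hi1 t (hU t ht).1 ?_
    have h4 := (hU t ht).2
    nlinarith
  -- the mean square
  have hVX : (X : ℝ) ^ (1 / 1000 : ℝ) * Real.sqrt X ≤ M := by
    rw [Real.sqrt_eq_rpow, ← Real.rpow_add hX0]
    have h4 : (X : ℝ) ^ (999 / 1000 : ℝ) = (X : ℝ) ^ (497 / 1000 : ℝ) *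
        ((X : ℝ) ^ (1 / 1000 : ℝ) * (X : ℝ) ^ (1 / 1000 + 1 / 2 : ℝ)) := by
      rw [← Real.rpow_add hX0, ← Real.rpow_add hX0]
      norm_num
    have h5 : (N : ℝ) ≤ 2 * 2 ^ x.2 * M := by
      have h6 : N ≤ 2 ^ (siz l + l.length) := hbox.low
      have h7 : 2 ^ (siz l + l.length) = 2 * 2 ^ x.2 * M := by
        rw [hM, hsiz, hlen]
        ring
      rw [h7] at h6
      exact_mod_cast h6
    have h6 : 0 < (X : ℝ) ^ (497 / 1000 : ℝ) := Real.rpow_pos_of_pos hX0 _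
    have h7 : 0 ≤ (X : ℝ) ^ (1 / 1000 + 1 / 2 : ℝ) := Real.rpow_nonneg hX0.le _
    have h8 : 2 * (2 : ℝ) ^ x.2 * M ≤ 2 * (X : ℝ) ^ (497 / 1000 : ℝ) * M :=
      mul_le_mul_of_nonneg_right (by linarith) (Nat.cast_nonneg _)
    have h9 : (X : ℝ) ^ (497 / 1000 : ℝ) * (2 * (X : ℝ) ^ (1 / 1000 + 1 / 2 : ℝ)) ≤
        (X : ℝ) ^ (497 / 1000 : ℝ) * ((X : ℝ) ^ (1 / 1000 : ℝ) *
          (X : ℝ) ^ (1 / 1000 + 1 / 2 : ℝ)) :=
      mul_le_mul_of_nonneg_left (mul_le_mul_of_nonneg_right e1 h7) h6.le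
    have h10 : (X : ℝ) ^ (497 / 1000 : ℝ) * (2 * (X : ℝ) ^ (1 / 1000 + 1 / 2 : ℝ)) ≤
        (X : ℝ) ^ (497 / 1000 : ℝ) * (2 * M) := by
      rw [← h4] at h9
      linarith
    have h11 := le_of_mul_le_mul_left h10 h6
    linarith
  have hI := hHM (cof Z l') M X ((X : ℝ) ^ (1 / 1000 : ℝ)) U hM1 hMX
    (Real.rpow_nonneg hX0.le _) hUm (fun t ht => (hU t ht).2) hV
  have hS := (hsum Z l' (by omega)).1
  rw [← hM] at hS
  -- the product
  have hJ : ∫ t in U, ‖DP (cof Z l) (2 ^ (siz l + l.length)) t‖ ^ 2 ≤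
      (2 ^ x.2 / Real.log X ^ (A + CC + 2)) ^ 2 * ∫ t in U, ‖DP (cof Z l') M t‖ ^ 2 := by
    rw [← integral_const_mul]
    refine setIntegral_mono_on (h1_int _ _ X U fun t ht => (hU t ht).2)
      ((h1_int _ _ X U fun t ht => (hU t ht).2).const_mul _) hUm fun t ht => ?_
    rw [hDP, norm_mul, mul_pow]
    apply mul_le_mul_of_nonneg_right _ (by positivity)
    exact pow_le_pow_left₀ (norm_nonneg _) (hF t ht) 2
  have hSs : (1 + (siz l' : ℝ)) ^ CC ≤ (4 * Real.log X) ^ CC := by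
    apply pow_le_pow_left₀ (by positivity)
    exact h1_siz hL1 hNX hup
  have hMs' : (M : ℝ) ≤ 128 * 2 ^ siz l' := by
    have : (M : ℝ) ≤ ((2 ^ 7 * 2 ^ siz l' : ℕ) : ℝ) := by exact_mod_cast hMs
    push_cast at this
    linarith
  have hq : 0 ≤ (2 : ℝ) ^ siz l' := by positivity
  have hS0 : 0 ≤ ∑ n ∈ Icc 1 M, cof Z l' n ^ 2 := sum_nonneg fun _ _ => by positivity
  have hI2 : ∫ t in U, ‖DP (cof Z l') M t‖ ^ 2 ≤
      256 * C₀ * CC * (2 ^ siz l') ^ 2 * (2 * Real.log X) * (4 * Real.log X) ^ CC := by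
    refine hI.trans ?_
    calc C₀ * (1 + Real.log X) * (M + (X : ℝ) ^ (1 / 1000 : ℝ) * Real.sqrt X) *
          ∑ n ∈ Icc 1 M, cof Z l' n ^ 2
        ≤ C₀ * (2 * Real.log X) * (2 * (128 * 2 ^ siz l')) *
          (CC * 2 ^ siz l' * (4 * Real.log X) ^ CC) := by
          apply mul_le_mul
          · apply mul_le_mul
            · exact mul_le_mul_of_nonneg_left (by linarith) hC₀.le
            · linarith
            · positivity
            · positivity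
          · exact hS.trans (mul_le_mul_of_nonneg_left hSs (by positivity))
          · exact hS0
          · positivity
      _ = 256 * C₀ * CC * (2 ^ siz l') ^ 2 * (2 * Real.log X) * (4 * Real.log X) ^ CC := by ring
  have hN : ((2 : ℝ) ^ x.2 * 2 ^ siz l') ^ 2 ≤ 9 * (N : ℝ) ^ 2 := by
    have h4 : (2 : ℝ) ^ x.2 * 2 ^ siz l' ≤ 3 * N := by
      rw [← pow_add, ← hsiz]
      exact_mod_cast hbox.up
    have h5 := pow_le_pow_left₀ (by positivity) h4 2
    linarith [mul_pow (3 : ℝ) N 2]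
  have hfin : (∫ t in U, ‖DP (cof Z l) (2 ^ (siz l + l.length)) t‖ ^ 2) ≤
      (2304 * C₀ * CC * (N : ℝ) ^ 2 * (2 * Real.log X) * (4 * Real.log X) ^ CC) /
        Real.log X ^ (2 * (A + CC + 2)) := by
    refine hJ.trans ((mul_le_mul_of_nonneg_left hI2 (by positivity)).trans ?_)
    have h5 : (Real.log X ^ (A + CC + 2)) ^ 2 = Real.log X ^ (2 * (A + CC + 2)) := by
      rw [← pow_mul, mul_comm]
    rw [div_pow, h5, div_mul_eq_mul_div]
    apply div_le_div_of_nonneg_right _ (by positivity)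
    calc ((2 : ℝ) ^ x.2) ^ 2 * (256 * C₀ * CC * (2 ^ siz l') ^ 2 * (2 * Real.log X) *
          (4 * Real.log X) ^ CC)
        = (256 * C₀ * CC * (2 * Real.log X) * (4 * Real.log X) ^ CC) *
          ((2 : ℝ) ^ x.2 * 2 ^ siz l') ^ 2 := by ring
      _ ≤ (256 * C₀ * CC * (2 * Real.log X) * (4 * Real.log X) ^ CC) * (9 * (N : ℝ) ^ 2) :=
          mul_le_mul_of_nonneg_left hN (by positivity)
      _ = 2304 * C₀ * CC * (N : ℝ) ^ 2 * (2 * Real.log X) * (4 * Real.log X) ^ CC := by ring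
  exact hfin.trans (h1_final hL1 hLK (by positivity) le_rfl)

end Pool.Agent.E2P
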