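import Pool.Agent.E2P.St
import Pool.Agent.SI.Var
import Pool.Agent.SI.Int

set_option autoImplicit false

/-!
# E2P / H2: mean square on a small set, a large factor
-/

namespace Pool.Agent.E2P

open Finset Filter MeasureTheory
open Pool.Agent.SI (nit DP fac cof siz IsW Wd)

/-- the integral of `1/t^2` far from zero -/
lemma h2_sq (R : ℝ) (hR : 0 < R) :
    IntegrableOn (fun t : ℝ => 1 / t ^ 2) {t | R ≤ |t|} ∧
      ∫ t in {t : ℝ | R ≤ |t|}, 1 / t ^ 2 ≤ 2 / R := by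
  have e1 : {t : ℝ | R ≤ |t|} = Set.Iic (-R) ∪ Set.Ici R := by
    ext t
    rw [Set.mem_ofPred_eq, Set.mem_union, Set.mem_Iic, Set.mem_Ici, le_abs]
    constructor
    · rintro (h | h)
      · exact Or.inr h
      · exact Or.inl (by linarith)
    · rintro (h | h)
      · exact Or.inr (by linarith)
      · exact Or.inl h
  have hdisj : Disjoint (Set.Iic (-R)) (Set.Ici R) := by
    rw [Set.disjoint_left]
    intro t h1 h2
    rw [Set.mem_Iic] at h1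
    rw [Set.mem_Ici] at h2
    linarith
  have hfun : ∀ t ∈ Set.Ioi R, t ^ (-2 : ℝ) = 1 / t ^ 2 := by
    intro t ht
    have ht0 : 0 < t := hR.trans ht
    rw [Real.rpow_neg ht0.le, one_div]
    congr 1
    exact_mod_cast Real.rpow_natCast t 2
  have i1 : IntegrableOn (fun t : ℝ => 1 / t ^ 2) (Set.Ioi R) := by
    refine (integrableOn_Ioi_rpow_of_lt (by norm_num : (-2 : ℝ) < -1) hR).congr_fun hfun
      measurableSet_Ioi
  have v1 : ∫ t in Set.Ioi R, (1 / t ^ 2 : ℝ) = 1 / R := by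
    rw [← setIntegral_congr_fun measurableSet_Ioi hfun,
      integral_Ioi_rpow_of_lt (by norm_num : (-2 : ℝ) < -1) hR]
    norm_num
    rw [Real.rpow_neg hR.le, Real.rpow_one]
  have i2 : IntegrableOn (fun t : ℝ => 1 / t ^ 2) (Set.Ici R) :=
    (integrableOn_Ici_iff_integrableOn_Ioi (by simp)).2 i1
  have v2 : ∫ t in Set.Ici R, (1 / t ^ 2 : ℝ) = 1 / R := by
    rw [integral_Ici_eq_integral_Ioi, v1]
  have i3 : IntegrableOn (fun t : ℝ => 1 / t ^ 2) (Set.Iic (-R)) := by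
    have h := i2.comp_neg
    rw [Set.neg_Ici] at h
    refine h.congr_fun (fun t _ => ?_) measurableSet_Iic
    show 1 / (-t) ^ 2 = 1 / t ^ 2
    rw [neg_sq]
  have v3 : ∫ t in Set.Iic (-R), (1 / t ^ 2 : ℝ) = 1 / R := by
    have h := integral_comp_neg_Iic (-R) (fun t : ℝ => (1 / t ^ 2 : ℝ))
    rw [neg_neg, v1] at h
    rw [← h]
    refine setIntegral_congr_fun measurableSet_Iic fun t _ => ?_
    show (1 / t ^ 2 : ℝ) = 1 / (-t) ^ 2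
    rw [neg_sq]
  rw [e1]
  refine ⟨i3.union i2, ?_⟩
  rw [setIntegral_union hdisj measurableSet_Ici i3 i2, v3, v2]
  exact le_of_eq (by ring)

/-- the bounds for a factor -/
lemma h2_point (C i f X T₁ t D : ℝ) (_ : 0 ≤ C) (hi : 0 ≤ i) (hf : 0 ≤ f) (hT₁ : 0 < T₁)
    (ht1 : 1 ≤ |t|) (htX : |t| ≤ X) (hD : 0 ≤ D)
    (h1 : D ≤ C * (1 + i) * (f / |t| + Real.sqrt |t|))
    (h2 : D ≤ C * (1 + i) * (Real.sqrt f * |t| ^ (1 / 6 : ℝ) + f * |t| ^ (-(1 / 6) : ℝ))) :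
    D ^ 2 ≤ 2 * C ^ 2 * (1 + i) ^ 2 * (f ^ 2 * (1 / t ^ 2) +
      (T₁ + f * X ^ (1 / 3 : ℝ) + f ^ 2 * T₁ ^ (-(1 / 3) : ℝ))) := by
  have ht0 : 0 < |t| := by linarith
  have hX0 : 0 < X := by linarith
  have hsq : ∀ a b : ℝ, (a + b) ^ 2 ≤ 2 * (a ^ 2 + b ^ 2) := fun a b => by
    nlinarith [sq_nonneg (a - b)]
  have hK1 : 0 ≤ f * X ^ (1 / 3 : ℝ) := by positivity
  have hK2 : 0 ≤ f ^ 2 * T₁ ^ (-(1 / 3) : ℝ) := by positivity
  have hK3 : 0 ≤ f ^ 2 * (1 / t ^ 2) := by positivity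
  rcases le_total |t| T₁ with h | h
  · calc D ^ 2 ≤ (C * (1 + i) * (f / |t| + Real.sqrt |t|)) ^ 2 := pow_le_pow_left₀ hD h1 2
      _ = C ^ 2 * (1 + i) ^ 2 * (f / |t| + Real.sqrt |t|) ^ 2 := by ring
      _ ≤ C ^ 2 * (1 + i) ^ 2 * (2 * ((f / |t|) ^ 2 + Real.sqrt |t| ^ 2)) :=
          mul_le_mul_of_nonneg_left (hsq _ _) (by positivity)
      _ = 2 * C ^ 2 * (1 + i) ^ 2 * (f ^ 2 * (1 / t ^ 2) + |t|) := by
          rw [Real.sq_sqrt ht0.le, div_pow, sq_abs]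
          ring
      _ ≤ _ := by
          refine mul_le_mul_of_nonneg_left ?_ (by positivity)
          linarith
  · have e1 : (|t| ^ (1 / 6 : ℝ)) ^ 2 = |t| ^ (1 / 3 : ℝ) := by
      rw [← Real.rpow_natCast, ← Real.rpow_mul ht0.le]
      norm_num
    have e2 : (|t| ^ (-(1 / 6) : ℝ)) ^ 2 = |t| ^ (-(1 / 3) : ℝ) := by
      rw [← Real.rpow_natCast, ← Real.rpow_mul ht0.le]
      norm_num
    have e3 : |t| ^ (1 / 3 : ℝ) ≤ X ^ (1 / 3 : ℝ) :=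
      Real.rpow_le_rpow ht0.le htX (by norm_num)
    have e4 : |t| ^ (-(1 / 3) : ℝ) ≤ T₁ ^ (-(1 / 3) : ℝ) :=
      Real.rpow_le_rpow_of_nonpos hT₁ h (by norm_num)
    calc D ^ 2 ≤ (C * (1 + i) * (Real.sqrt f * |t| ^ (1 / 6 : ℝ) +
            f * |t| ^ (-(1 / 6) : ℝ))) ^ 2 := pow_le_pow_left₀ hD h2 2
      _ = C ^ 2 * (1 + i) ^ 2 * (Real.sqrt f * |t| ^ (1 / 6 : ℝ) +
            f * |t| ^ (-(1 / 6) : ℝ)) ^ 2 := by ring
      _ ≤ C ^ 2 * (1 + i) ^ 2 * (2 * ((Real.sqrt f * |t| ^ (1 / 6 : ℝ)) ^ 2 +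
            (f * |t| ^ (-(1 / 6) : ℝ)) ^ 2)) :=
          mul_le_mul_of_nonneg_left (hsq _ _) (by positivity)
      _ = 2 * C ^ 2 * (1 + i) ^ 2 * (f * |t| ^ (1 / 3 : ℝ) + f ^ 2 * |t| ^ (-(1 / 3) : ℝ)) := by
          rw [mul_pow, mul_pow, Real.sq_sqrt hf, e1, e2]
          ring
      _ ≤ _ := by
          refine mul_le_mul_of_nonneg_left ?_ (by positivity)
          have e5 := mul_le_mul_of_nonneg_left e3 hf
          have e6 := mul_le_mul_of_nonneg_left e4 (by positivity : 0 ≤ f ^ 2)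
          linarith

/-- the constant term -/
lemma h2_const (X f : ℝ) (hX : 1 ≤ X) (hf : X ^ (497 / 1000 : ℝ) ≤ f) :
    (X ^ (496 / 1000 : ℝ) + f * X ^ (1 / 3 : ℝ) +
      f ^ 2 * (X ^ (496 / 1000 : ℝ)) ^ (-(1 / 3) : ℝ)) * X ^ (1 / 1000 : ℝ) ≤
      3 * (f ^ 2 * X ^ (-(1 / 10) : ℝ)) := by
  have hX0 : 0 < X := by linarith
  have hf1 : 0 < f := lt_of_lt_of_le (by positivity) hf
  have e0 : X ^ (1 / 10 : ℝ) ≤ f :=
    (Real.rpow_le_rpow_of_exponent_le hX (by norm_num)).trans hf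
  have e1 : X ^ (496 / 1000 : ℝ) * X ^ (1 / 1000 : ℝ) ≤ f ^ 2 * X ^ (-(1 / 10) : ℝ) := by
    rw [← Real.rpow_add hX0]
    have h1 : (1 : ℝ) ≤ f * X ^ (-(1 / 10) : ℝ) := by
      rw [Real.rpow_neg hX0.le, ← div_eq_mul_inv, one_le_div (by positivity)]
      exact e0
    calc X ^ (496 / 1000 + 1 / 1000 : ℝ) = X ^ (497 / 1000 : ℝ) := by norm_num
      _ ≤ f := hf
      _ = f * 1 := (mul_one f).symm
      _ ≤ f * (f * X ^ (-(1 / 10) : ℝ)) := mul_le_mul_of_nonneg_left h1 hf1.le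
      _ = f ^ 2 * X ^ (-(1 / 10) : ℝ) := by ring
  have e2 : f * X ^ (1 / 3 : ℝ) * X ^ (1 / 1000 : ℝ) ≤ f ^ 2 * X ^ (-(1 / 10) : ℝ) := by
    have h1 : X ^ (1 / 3 : ℝ) * X ^ (1 / 1000 : ℝ) ≤ f * X ^ (-(1 / 10) : ℝ) := by
      rw [← Real.rpow_add hX0]
      calc X ^ (1 / 3 + 1 / 1000 : ℝ) ≤ X ^ (497 / 1000 + -(1 / 10) : ℝ) :=
            Real.rpow_le_rpow_of_exponent_le hX (by norm_num)
        _ = X ^ (497 / 1000 : ℝ) * X ^ (-(1 / 10) : ℝ) := Real.rpow_add hX0 _ _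
        _ ≤ f * X ^ (-(1 / 10) : ℝ) := mul_le_mul_of_nonneg_right hf (by positivity)
    calc f * X ^ (1 / 3 : ℝ) * X ^ (1 / 1000 : ℝ) = f * (X ^ (1 / 3 : ℝ) * X ^ (1 / 1000 : ℝ)) := by
          ring
      _ ≤ f * (f * X ^ (-(1 / 10) : ℝ)) := mul_le_mul_of_nonneg_left h1 hf1.le
      _ = f ^ 2 * X ^ (-(1 / 10) : ℝ) := by ring
  have e3 : f ^ 2 * (X ^ (496 / 1000 : ℝ)) ^ (-(1 / 3) : ℝ) * X ^ (1 / 1000 : ℝ) ≤
      f ^ 2 * X ^ (-(1 / 10) : ℝ) := by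
    rw [mul_assoc]
    refine mul_le_mul_of_nonneg_left ?_ (by positivity)
    rw [← Real.rpow_mul hX0.le, ← Real.rpow_add hX0]
    exact Real.rpow_le_rpow_of_exponent_le hX (by norm_num)
  calc _ = X ^ (496 / 1000 : ℝ) * X ^ (1 / 1000 : ℝ) + f * X ^ (1 / 3 : ℝ) * X ^ (1 / 1000 : ℝ) +
        f ^ 2 * (X ^ (496 / 1000 : ℝ)) ^ (-(1 / 3) : ℝ) * X ^ (1 / 1000 : ℝ) := by ring
    _ ≤ _ := by linarith

theorem thm_H2 (h1 : SI.St_Fac) (h2 : SI.St_Cof) : St_H2 := by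
  obtain ⟨-, CF, hCF, hF⟩ := h1
  obtain ⟨hprod, -, CC, hsum⟩ := h2
  intro A
  obtain ⟨K₀, hK₀⟩ : ∃ K₀ : ℝ, K₀ = 18 * CF ^ 2 * (CC : ℝ) ^ 2 * 4 ^ (2 * CC + 2) := ⟨_, rfl⟩
  have hK₀0 : 0 ≤ K₀ := by rw [hK₀]; positivity
  have ev : ∀ᶠ X : ℕ in atTop, 1 ≤ X ∧ 1 ≤ Real.log X ∧ 4 * K₀ ≤ Real.log X ∧
      6 * K₀ * Real.log X ^ (A + 2 * CC + 2) ≤ (X : ℝ) ^ (1 / 10 : ℝ) ∧
      5 * Real.log X ^ 0 ≤ (X : ℝ) ^ (1 / 10 : ℝ) := by
    filter_upwards [eventually_ge_atTop 1, SI.var_log_large 1, SI.var_log_large (4 * K₀),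
      SI.var_log_pow (6 * K₀) (A + 2 * CC + 2) (1 / 10) (by norm_num),
      SI.var_log_pow 5 0 (1 / 10) (by norm_num)] with X a b c d e
    exact ⟨a, b, c, d, e⟩
  obtain ⟨X₀, hX₀⟩ := eventually_atTop.1 ev
  refine ⟨A + 2 * CC + 4, X₀, ?_⟩
  intro X hX N Z l hbox hNX hXN x hx hxl U hUm hU hUv
  obtain ⟨hX1, hL1, hLK, hLX, hX5⟩ := hX₀ X hX
  classical
  obtain ⟨L, hL⟩ : ∃ L, L = Real.log X := ⟨_, rfl⟩
  rw [← hL] at hL1 hLK hLX hU ⊢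
  have hXR : (1 : ℝ) ≤ X := by exact_mod_cast hX1
  have hX0 : (0 : ℝ) < X := by linarith
  have hL0 : 0 < L := by linarith
  rw [pow_zero, mul_one] at hX5
  obtain ⟨B, hB⟩ : ∃ B, B = A + 2 * CC + 4 := ⟨_, rfl⟩
  rw [← hB] at hU
  set l' := l.erase x with hl'
  have hperm : l.Perm (x :: l') := List.perm_cons_erase hx
  have hsiz : siz l = x.2 + siz l' := by
    unfold siz
    rw [(hperm.map Prod.snd).sum_eq]
    simp
  have hlen' : l'.length ≤ 8 := by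
    rw [hl', List.length_erase_of_mem hx]
    have := hbox.l8
    omega
  have hDP : ∀ t : ℝ, DP (cof Z l) (2 ^ (siz l + l.length)) t =
      DP (fac x.1 Z x.2) (2 ^ (x.2 + 1)) t * DP (cof Z l') (2 ^ (siz l' + l'.length)) t := by
    intro t
    rw [hprod, hprod, (hperm.map _).prod_eq]
    simp
  have hNp : (0 : ℝ) ≤ N := Nat.cast_nonneg _
  have hrhs : 0 ≤ (N : ℝ) ^ 2 / L ^ A := by positivity
  have hNX' : (N : ℝ) ≤ X := by
    have h3 : N ≤ X := by omega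
    exact_mod_cast h3
  rcases Nat.lt_or_ge x.1 2 with hk | hk
  swap
  · -- kind 2
    have hk2 : x.1 = 2 := le_antisymm (hbox.kind x hx) hk
    have hZN : Z < 2 ^ x.2 := by
      have h5 : (Z : ℝ) < 2 ^ x.2 := by
        calc (Z : ℝ) ≤ 4 * (N : ℝ) ^ (1 / 4 : ℝ) := hbox.hZ
          _ ≤ 4 * (X : ℝ) ^ (1 / 4 : ℝ) := by
              refine mul_le_mul_of_nonneg_left ?_ (by norm_num)
              exact Real.rpow_le_rpow hNp hNX' (by norm_num)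
          _ ≤ (X : ℝ) ^ (1 / 10 : ℝ) * (X : ℝ) ^ (1 / 4 : ℝ) := by
              refine mul_le_mul_of_nonneg_right ?_ (by positivity)
              linarith
          _ = (X : ℝ) ^ (1 / 10 + 1 / 4 : ℝ) := (Real.rpow_add hX0 _ _).symm
          _ ≤ (X : ℝ) ^ (497 / 1000 : ℝ) :=
              Real.rpow_le_rpow_of_exponent_le hXR (by norm_num)
          _ < 2 ^ x.2 := hxl
      exact_mod_cast h5
    have h6 : ∀ t : ℝ, ‖DP (cof Z l) (2 ^ (siz l + l.length)) t‖ ^ 2 = 0 := by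
      intro t
      rw [hDP, hk2, SI.int_fac_zero Z x.2 hZN, zero_mul, norm_zero]
      norm_num
    simp only [h6]
    simpa using hrhs
  -- kind 0 or 1
  obtain ⟨f, hf⟩ : ∃ f : ℝ, f = 2 ^ x.2 := ⟨_, rfl⟩
  rw [← hf] at hxl
  have hf0 : 0 < f := by rw [hf]; positivity
  obtain ⟨i, hi⟩ : ∃ i : ℝ, i = (x.2 : ℝ) := ⟨_, rfl⟩
  have hi0 : 0 ≤ i := by rw [hi]; positivity
  obtain ⟨s, hs⟩ : ∃ s : ℝ, s = (siz l' : ℝ) := ⟨_, rfl⟩
  have hs0 : 0 ≤ s := by rw [hs]; positivity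
  -- sizes
  have h2s : (2 : ℝ) ^ siz l ≤ 3 * N := by exact_mod_cast hbox.up
  have hszX : (siz l : ℝ) ≤ 3 * L := by
    have e1 : (2 : ℝ) ^ siz l ≤ X := by
      have e2 : 3 * N ≤ X := by omega
      have e3 : (3 : ℝ) * N ≤ X := by exact_mod_cast e2
      linarith
    have e2 : Real.log ((2 : ℝ) ^ siz l) ≤ Real.log X := Real.log_le_log (by positivity) e1
    rw [Real.log_pow, ← hL] at e2
    have e3 : (1 / 2 : ℝ) ≤ Real.log 2 := by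
      have := Real.log_two_gt_d9
      linarith
    have e4 : (siz l : ℝ) * (1 / 2) ≤ siz l * Real.log 2 :=
      mul_le_mul_of_nonneg_left e3 (Nat.cast_nonneg _)
    linarith
  have hsum' : (siz l : ℝ) = i + s := by
    rw [hsiz, hi, hs]
    push_cast
    ring
  have hi4 : 1 + i ≤ 4 * L := by linarith
  have hs4 : 1 + s ≤ 4 * L := by linarith
  -- the cofactor
  obtain ⟨G₀, hG₀⟩ : ∃ G₀ : ℝ, G₀ = CC * 2 ^ siz l' * (1 + s) ^ CC := ⟨_, rfl⟩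
  have hG₀0 : 0 ≤ G₀ := by rw [hG₀]; positivity
  have hcof : ∀ t : ℝ, ‖DP (cof Z l') (2 ^ (siz l' + l'.length)) t‖ ≤ G₀ := by
    intro t
    have e1 := (hsum Z l' hlen').2
    rw [← hs, ← hG₀] at e1
    exact (SI.var_DP_le _ _ _).trans e1
  have hG₀f : G₀ ^ 2 * f ^ 2 ≤ (CC : ℝ) ^ 2 * (4 * L) ^ (2 * CC) * (9 * N ^ 2) := by
    have e1 : (2 : ℝ) ^ siz l' * f ≤ 3 * N := by
      rw [hf, ← pow_add, add_comm, ← hsiz]
      exact h2s
    have e2 : (1 + s) ^ CC ≤ (4 * L) ^ CC := pow_le_pow_left₀ (by linarith) hs4 _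
    have e3 : G₀ * f ≤ CC * (4 * L) ^ CC * (3 * N) := by
      rw [hG₀]
      calc (CC : ℝ) * 2 ^ siz l' * (1 + s) ^ CC * f = CC * (1 + s) ^ CC * (2 ^ siz l' * f) := by ring
        _ ≤ CC * (4 * L) ^ CC * (3 * N) := by
            refine mul_le_mul (mul_le_mul_of_nonneg_left e2 (Nat.cast_nonneg _)) e1
              (by positivity) (by positivity)
    calc G₀ ^ 2 * f ^ 2 = (G₀ * f) ^ 2 := by ring
      _ ≤ (CC * (4 * L) ^ CC * (3 * N)) ^ 2 := pow_le_pow_left₀ (by positivity) e3 2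
      _ = (CC : ℝ) ^ 2 * (4 * L) ^ (2 * CC) * (9 * N ^ 2) := by
          rw [mul_pow, mul_pow, ← pow_mul, mul_comm CC 2]
          ring
  -- the integral
  obtain ⟨T₁, hT₁⟩ : ∃ T₁ : ℝ, T₁ = (X : ℝ) ^ (496 / 1000 : ℝ) := ⟨_, rfl⟩
  have hT₁0 : 0 < T₁ := by rw [hT₁]; positivity
  obtain ⟨K, hK⟩ : ∃ K : ℝ, K = T₁ + f * (X : ℝ) ^ (1 / 3 : ℝ) + f ^ 2 * T₁ ^ (-(1 / 3) : ℝ) :=
    ⟨_, rfl⟩
  have hK0 : 0 ≤ K := by rw [hK]; positivity
  have hLB1 : 1 ≤ L ^ B := one_le_pow₀ hL1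
  have hpt : ∀ t ∈ U, ‖DP (cof Z l) (2 ^ (siz l + l.length)) t‖ ^ 2 ≤
      G₀ ^ 2 * (2 * CF ^ 2 * (1 + i) ^ 2) * (f ^ 2 * (1 / t ^ 2) + K) := by
    intro t ht
    obtain ⟨ht1, ht2⟩ := hU t ht
    have ht3 : 1 ≤ |t| := by linarith
    obtain ⟨e1, e2⟩ := hF x.1 Z x.2 t (by omega) ht3
    rw [← hi, ← hf] at e1 e2
    have e3 := h2_point CF i f X T₁ t _ (by linarith) hi0 hf0.le hT₁0 ht3 ht2 (norm_nonneg _) e1 e2
    rw [← hK] at e3
    rw [hDP, norm_mul, mul_pow]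
    calc ‖DP (fac x.1 Z x.2) (2 ^ (x.2 + 1)) t‖ ^ 2 *
          ‖DP (cof Z l') (2 ^ (siz l' + l'.length)) t‖ ^ 2
        ≤ (2 * CF ^ 2 * (1 + i) ^ 2 * (f ^ 2 * (1 / t ^ 2) + K)) * G₀ ^ 2 := by
          refine mul_le_mul e3 (pow_le_pow_left₀ (norm_nonneg _) (hcof t) 2) (by positivity) ?_
          positivity
      _ = _ := by ring
  obtain ⟨hi1, hi2⟩ := h2_sq (L ^ B) (by positivity)
  have hUsub : U ⊆ {t : ℝ | L ^ B ≤ |t|} := fun t ht => (hU t ht).1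
  have hUtop : volume U ≠ ⊤ := (hUv.trans_lt ENNReal.ofReal_lt_top).ne
  have hUr : (volume U).toReal ≤ (X : ℝ) ^ (1 / 1000 : ℝ) :=
    ENNReal.toReal_le_of_le_ofReal (by positivity) hUv
  have hint1 : IntegrableOn (fun t : ℝ => 1 / t ^ 2) U := hi1.mono_set hUsub
  have hint2 : IntegrableOn (fun _ : ℝ => K) U := integrableOn_const hUtop
  have hint3 : IntegrableOn (fun t : ℝ => f ^ 2 * (1 / t ^ 2)) U := hint1.const_mul _
  have e1 : ∫ t in U, ‖DP (cof Z l) (2 ^ (siz l + l.length)) t‖ ^ 2 ≤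
      ∫ t in U, G₀ ^ 2 * (2 * CF ^ 2 * (1 + i) ^ 2) * (f ^ 2 * (1 / t ^ 2) + K) := by
    refine integral_mono_of_nonneg (Eventually.of_forall fun t => by positivity)
      ((hint3.add hint2).const_mul _) ?_
    exact (ae_restrict_mem hUm).mono fun t ht => hpt t ht
  have e2 : ∫ t in U, (1 / t ^ 2 : ℝ) ≤ 2 / L ^ B := by
    refine le_trans ?_ hi2
    exact setIntegral_mono_set hi1 (Eventually.of_forall fun t => by positivity)
      (Eventually.of_forall hUsub)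
  have e3 : ∫ t in U, (f ^ 2 * (1 / t ^ 2) + K) ≤
      f ^ 2 * (2 / L ^ B) + K * (X : ℝ) ^ (1 / 1000 : ℝ) := by
    rw [integral_add hint3 hint2, integral_const_mul, setIntegral_const, smul_eq_mul]
    refine add_le_add (mul_le_mul_of_nonneg_left e2 (by positivity)) ?_
    rw [mul_comm K]
    exact mul_le_mul_of_nonneg_right hUr hK0
  have e4 : K * (X : ℝ) ^ (1 / 1000 : ℝ) ≤ 3 * (f ^ 2 * (X : ℝ) ^ (-(1 / 10) : ℝ)) := by
    rw [hK, hT₁]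
    exact h2_const X f hXR hxl.le
  rw [integral_const_mul] at e1
  have hXm : 0 ≤ (X : ℝ) ^ (-(1 / 10) : ℝ) := by positivity
  have e5 : K₀ * L ^ (2 * CC + 2) * (2 / L ^ B + 3 * (X : ℝ) ^ (-(1 / 10) : ℝ)) ≤ 1 / L ^ A := by
    have e6 : K₀ * L ^ (2 * CC + 2) * (2 / L ^ B) ≤ 1 / (2 * L ^ A) := by
      rw [hB, mul_div_assoc', div_le_div_iff₀ (by positivity) (by positivity)]
      have e7 : L ^ (A + 2 * CC + 4) = L ^ (2 * CC + 2) * L ^ A * L ^ 2 := by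
        rw [← pow_add, ← pow_add]
        congr 1
        ring
      have e8 : 4 * K₀ ≤ L ^ 2 := by nlinarith
      rw [e7]
      calc K₀ * L ^ (2 * CC + 2) * 2 * (2 * L ^ A) = (L ^ (2 * CC + 2) * L ^ A) * (4 * K₀) := by
            ring
        _ ≤ (L ^ (2 * CC + 2) * L ^ A) * L ^ 2 := mul_le_mul_of_nonneg_left e8 (by positivity)
        _ = 1 * (L ^ (2 * CC + 2) * L ^ A * L ^ 2) := by ring
    have e9 : K₀ * L ^ (2 * CC + 2) * (3 * (X : ℝ) ^ (-(1 / 10) : ℝ)) ≤ 1 / (2 * L ^ A) := by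
      rw [Real.rpow_neg hX0.le, ← div_eq_mul_inv, mul_div_assoc',
        div_le_div_iff₀ (by positivity) (by positivity)]
      have e10 : L ^ (A + 2 * CC + 2) = L ^ (2 * CC + 2) * L ^ A := by
        rw [← pow_add]
        congr 1
        ring
      rw [e10] at hLX
      linarith
    have e11 : 1 / (2 * L ^ A) + 1 / (2 * L ^ A) = 1 / L ^ A := by
      field_simp
      norm_num
    rw [mul_add]
    linarith
  have hmain0 : 0 ≤ 2 / L ^ B + 3 * (X : ℝ) ^ (-(1 / 10) : ℝ) := by positivity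
  calc ∫ t in U, ‖DP (cof Z l) (2 ^ (siz l + l.length)) t‖ ^ 2
      ≤ G₀ ^ 2 * (2 * CF ^ 2 * (1 + i) ^ 2) *
          (f ^ 2 * (2 / L ^ B) + 3 * (f ^ 2 * (X : ℝ) ^ (-(1 / 10) : ℝ))) := by
        refine e1.trans (mul_le_mul_of_nonneg_left ?_ (by positivity))
        linarith
    _ = (G₀ ^ 2 * f ^ 2) * (2 * CF ^ 2 * (1 + i) ^ 2) *
          (2 / L ^ B + 3 * (X : ℝ) ^ (-(1 / 10) : ℝ)) := by ring
    _ ≤ ((CC : ℝ) ^ 2 * (4 * L) ^ (2 * CC) * (9 * N ^ 2)) * (2 * CF ^ 2 * (4 * L) ^ 2) *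
          (2 / L ^ B + 3 * (X : ℝ) ^ (-(1 / 10) : ℝ)) := by
        refine mul_le_mul_of_nonneg_right ?_ hmain0
        refine mul_le_mul hG₀f ?_ (by positivity) (by positivity)
        refine mul_le_mul_of_nonneg_left ?_ (by positivity)
        exact pow_le_pow_left₀ (by linarith) hi4 2
    _ = N ^ 2 * (K₀ * L ^ (2 * CC + 2) * (2 / L ^ B + 3 * (X : ℝ) ^ (-(1 / 10) : ℝ))) := by
        rw [hK₀, mul_pow, mul_pow, pow_add (4 : ℝ), pow_add L]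
        ring
    _ ≤ N ^ 2 * (1 / L ^ A) := mul_le_mul_of_nonneg_left e5 (by positivity)
    _ = N ^ 2 / L ^ A := by ring

end Pool.Agent.E2P
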