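import Mathlib
import Pool.Agent.E2P.St
import Pool.Agent.SI.Var

set_option autoImplicit false

/-!
# E2P / HM

The mean square on a set of measure `V`.
-/

namespace Pool.Agent.E2P

open Finset Filter MeasureTheory
open Pool.Agent.SI (nit DP)

/-! ## The kernel -/

theorem hm_D_add (u : ℝ) (N N' : ℕ) (h : N ≤ N') :
    ∑ n ∈ Icc 1 N', nit u n = ∑ n ∈ Icc 1 N, nit u n + ∑ n ∈ Ioc N N', nit u n := by
  have h1 : Icc 1 N' = Ioc 0 N' := by ext; simp [Nat.lt_iff_add_one_le]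
  have h2 : Icc 1 N = Ioc 0 N := by ext; simp [Nat.lt_iff_add_one_le]
  rw [h1, h2]
  exact (Finset.sum_Ioc_consecutive (fun n => nit u n) (Nat.zero_le N) h).symm

theorem hm_D_triv (u : ℝ) (M : ℕ) : ‖∑ n ∈ Icc 1 M, nit u n‖ ≤ M := by
  refine (norm_sum_le _ _).trans (le_of_eq ?_)
  rw [sum_congr rfl (fun n _ => SI.var_norm_nit u n)]
  simp

theorem hm_D_pow {C : ℝ} (hC : 1 ≤ C)
    (h : ∀ (N N' : ℕ) (t : ℝ), 1 ≤ N → N' ≤ 2 * N → 1 ≤ |t| →
      ‖∑ n ∈ Ioc N N', nit t n‖ ≤ C * (N / |t| + Real.sqrt |t|)) {u : ℝ} (hu : 1 ≤ |u|) (k : ℕ) :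
    ‖∑ n ∈ Icc 1 (2 ^ k), nit u n‖ ≤ 1 + C * (2 ^ k / |u| + k * Real.sqrt |u|) := by
  have hu0 : 0 < |u| := by linarith
  induction k with
  | zero =>
    have h1 := hm_D_triv u 1
    have h2 : 0 ≤ C * (2 ^ 0 / |u| + ((0 : ℕ) : ℝ) * Real.sqrt |u|) := by positivity
    simp only [pow_zero, Nat.cast_one] at h1 h2 ⊢
    linarith
  | succ k ih =>
    rw [hm_D_add u (2 ^ k) (2 ^ (k + 1)) (Nat.pow_le_pow_right (by norm_num) (Nat.le_succ k))]
    refine (norm_add_le _ _).trans ?_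
    have h1 := h (2 ^ k) (2 ^ (k + 1)) u (Nat.one_le_two_pow) (by rw [pow_succ]; omega) hu
    push_cast at h1 ⊢
    have e1 : (2 : ℝ) ^ (k + 1) / |u| = 2 ^ k / |u| + 2 ^ k / |u| := by
      rw [pow_succ]; ring
    rw [e1]
    nlinarith [ih, h1]

theorem hm_D_large {C : ℝ} (hC : 1 ≤ C)
    (h : ∀ (N N' : ℕ) (t : ℝ), 1 ≤ N → N' ≤ 2 * N → 1 ≤ |t| →
      ‖∑ n ∈ Ioc N N', nit t n‖ ≤ C * (N / |t| + Real.sqrt |t|)) {u : ℝ} (hu : 1 ≤ |u|) {M : ℕ}
    (hM : 1 ≤ M) :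
    ‖∑ n ∈ Icc 1 M, nit u n‖ ≤
      1 + C * (2 * M / |u| + (1 + 2 * Real.log M) * Real.sqrt |u|) := by
  have hu0 : 0 < |u| := by linarith
  set k := Nat.log 2 M with hk
  have h2k : 2 ^ k ≤ M := Nat.pow_log_le_self 2 (by omega)
  have h2k' : M < 2 ^ (k + 1) := Nat.lt_pow_succ_log_self (by norm_num) M
  have h2kr : (2 : ℝ) ^ k ≤ M := by exact_mod_cast h2k
  rw [hm_D_add u (2 ^ k) M h2k]
  refine (norm_add_le _ _).trans ?_
  have h1 := hm_D_pow hC h hu k
  have h2 := h (2 ^ k) M u Nat.one_le_two_pow (by rw [pow_succ] at h2k'; omega) hu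
  push_cast at h2
  have h3 : (k : ℝ) ≤ 2 * Real.log M := by
    have e1 : (k : ℝ) * Real.log 2 ≤ Real.log M := by
      rw [← Real.log_pow]
      exact Real.log_le_log (by positivity) h2kr
    have e2 : (1 / 2 : ℝ) ≤ Real.log 2 := by linarith [Real.log_two_gt_d9]
    have e3 : (0 : ℝ) ≤ k := Nat.cast_nonneg k
    nlinarith
  have h4 : (2 : ℝ) ^ k / |u| ≤ M / |u| := by gcongr
  have h5 : (k : ℝ) * Real.sqrt |u| ≤ 2 * Real.log M * Real.sqrt |u| := by gcongr
  have e4 : 2 * (M : ℝ) / |u| = M / |u| + M / |u| := by ring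
  rw [e4]
  have hC0 : 0 ≤ C := by linarith
  have h6 := mul_le_mul_of_nonneg_left h4 hC0
  have h7 := mul_le_mul_of_nonneg_left h5 hC0
  nlinarith [h1, h2, h6, h7]

/-- one bound for all `u` -/
theorem hm_D_all {C : ℝ} (hC : 1 ≤ C)
    (h : ∀ (N N' : ℕ) (t : ℝ), 1 ≤ N → N' ≤ 2 * N → 1 ≤ |t| →
      ‖∑ n ∈ Ioc N N', nit t n‖ ≤ C * (N / |t| + Real.sqrt |t|)) {u X : ℝ} {M : ℕ}
    (hM : 1 ≤ M) (hMX : (M : ℝ) ≤ X) (hu : |u| ≤ 2 * X) :
    ‖∑ n ∈ Icc 1 M, nit u n‖ ≤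
      4 * C * M * (1 + |u|)⁻¹ + 6 * C * (1 + Real.log X) * Real.sqrt X := by
  have hM1 : (1 : ℝ) ≤ M := by exact_mod_cast hM
  have hX1 : 1 ≤ X := hM1.trans hMX
  have hl : 0 ≤ Real.log X := Real.log_nonneg hX1
  have hK : 0 ≤ 6 * C * (1 + Real.log X) * Real.sqrt X := by positivity
  rcases lt_or_ge |u| 1 with h1 | h1
  · have h2 := hm_D_triv u M
    have h3 : (1 / 2 : ℝ) ≤ (1 + |u|)⁻¹ := by
      rw [one_div]
      exact inv_anti₀ (by positivity) (by linarith)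
    have h4 : 4 * C * M * (1 / 2) ≤ 4 * C * M * (1 + |u|)⁻¹ := by gcongr
    have h5 : (M : ℝ) ≤ 4 * C * M * (1 / 2) := by nlinarith
    linarith
  · have h2 := hm_D_large hC h h1 hM
    have hu0 : 0 < |u| := by linarith
    have h3 : (1 : ℝ) / |u| ≤ 2 * (1 + |u|)⁻¹ := by
      rw [← div_eq_mul_inv, div_le_div_iff₀ hu0 (by positivity)]
      linarith
    have h4 : 2 * (M : ℝ) / |u| ≤ 4 * M * (1 + |u|)⁻¹ := by
      have : 2 * (M : ℝ) / |u| = 2 * M * (1 / |u|) := by ring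
      rw [this]
      calc 2 * (M : ℝ) * (1 / |u|) ≤ 2 * M * (2 * (1 + |u|)⁻¹) := by gcongr
        _ = _ := by ring
    have h5 : Real.sqrt |u| ≤ 2 * Real.sqrt X := by
      rw [show 2 * Real.sqrt X = Real.sqrt (4 * X) by
        rw [Real.sqrt_mul (by norm_num), show (4 : ℝ) = 2 ^ 2 by norm_num,
          Real.sqrt_sq (by norm_num)]]
      exact Real.sqrt_le_sqrt (by linarith)
    have h6 : Real.log M ≤ Real.log X := Real.log_le_log (by linarith) hMX
    have h7 : 1 ≤ Real.sqrt X := Real.one_le_sqrt.mpr hX1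
    have hlM : 0 ≤ Real.log M := Real.log_nonneg hM1
    have h8 : (1 + 2 * Real.log M) * Real.sqrt |u| ≤ (1 + 2 * Real.log X) * (2 * Real.sqrt X) := by
      gcongr
    have hC0 : 0 ≤ C := by linarith
    have h9 := mul_le_mul_of_nonneg_left (add_le_add h4 h8) hC0
    have h10 : 1 ≤ C * Real.sqrt X := by nlinarith
    have h11 : 0 ≤ C * Real.sqrt X * Real.log X := by positivity
    nlinarith [h2, h9, h10, h11]

/-! ## The integral of the kernel -/

theorem hm_inv_cont (t : ℝ) : Continuous (fun s : ℝ => (1 + |t - s|)⁻¹) := by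
  refine Continuous.inv₀ (by fun_prop) fun s => ?_
  positivity

theorem hm_int_half {Y : ℝ} (hY : 0 ≤ Y) : ∫ u in (0 : ℝ)..Y, (1 + |u|)⁻¹ = Real.log (1 + Y) := by
  have h1 : ∫ u in (0 : ℝ)..Y, (1 + |u|)⁻¹ = ∫ u in (0 : ℝ)..Y, (1 + u)⁻¹ := by
    refine intervalIntegral.integral_congr fun u hu => ?_
    rw [Set.uIcc_of_le hY] at hu
    change (1 + |u|)⁻¹ = (1 + u)⁻¹
    rw [abs_of_nonneg hu.1]
  rw [h1]
  have h2 : ∫ u in (0 : ℝ)..Y, (1 + u)⁻¹ = ∫ u in (1 + 0 : ℝ)..(1 + Y), u⁻¹ :=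
    intervalIntegral.integral_comp_add_left (fun u : ℝ => u⁻¹) 1
  rw [h2, add_zero, integral_inv_of_pos one_pos (by linarith), div_one]

theorem hm_int_full {Y : ℝ} (hY : 0 ≤ Y) :
    ∫ u in (-Y)..Y, (1 + |u|)⁻¹ = 2 * Real.log (1 + Y) := by
  have hc : Continuous (fun u : ℝ => (1 + |u|)⁻¹) :=
    Continuous.inv₀ (by fun_prop) fun s => by positivity
  rw [← intervalIntegral.integral_add_adjacent_intervals (b := 0)
    (hc.intervalIntegrable _ _) (hc.intervalIntegrable _ _)]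
  have h1 : ∫ u in (-Y)..0, (1 + |u|)⁻¹ = ∫ u in (0 : ℝ)..Y, (1 + |u|)⁻¹ := by
    have := intervalIntegral.integral_comp_neg (a := 0) (b := Y) (fun u : ℝ => (1 + |u|)⁻¹)
    simp only [abs_neg, neg_zero] at this
    exact this.symm
  rw [h1, hm_int_half hY]
  ring

theorem hm_int_ker {U : Set ℝ} {X : ℝ} (hX : 1 ≤ X)
    (hUX : ∀ t ∈ U, |t| ≤ X) {t : ℝ} (ht : |t| ≤ X) :
    ∫ s in U, (1 + |t - s|)⁻¹ ≤ 4 * (1 + Real.log X) := by
  have hsub : U ⊆ Set.Icc (t - 2 * X) (t + 2 * X) := by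
    intro s hs
    have h1 := abs_le.mp (hUX s hs)
    have h2 := abs_le.mp ht
    constructor <;> linarith [h1.1, h1.2, h2.1, h2.2]
  have hi : IntegrableOn (fun s : ℝ => (1 + |t - s|)⁻¹) (Set.Icc (t - 2 * X) (t + 2 * X)) :=
    (hm_inv_cont t).integrableOn_Icc
  have h1 : ∫ s in U, (1 + |t - s|)⁻¹ ≤ ∫ s in Set.Icc (t - 2 * X) (t + 2 * X), (1 + |t - s|)⁻¹ := by
    refine setIntegral_mono_set hi ?_ (Eventually.of_forall hsub)
    exact Eventually.of_forall fun s => by positivity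
  refine h1.trans ?_
  rw [integral_Icc_eq_integral_Ioc, ← intervalIntegral.integral_of_le (by linarith)]
  have h2 : ∫ s in (t - 2 * X)..(t + 2 * X), (1 + |t - s|)⁻¹ =
      ∫ u in (-(2 * X))..(2 * X), (1 + |u|)⁻¹ := by
    have := intervalIntegral.integral_comp_sub_left (a := t - 2 * X) (b := t + 2 * X)
      (fun u : ℝ => (1 + |u|)⁻¹) t
    rw [this]
    congr 1 <;> ring
  rw [h2, hm_int_full (by linarith)]
  have h3 : Real.log (1 + 2 * X) ≤ Real.log (3 * X) :=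
    Real.log_le_log (by linarith) (by linarith)
  have h4 : Real.log (3 * X) = Real.log 3 + Real.log X :=
    Real.log_mul (by norm_num) (by linarith)
  have h5 : Real.log 3 ≤ 2 := by
    have := Real.log_le_sub_one_of_pos (show (0 : ℝ) < 3 by norm_num)
    linarith
  have h6 : 0 ≤ Real.log X := Real.log_nonneg hX
  linarith

/-! ## Duality -/

/-- the double integral -/
theorem hm_dual {U : Set ℝ} (hfin : volume U ≠ ⊤) (c : ℕ → ℝ) (M : ℕ) {S : ℝ}
    (hU : MeasurableSet U)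
    (hS : ∀ t ∈ U, ∫ s in U, ‖∑ n ∈ Icc 1 M, nit (t - s) n‖ ≤ S) :
    ∑ n ∈ Icc 1 M, ‖∫ t in U, nit t n * (starRingEnd ℂ) (DP c M t)‖ ^ 2 ≤
      S * ∫ t in U, ‖DP c M t‖ ^ 2 := by
  have : IsFiniteMeasure (volume.restrict U) := ⟨by
    rw [Measure.restrict_apply_univ]; exact lt_top_iff_ne_top.mpr hfin⟩
  set μ : Measure ℝ := volume.restrict U with hμ
  set f : ℝ → ℂ := fun t => DP c M t with hf
  have hfc : Continuous f := SI.var_DP_cont c M
  set B : ℝ := ∑ n ∈ Icc 1 M, |c n| with hB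
  have hfB : ∀ t, ‖f t‖ ≤ B := fun t => SI.var_DP_le c M t
  have hB0 : 0 ≤ B := (norm_nonneg _).trans (hfB 0)
  set D : ℝ → ℂ := fun u => ∑ n ∈ Icc 1 M, nit u n with hD
  have hDc : Continuous D := by
    simp only [hD]
    unfold nit
    fun_prop
  have hDM : ∀ u, ‖D u‖ ≤ M := fun u => hm_D_triv u M
  have hM0 : (0 : ℝ) ≤ M := Nat.cast_nonneg M
  have hnc : ∀ n, Continuous (fun t : ℝ => nit t n) := by
    intro n
    unfold nit
    fun_prop
  have hcc : Continuous (fun t : ℝ => (starRingEnd ℂ) (f t)) :=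
    Complex.continuous_conj.comp hfc
  -- the square as a double integral
  have h1 : ∀ n, (((‖∫ t, nit t n * (starRingEnd ℂ) (f t) ∂μ‖ ^ 2 : ℝ)) : ℂ) =
      ∫ z : ℝ × ℝ, (starRingEnd ℂ) (f z.1) * f z.2 * nit (z.1 - z.2) n ∂(μ.prod μ) := by
    intro n
    have e1 : (∫ z : ℝ × ℝ, (nit z.1 n * (starRingEnd ℂ) (f z.1)) *
        ((starRingEnd ℂ) (nit z.2 n * (starRingEnd ℂ) (f z.2))) ∂(μ.prod μ)) =
        (∫ t, nit t n * (starRingEnd ℂ) (f t) ∂μ) *
          (∫ t, (starRingEnd ℂ) (nit t n * (starRingEnd ℂ) (f t)) ∂μ) :=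
      integral_prod_mul (fun t : ℝ => nit t n * (starRingEnd ℂ) (f t))
        (fun t : ℝ => (starRingEnd ℂ) (nit t n * (starRingEnd ℂ) (f t)))
    rw [integral_conj, Complex.mul_conj, Complex.normSq_eq_norm_sq] at e1
    rw [← e1]
    refine integral_congr_ae (Eventually.of_forall fun z => ?_)
    simp only
    rw [map_mul, Complex.conj_conj]
    have e2 : nit z.1 n * (starRingEnd ℂ) (nit z.2 n) = nit (z.1 - z.2) n := by
      unfold nit
      rw [← Complex.exp_conj, map_mul, Complex.conj_I, Complex.conj_ofReal, ← Complex.exp_add]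
      congr 1
      push_cast
      ring
    rw [← e2]
    ring
  have hbd : ∀ n, Integrable (fun z : ℝ × ℝ =>
      (starRingEnd ℂ) (f z.1) * f z.2 * nit (z.1 - z.2) n) (μ.prod μ) := by
    intro n
    refine Integrable.of_bound (C := B * B) ?_ (Eventually.of_forall fun z => ?_)
    · have : Continuous (fun z : ℝ × ℝ =>
          (starRingEnd ℂ) (f z.1) * f z.2 * nit (z.1 - z.2) n) :=
        ((hcc.comp continuous_fst).mul (hfc.comp continuous_snd)).mul
          ((hnc n).comp (continuous_fst.sub continuous_snd))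
      exact this.aestronglyMeasurable
    · rw [norm_mul, norm_mul, RCLike.norm_conj, SI.var_norm_nit, mul_one]
      exact mul_le_mul (hfB _) (hfB _) (norm_nonneg _) hB0
  have h2 : (((∑ n ∈ Icc 1 M, ‖∫ t, nit t n * (starRingEnd ℂ) (f t) ∂μ‖ ^ 2 : ℝ)) : ℂ) =
      ∫ z : ℝ × ℝ, (starRingEnd ℂ) (f z.1) * f z.2 * D (z.1 - z.2) ∂(μ.prod μ) := by
    rw [Complex.ofReal_sum, sum_congr rfl (fun n _ => h1 n), ← integral_finsetSum]
    · refine integral_congr_ae (Eventually.of_forall fun z => ?_)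
      simp only [hD]
      rw [mul_sum]
    · intro n _
      exact hbd n
  have h3 : ∑ n ∈ Icc 1 M, ‖∫ t, nit t n * (starRingEnd ℂ) (f t) ∂μ‖ ^ 2 ≤
      ∫ z : ℝ × ℝ, ‖(starRingEnd ℂ) (f z.1) * f z.2 * D (z.1 - z.2)‖ ∂(μ.prod μ) := by
    have e := norm_integral_le_integral_norm (μ := μ.prod μ)
      (fun z : ℝ × ℝ => (starRingEnd ℂ) (f z.1) * f z.2 * D (z.1 - z.2))
    rw [← h2, Complex.norm_real, Real.norm_eq_abs] at e
    exact (le_abs_self _).trans e
  refine h3.trans ?_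
  -- the integrals of the two parts
  have hg : ∀ (a : ℝ × ℝ → ℂ), Continuous a → (∀ z, ‖a z‖ ≤ B) →
      Integrable (fun z : ℝ × ℝ => ‖a z‖ ^ 2 * ‖D (z.1 - z.2)‖) (μ.prod μ) := by
    intro a ha haB
    refine Integrable.of_bound (C := B ^ 2 * M) ?_ (Eventually.of_forall fun z => ?_)
    · have : Continuous (fun z : ℝ × ℝ => ‖a z‖ ^ 2 * ‖D (z.1 - z.2)‖) :=
        (ha.norm.pow 2).mul (hDc.comp (continuous_fst.sub continuous_snd)).norm
      exact this.aestronglyMeasurable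
    · rw [Real.norm_eq_abs, abs_of_nonneg (by positivity)]
      have e1 := haB z
      have e2 := hDM (z.1 - z.2)
      have e3 := norm_nonneg (a z)
      gcongr
  have g1 := hg (fun z => f z.1) (hfc.comp continuous_fst) (fun z => hfB _)
  have g2 := hg (fun z => f z.2) (hfc.comp continuous_snd) (fun z => hfB _)
  have h4 : ∫ z : ℝ × ℝ, ‖f z.1‖ ^ 2 * ‖D (z.1 - z.2)‖ ∂(μ.prod μ) ≤
      S * ∫ t, ‖f t‖ ^ 2 ∂μ := by
    rw [integral_prod _ g1]
    have e1 : ∀ t : ℝ, ∫ s, ‖f t‖ ^ 2 * ‖D (t - s)‖ ∂μ = ‖f t‖ ^ 2 * ∫ s, ‖D (t - s)‖ ∂μ :=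
      fun t => integral_const_mul _ _
    simp only [e1]
    rw [← integral_const_mul]
    refine setIntegral_mono_on ?_ ?_ hU ?_
    · have := g1.integral_prod_left
      simp only [e1] at this
      exact this
    · refine Integrable.const_mul ?_ S
      refine Integrable.of_bound (C := B ^ 2) (hfc.norm.pow 2).aestronglyMeasurable
        (Eventually.of_forall fun t => ?_)
      rw [Real.norm_eq_abs, abs_of_nonneg (by positivity)]
      have := hfB t
      gcongr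
    · intro t ht
      rw [mul_comm]
      exact mul_le_mul_of_nonneg_right (hS t ht) (by positivity)
  have hsymm : ∀ u, ‖D (-u)‖ = ‖D u‖ := by
    intro u
    have e1 : D (-u) = (starRingEnd ℂ) (D u) := by
      simp only [hD]
      rw [map_sum]
      exact sum_congr rfl fun n _ => SI.var_nit_neg u n
    rw [e1, RCLike.norm_conj]
  have h5 : ∫ z : ℝ × ℝ, ‖f z.2‖ ^ 2 * ‖D (z.1 - z.2)‖ ∂(μ.prod μ) =
      ∫ z : ℝ × ℝ, ‖f z.1‖ ^ 2 * ‖D (z.1 - z.2)‖ ∂(μ.prod μ) := by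
    rw [← integral_prod_swap]
    refine integral_congr_ae (Eventually.of_forall fun z => ?_)
    simp only [Prod.fst_swap, Prod.snd_swap]
    rw [← hsymm (z.2 - z.1), neg_sub]
  calc ∫ z : ℝ × ℝ, ‖(starRingEnd ℂ) (f z.1) * f z.2 * D (z.1 - z.2)‖ ∂(μ.prod μ)
      ≤ ∫ z : ℝ × ℝ, (1 / 2 * (‖f z.1‖ ^ 2 * ‖D (z.1 - z.2)‖) +
          1 / 2 * (‖f z.2‖ ^ 2 * ‖D (z.1 - z.2)‖)) ∂(μ.prod μ) := by
        refine integral_mono_of_nonneg (Eventually.of_forall fun z => norm_nonneg _)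
          ((g1.const_mul _).add (g2.const_mul _)) (Eventually.of_forall fun z => ?_)
        simp only
        rw [norm_mul, norm_mul, RCLike.norm_conj]
        have e1 : ‖f z.1‖ * ‖f z.2‖ ≤ 1 / 2 * ‖f z.1‖ ^ 2 + 1 / 2 * ‖f z.2‖ ^ 2 := by
          nlinarith [sq_nonneg (‖f z.1‖ - ‖f z.2‖)]
        have e2 := mul_le_mul_of_nonneg_right e1 (norm_nonneg (D (z.1 - z.2)))
        linarith
    _ = 1 / 2 * (∫ z : ℝ × ℝ, ‖f z.1‖ ^ 2 * ‖D (z.1 - z.2)‖ ∂(μ.prod μ)) +
        1 / 2 * (∫ z : ℝ × ℝ, ‖f z.2‖ ^ 2 * ‖D (z.1 - z.2)‖ ∂(μ.prod μ)) := by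
        rw [integral_add (g1.const_mul _) (g2.const_mul _), integral_const_mul,
          integral_const_mul]
    _ = ∫ z : ℝ × ℝ, ‖f z.1‖ ^ 2 * ‖D (z.1 - z.2)‖ ∂(μ.prod μ) := by
        rw [h5]; ring
    _ ≤ _ := h4

theorem thm_HM (h : SI.St_VC) : St_HM := by
  obtain ⟨C, hC, hVC⟩ := h
  have hD := fun N N' t h1 h2 h3 => (hVC N N' t h1 h2 h3).1
  refine ⟨16 * C, by linarith, ?_⟩
  intro c M X V U hM hMX hV hU hUX hUV
  have hM1 : (1 : ℝ) ≤ M := by exact_mod_cast hM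
  have hX1 : 1 ≤ X := hM1.trans hMX
  have hl : 0 ≤ Real.log X := Real.log_nonneg hX1
  have hfin : volume U ≠ ⊤ := (lt_of_le_of_lt hUV ENNReal.ofReal_lt_top).ne
  have : IsFiniteMeasure (volume.restrict U) := ⟨by
    rw [Measure.restrict_apply_univ]; exact lt_top_iff_ne_top.mpr hfin⟩
  set S : ℝ := 16 * C * (1 + Real.log X) * (M + V * Real.sqrt X) with hSdef
  have hS : ∀ t ∈ U, ∫ s in U, ‖∑ n ∈ Icc 1 M, nit (t - s) n‖ ≤ S := by
    intro t ht
    have htX := hUX t ht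
    have hi1 : IntegrableOn (fun s : ℝ => (1 + |t - s|)⁻¹) U := by
      refine Integrable.of_bound (C := 1) (hm_inv_cont t).aestronglyMeasurable
        (Eventually.of_forall fun s => ?_)
      rw [Real.norm_eq_abs, abs_of_nonneg (by positivity)]
      exact inv_le_one_of_one_le₀ (by linarith [abs_nonneg (t - s)])
    have h1 : ∫ s in U, ‖∑ n ∈ Icc 1 M, nit (t - s) n‖ ≤
        ∫ s in U, (4 * C * M * (1 + |t - s|)⁻¹ + 6 * C * (1 + Real.log X) * Real.sqrt X) := by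
      refine setIntegral_mono_on ?_ ?_ hU ?_
      · refine Integrable.of_bound (C := (M : ℝ)) ?_ (Eventually.of_forall fun s => ?_)
        · have : Continuous (fun s : ℝ => ‖∑ n ∈ Icc 1 M, nit (t - s) n‖) := by
            unfold nit
            fun_prop
          exact this.aestronglyMeasurable
        · rw [norm_norm]
          exact hm_D_triv _ M
      · exact (hi1.const_mul _).add (integrable_const _)
      · intro s hs
        refine hm_D_all hC hD hM hMX ?_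
        have := abs_sub t s
        linarith [hUX s hs]
    refine h1.trans ?_
    rw [integral_add (hi1.const_mul _) (integrable_const _), integral_const_mul,
      setIntegral_const, smul_eq_mul]
    have h2 := hm_int_ker hX1 hUX htX
    have h3 : volume.real U ≤ V := ENNReal.toReal_le_of_le_ofReal hV hUV
    have h4 : 4 * C * M * ∫ s in U, (1 + |t - s|)⁻¹ ≤ 4 * C * M * (4 * (1 + Real.log X)) := by
      gcongr
    have h5 : volume.real U * (6 * C * (1 + Real.log X) * Real.sqrt X) ≤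
        V * (6 * C * (1 + Real.log X) * Real.sqrt X) := by
      gcongr
    have h6 : 0 ≤ C * (1 + Real.log X) * (V * Real.sqrt X) := by positivity
    rw [hSdef]
    nlinarith [h4, h5, h6]
  have hdual := hm_dual hfin c M hU hS
  set I : ℝ := ∫ t in U, ‖DP c M t‖ ^ 2 with hI
  have hI0 : 0 ≤ I := integral_nonneg fun t => by positivity
  set A : ℕ → ℂ := fun n => ∫ t in U, nit t n * (starRingEnd ℂ) (DP c M t) with hA
  -- the first Cauchy
  have h1 : (I : ℂ) = ∑ n ∈ Icc 1 M, (c n : ℂ) * A n := by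
    have e1 : ∀ n ∈ Icc 1 M, (c n : ℂ) * A n =
        ∫ t in U, (c n : ℂ) * (nit t n * (starRingEnd ℂ) (DP c M t)) :=
      fun n _ => (integral_const_mul _ _).symm
    rw [sum_congr rfl e1, ← integral_finsetSum]
    · rw [hI, ← integral_complex_ofReal]
      refine integral_congr_ae (Eventually.of_forall fun t => ?_)
      simp only
      have e2 : ∀ g : ℂ, ∑ n ∈ Icc 1 M, (c n : ℂ) * (nit t n * g) = DP c M t * g := by
        intro g
        rw [DP, sum_mul]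
        exact sum_congr rfl fun n _ => by ring
      rw [e2, Complex.mul_conj, Complex.normSq_eq_norm_sq]
    · intro n _
      refine Integrable.const_mul ?_ _
      refine Integrable.of_bound (C := ∑ n ∈ Icc 1 M, |c n|) ?_ (Eventually.of_forall fun t => ?_)
      · have : Continuous (fun t : ℝ => nit t n * (starRingEnd ℂ) (DP c M t)) := by
          refine Continuous.mul ?_ (Complex.continuous_conj.comp (SI.var_DP_cont c M))
          unfold nit
          fun_prop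
        exact this.aestronglyMeasurable
      · rw [norm_mul, RCLike.norm_conj, SI.var_norm_nit, one_mul]
        exact SI.var_DP_le c M t
  have h2 : I ≤ ∑ n ∈ Icc 1 M, |c n| * ‖A n‖ := by
    have e1 : I = ‖(I : ℂ)‖ := by
      rw [Complex.norm_real, Real.norm_eq_abs, abs_of_nonneg hI0]
    rw [e1, h1]
    refine (norm_sum_le _ _).trans (le_of_eq ?_)
    refine sum_congr rfl fun n _ => ?_
    rw [norm_mul, Complex.norm_real, Real.norm_eq_abs]
  have h3 : I ^ 2 ≤ (∑ n ∈ Icc 1 M, c n ^ 2) * (S * I) := by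
    calc I ^ 2 ≤ (∑ n ∈ Icc 1 M, |c n| * ‖A n‖) ^ 2 := by gcongr
      _ ≤ (∑ n ∈ Icc 1 M, |c n| ^ 2) * (∑ n ∈ Icc 1 M, ‖A n‖ ^ 2) :=
        sum_mul_sq_le_sq_mul_sq _ _ _
      _ ≤ (∑ n ∈ Icc 1 M, |c n| ^ 2) * (S * I) := by
        gcongr
      _ = _ := by
        congr 1
        exact sum_congr rfl fun n _ => sq_abs _
  rcases hI0.eq_or_lt with h4 | h4
  · rw [← h4]
    have : 0 ≤ ∑ n ∈ Icc 1 M, c n ^ 2 := sum_nonneg fun n _ => sq_nonneg _
    positivity
  · have h5 : I ≤ (∑ n ∈ Icc 1 M, c n ^ 2) * S := by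
      have : I * I ≤ ((∑ n ∈ Icc 1 M, c n ^ 2) * S) * I := by
        calc I * I = I ^ 2 := by ring
          _ ≤ _ := h3
          _ = _ := by ring
      exact le_of_mul_le_mul_right this h4
    rw [hSdef] at h5
    linarith [h5, mul_comm (∑ n ∈ Icc 1 M, c n ^ 2)
      (16 * C * (1 + Real.log X) * (M + V * Real.sqrt X))]

end Pool.Agent.E2P
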