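import Pool.Agent.E2P.St

set_option autoImplicit false

/-!
# E2P / Prd

The convolution of a polynomial over a finite set with another one.
-/

namespace Pool.Agent.E2P

open Finset Filter MeasureTheory
open Pool.Agent.SI (nit DP fac cof siz IsW Wd)

lemma prd_nit_mul (t : ℝ) {d e : ℕ} (hd : 1 ≤ d) (he : 1 ≤ e) :
    nit t (d * e) = nit t d * nit t e := by
  unfold nit
  rw [← Complex.exp_add]
  congr 1
  have h1 : Real.log ((d * e : ℕ) : ℝ) = Real.log d + Real.log e := by
    push_cast
    exact Real.log_mul (by positivity) (by positivity)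
  rw [h1]
  push_cast
  ring

lemma prd_sum {R : Type*} [AddCommMonoid R] (S : Finset ℕ) (K M : ℕ)
    (hS : ∀ p ∈ S, 1 ≤ p ∧ p ≤ K) (F : ℕ → ℕ → R) (hF : ∀ p b, M < b → F p b = 0) :
    ∑ n ∈ Icc 1 (K * M), ∑ d ∈ n.divisors, (if d ∈ S then F d (n / d) else 0) =
      ∑ p ∈ S, ∑ b ∈ Icc 1 M, F p b := by
  rw [← Finset.sum_product']
  have hmap : ∀ p ∈ S ×ˢ Icc 1 M, p.1 * p.2 ∈ Icc 1 (K * M) := by
    intro p hp
    rw [Finset.mem_product, Finset.mem_Icc] at hp
    rw [Finset.mem_Icc]
    exact ⟨Nat.mul_pos (hS _ hp.1).1 hp.2.1, Nat.mul_le_mul (hS _ hp.1).2 hp.2.2⟩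
  rw [← Finset.sum_fiberwise_of_maps_to hmap]
  apply Finset.sum_congr rfl
  intro n hn
  rw [Finset.mem_Icc] at hn
  have h1 : ∑ d ∈ n.divisors, (if d ∈ S then F d (n / d) else 0) =
      ∑ p ∈ n.divisorsAntidiagonal, (if p.1 ∈ S then F p.1 p.2 else 0) :=
    (Nat.sum_divisorsAntidiagonal (f := fun x y => if x ∈ S then F x y else 0)).symm
  rw [h1]
  symm
  rw [← Finset.sum_filter]
  apply Finset.sum_subset
  · intro p hp
    rw [Finset.mem_filter, Finset.mem_product] at hp
    rw [Finset.mem_filter, Nat.mem_divisorsAntidiagonal]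
    exact ⟨⟨hp.2, by omega⟩, hp.1.1⟩
  · intro p hp hp'
    rw [Finset.mem_filter, Nat.mem_divisorsAntidiagonal] at hp
    by_contra hne
    apply hp'
    rw [Finset.mem_filter, Finset.mem_product, Finset.mem_Icc]
    refine ⟨⟨hp.2, ?_, ?_⟩, hp.1.1⟩
    · rcases Nat.eq_zero_or_pos p.2 with h | h
      · exfalso
        have := hp.1.1
        rw [h, mul_zero] at this
        omega
      · exact h
    · by_contra h
      exact hne (hF p.1 p.2 (by omega))

theorem thm_Prd : St_Prd := by
  intro S g K M hS hg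
  have hg0 : ∀ b, M < b → g b = 0 := by
    intro b hb
    by_contra h
    have := (hg b h).2
    omega
  constructor
  · intro t
    unfold DP PS cS
    have h1 := prd_sum S K M hS (fun p b => nit t p * (((g b : ℝ) : ℂ) * nit t b))
      (fun p b hb => by rw [hg0 b hb]; simp)
    rw [Finset.sum_mul]
    simp_rw [Finset.mul_sum]
    rw [← h1]
    apply Finset.sum_congr rfl
    intro n hn
    rw [Finset.mem_Icc] at hn
    push_cast
    rw [Finset.sum_mul]
    apply Finset.sum_congr rfl
    intro d hd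
    have hdn := Nat.dvd_of_mem_divisors hd
    have h2 : d * (n / d) = n := Nat.mul_div_cancel' hdn
    have hd1 : 1 ≤ d := Nat.pos_of_mem_divisors hd
    have hd2 : 1 ≤ n / d := Nat.div_pos (Nat.le_of_dvd hn.1 hdn) hd1
    by_cases h3 : d ∈ S
    · rw [if_pos h3, if_pos h3]
      have h4 := prd_nit_mul t hd1 hd2
      rw [h2] at h4
      rw [h4]
      ring
    · rw [if_neg h3, if_neg h3]
      simp
  · intro Ψ
    unfold cS
    rw [← prd_sum S K M hS (fun p b => g b * Ψ (p * b)) (fun p b hb => by rw [hg0 b hb, zero_mul])]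
    apply Finset.sum_congr rfl
    intro n hn
    rw [Finset.sum_mul]
    apply Finset.sum_congr rfl
    intro d hd
    have h2 : d * (n / d) = n := Nat.mul_div_cancel' (Nat.dvd_of_mem_divisors hd)
    by_cases h3 : d ∈ S
    · rw [if_pos h3, if_pos h3, h2]
    · rw [if_neg h3, if_neg h3, zero_mul]

end Pool.Agent.E2P
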