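import Mathlib
import Pool.Agent.SI.Asm
import Pool.Agent.EVN.Asm3
import Pool.Agent.E2P.HM
import Pool.Agent.E2P.H1
import Pool.Agent.E2P.H2
import Pool.Agent.E2P.EH
import Pool.Agent.E2P.Prd
import Pool.Agent.E2P.EU
import Pool.Agent.E2P.ER
import Pool.Agent.E2P.EP
import Pool.Agent.E2P.EV
import Pool.Agent.E2P.EL
import Pool.Agent.E2P.EG
import Pool.Agent.E2P.EC
import Pool.Agent.E2P.EQ

set_option autoImplicit false

/-! Assembly of the theorem for every large `n` and every `m ≥ (log n)^C`. -/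

namespace Pool.Agent.E2P

open Pool.Agent Finset

theorem hm : St_HM := thm_HM SI.vc

theorem eh : St_EH := thm_EH (thm_H1 hm SI.facB SI.thm_Cof) (thm_H2 SI.facB SI.thm_Cof)

theorem eu : St_EU := thm_EU eh (EVN.thm_Spa3 SI.thm_MV) SI.thm_MV SI.thm_Cof

theorem er : St_ER := thm_ER SI.thm_MV SI.thm_Cof

theorem ep : St_EP := thm_EP eu er thm_Prd SI.thm_Four SI.thm_Cof

theorem ev : St_EV := thm_EV ep thm_Prd (SI.thm_Box SI.thm_HB) SI.thm_Cof SI.thm_Four

theorem el : St_EL := thm_EL SI.thm_Long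

/-- almost all intervals `(x, x + (log x)^C]` contain many products of two primes, the first one
`≤ (log x)^C` -/
theorem eg : St_EG := thm_EG SI.thm_W ev el

theorem ec : St_EC := thm_EC eg SI.gap

/-- every dense set of `q` -/
theorem finalQ : St_EQ := thm_EQ ec

/-- the theorem -/
theorem finalE : ∃ C n₀ : ℕ, ∀ n ≥ n₀, ∀ m : ℕ, Real.log n ^ C ≤ m → 2 * m + 1 < n →
    (SolE EVN.Phi (Real.log n ^ C) m n).Nonempty ∧
    (12 * m ≤ n → (n : ℝ) / Real.log n ^ 8 ≤
      ((SolE EVN.Phi (Real.log n ^ C) m n).card : ℝ)) :=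
  thm_EF finalQ EVN.Phi EVN.densP EVN.bigP

end Pool.Agent.E2P
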